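import Pool.Agent.Strip051.LC.E1.V2.Lf

/-! # Rests near the full period: certificates C11 below `2 h0` -/

set_option maxRecDepth 100000

namespace Pool.Agent.Strip051.LC.E1.V2

open Pool.Agent.Strip051.PB
open Pool.Agent.Strip051.LC.E0.Ch (onCell Tree)

def y1n_t116 : T :=
  (.c (.a (.b (.c (.c (.a (.l 36) (.a (.l 36) (.l 36))) (.a (.l 36) (.a (.c (.l 32) (.l 32)) (.c
      (.l 32) (.l 32))))) (.a (.c (.a (.l 36) (.l 32)) (.l 47)) (.c (.l 47) (.l 47)))) (.c (.c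
      (.a (.l 36) (.a (.l 36) (.l 36))) (.a (.a (.l 36) (.l 36)) (.a (.c (.l 32) (.l 47)) (.c (.l
      32) (.l 47))))) (.a (.c (.l 47) (.l 47)) (.l 47)))) (.b (.c (.c (.a (.a (.l 36) (.a (.l 36)
      (.c (.l 64) (.l 32)))) (.a (.a (.l 66) (.l 66)) (.l 66))) (.a (.a (.l 36) (.l 36)) (.a (.l
      66) (.l 66)))) (.a (.l 47) (.l 47))) (.c (.c (.a (.a (.l 36) (.a (.l 36) (.c (.l 64) (.l
      32)))) (.a (.a (.l 66) (.l 66)) (.l 66))) (.a (.a (.l 36) (.a (.l 32) (.l 32))) (.a (.l 47)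
      (.l 47)))) (.l 47)))) (.a (.b (.l 47) (.l 47)) (.l 47)))

def y1n_h116 : chk3 (onCell 0 2684354560 1610612736 12884901888 0 26843546 (L1 Fnr)) y1n_t116 5 25 2 = true := by decide +kernel

def y1n_t117 : T :=
  (.b (.c (.a (.c (.b (.a (.l 36) (.a (.l 36) (.l 36))) (.a (.l 36) (.a (.l 36) (.l 36)))) (.a
      (.l 36) (.a (.l 68) (.l 36)))) (.c (.a (.l 36) (.a (.c (.b (.l 36) (.a (.l 36) (.l 36)))
      (.b (.a (.l 64) (.l 32)) (.l 47))) (.c (.l 36) (.b (.l 36) (.l 47))))) (.a (.l 36) (.c (.l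
      47) (.l 47))))) (.a (.a (.l 68) (.a (.c (.l 68) (.l 47)) (.l 36))) (.b (.c (.l 47) (.l 47))
      (.c (.l 47) (.l 47))))) (.c (.a (.c (.b (.a (.l 36) (.a (.l 36) (.l 36))) (.a (.l 36) (.a
      (.l 36) (.l 36)))) (.a (.l 36) (.a (.l 47) (.l 47)))) (.c (.a (.l 36) (.c (.a (.b (.a (.l
      36) (.l 36)) (.c (.l 47) (.l 47))) (.l 36)) (.l 47))) (.a (.l 47) (.l 47)))) (.a (.a (.l
      36) (.a (.l 47) (.l 47))) (.b (.l 47) (.l 47)))))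

def y1n_h117 : chk3 (onCell 0 2684354560 1610612736 12884901888 0 26843546 (L1 Fnr)) y1n_t117 4 13 2 = true := by decide +kernel

def y1n_t118 : T :=
  (.c (.a (.b (.c (.c (.a (.l 36) (.a (.c (.l 36) (.l 64)) (.l 36))) (.a (.a (.l 36) (.l 36)) (.a
      (.l 47) (.l 47)))) (.l 47)) (.c (.c (.c (.a (.l 36) (.l 36)) (.a (.l 36) (.a (.l 64) (.l
      47)))) (.l 47)) (.l 47))) (.b (.c (.c (.a (.a (.l 36) (.a (.l 36) (.c (.l 64) (.l 32))))
      (.a (.a (.l 66) (.l 66)) (.l 66))) (.l 47)) (.l 47)) (.c (.c (.a (.a (.l 36) (.a (.l 36)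
      (.c (.l 66) (.l 47)))) (.a (.a (.l 66) (.l 66)) (.l 66))) (.l 47)) (.l 47)))) (.a (.l 47)
      (.l 47)))

def y1n_h118 : chk3 (onCell 0 2684354560 1610612736 12884901888 0 26843546 (L1 Fnr)) y1n_t118 5 26 2 = true := by decide +kernel

def y1n_t119 : T :=
  (.c (.a (.b (.c (.c (.c (.a (.l 36) (.l 36)) (.l 47)) (.l 47)) (.l 47)) (.c (.c (.c (.a (.l 47)
      (.l 36)) (.l 47)) (.l 47)) (.l 47))) (.b (.c (.c (.a (.a (.l 36) (.a (.l 36) (.c (.l 66)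
      (.l 47)))) (.a (.a (.l 66) (.l 66)) (.l 66))) (.l 47)) (.l 47)) (.c (.c (.a (.a (.l 36) (.a
      (.l 36) (.a (.l 47) (.l 47)))) (.a (.a (.l 66) (.l 66)) (.l 66))) (.l 47)) (.l 47)))) (.a
      (.l 47) (.l 47)))

def y1n_h119 : chk3 (onCell 0 2684354560 1610612736 12884901888 0 26843546 (L1 Fnr)) y1n_t119 5 27 2 = true := by decide +kernel

def y1n_t120 : T :=
  (.a (.b (.c (.a (.a (.l 68) (.c (.a (.b (.l 36) (.l 68)) (.l 36)) (.a (.b (.l 36) (.l 68)) (.l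
      36)))) (.b (.c (.a (.a (.l 36) (.l 47)) (.l 47)) (.l 47)) (.c (.l 47) (.l 47)))) (.a (.a
      (.l 68) (.c (.a (.b (.l 36) (.c (.l 68) (.l 47))) (.l 47)) (.b (.a (.l 36) (.l 47)) (.l
      47)))) (.b (.l 47) (.l 47)))) (.c (.a (.a (.l 68) (.a (.c (.b (.l 68) (.l 47)) (.b (.l 47)
      (.l 47))) (.l 47))) (.b (.c (.l 47) (.l 47)) (.l 47))) (.a (.a (.l 68) (.a (.l 47) (.l
      47))) (.l 47)))) (.b (.c (.a (.l 47) (.l 47)) (.a (.l 47) (.l 15))) (.c (.a (.l 47) (.l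
      47)) (.l 47))))

def y1n_h120 : chk3 (onCell 0 2684354560 1610612736 12884901888 0 26843546 (L1 Fnr)) y1n_t120 2 12 3 = true := by decide +kernel

def y1n_t121 : T :=
  (.a (.b (.c (.a (.a (.l 68) (.a (.l 47) (.l 47))) (.l 47)) (.a (.a (.c (.l 68) (.l 68)) (.l
      47)) (.l 47))) (.c (.a (.a (.l 36) (.l 47)) (.l 47)) (.a (.a (.c (.l 36) (.b (.l 36) (.l
      36))) (.l 47)) (.l 47)))) (.b (.c (.l 47) (.l 47)) (.c (.l 47) (.l 47))))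

def y1n_h121 : chk3 (onCell 0 2684354560 1610612736 12884901888 0 26843546 (L1 Fnr)) y1n_t121 2 13 3 = true := by decide +kernel

def y1n_t122 : T :=
  (.b (.c (.c (.c (.a (.a (.a (.l 66) (.l 66)) (.l 66)) (.a (.l 66) (.l 66))) (.a (.a (.a (.l 66)
      (.l 66)) (.l 66)) (.a (.l 66) (.l 66)))) (.a (.a (.a (.a (.a (.l 66) (.l 66)) (.a (.l 66)
      (.l 66))) (.a (.l 66) (.l 66))) (.a (.a (.l 47) (.l 47)) (.l 47))) (.a (.l 47) (.l 47))))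
      (.c (.l 47) (.l 47))) (.c (.c (.c (.a (.a (.a (.l 66) (.l 66)) (.l 66)) (.a (.l 66) (.l
      66))) (.a (.a (.a (.l 66) (.l 66)) (.l 66)) (.a (.l 66) (.l 47)))) (.a (.l 47) (.l 47)))
      (.c (.l 47) (.l 47))))

def y1n_h122 : chk3 (onCell 0 2684354560 1610612736 12884901888 0 26843546 (L1 Fnr)) y1n_t122 6 12 2 = true := by decide +kernel

def y1n_t123 : T :=
  (.c (.a (.a (.l 66) (.l 66)) (.a (.l 66) (.l 66))) (.l 47))

def y1n_h123 : chk3 (onCell 0 2684354560 1610612736 12884901888 0 26843546 (L1 Fnr)) y1n_t123 14 24 4 = true := by decide +kernel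

def y1n_t124 : T :=
  (.a (.b (.a (.b (.a (.c (.l 66) (.l 47)) (.c (.l 66) (.l 47))) (.a (.c (.l 66) (.l 47)) (.c (.l
      66) (.l 47)))) (.b (.a (.c (.l 66) (.l 47)) (.c (.l 66) (.l 47))) (.a (.c (.l 66) (.l 47))
      (.c (.l 66) (.l 47))))) (.a (.b (.a (.c (.l 66) (.l 47)) (.c (.l 66) (.l 47))) (.c (.l 66)
      (.l 47))) (.b (.c (.l 66) (.l 47)) (.c (.l 66) (.l 47))))) (.b (.a (.b (.a (.c (.l 66) (.l
      47)) (.c (.l 66) (.l 47))) (.c (.l 66) (.l 47))) (.b (.c (.l 66) (.l 47)) (.c (.l 66) (.l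
      47)))) (.a (.b (.c (.l 66) (.l 47)) (.c (.l 66) (.l 47))) (.b (.c (.l 66) (.l 47)) (.c (.l
      66) (.l 47))))))

def y1n_h124 : chk3 (onCell 0 2684354560 1610612736 12884901888 0 26843546 (L1 Fnr)) y1n_t124 60 48 4 = true := by decide +kernel

def y1n_t125 : T :=
  (.a (.b (.a (.b (.c (.l 66) (.l 47)) (.c (.l 66) (.l 47))) (.b (.c (.l 66) (.l 47)) (.c (.l 66)
      (.l 47)))) (.a (.b (.c (.l 66) (.l 47)) (.c (.l 66) (.l 47))) (.b (.c (.l 66) (.l 47)) (.c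
      (.l 66) (.l 47))))) (.b (.a (.b (.c (.l 66) (.l 47)) (.c (.l 66) (.l 47))) (.b (.c (.l 66)
      (.l 47)) (.c (.l 66) (.l 47)))) (.a (.b (.c (.l 66) (.l 47)) (.c (.l 66) (.l 47))) (.b (.c
      (.l 66) (.l 47)) (.c (.l 66) (.l 47))))))

def y1n_h125 : chk3 (onCell 0 2684354560 1610612736 12884901888 0 26843546 (L1 Fnr)) y1n_t125 61 48 4 = true := by decide +kernel

def y1n_t126 : T :=
  (.c (.l 66) (.l 47))

def y1n_h126 : chk3 (onCell 0 2684354560 1610612736 12884901888 0 26843546 (L1 Fnr)) y1n_t126 31 48 4 = true := by decide +kernel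

def y1n_t127 : T :=
  (.c (.a (.l 66) (.l 66)) (.l 47))

def y1n_h127 : chk3 (onCell 0 2684354560 1610612736 12884901888 0 26843546 (L1 Fnr)) y1n_t127 15 49 4 = true := by decide +kernel

def y1n_t128 : T :=
  (.c (.l 47) (.l 15))

def y1n_h128 : chk3 (onCell 0 2684354560 1610612736 12884901888 0 26843546 (L1 Fnr)) y1n_t128 7 24 5 = true := by decide +kernel

def y1n_t129 : T :=
  (.c (.a (.a (.c (.a (.b (.l 66) (.l 66)) (.b (.l 66) (.l 66))) (.l 47)) (.c (.a (.b (.l 66) (.l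
      66)) (.b (.l 66) (.l 66))) (.l 47))) (.b (.c (.a (.l 66) (.l 66)) (.l 47)) (.c (.a (.a (.l
      66) (.l 66)) (.a (.l 66) (.l 66))) (.l 47)))) (.l 47))

def y1n_h129 : chk3 (onCell 0 2684354560 1610612736 12884901888 0 26843546 (L1 Fnr)) y1n_t129 7 25 2 = true := by decide +kernel

def y1n_t130 : T :=
  (.c (.a (.c (.a (.a (.a (.a (.b (.l 66) (.c (.l 66) (.l 47))) (.b (.l 66) (.c (.l 66) (.l
      47)))) (.a (.b (.l 66) (.l 66)) (.b (.l 66) (.l 66)))) (.a (.a (.b (.l 66) (.l 66)) (.b (.l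
      66) (.l 66))) (.a (.b (.l 66) (.l 66)) (.b (.l 66) (.l 66))))) (.a (.a (.b (.l 66) (.l 66))
      (.b (.l 66) (.l 66))) (.a (.b (.l 66) (.l 66)) (.b (.l 66) (.l 66))))) (.l 47)) (.c (.a (.a
      (.a (.b (.l 66) (.l 66)) (.b (.l 66) (.l 66))) (.a (.b (.l 66) (.l 66)) (.b (.l 66) (.l
      66)))) (.a (.a (.b (.l 66) (.l 66)) (.b (.l 66) (.l 66))) (.a (.b (.l 66) (.l 66)) (.b (.l
      66) (.l 66))))) (.l 47))) (.l 47))

def y1n_h130 : chk3 (onCell 0 2684354560 1610612736 12884901888 0 26843546 (L1 Fnr)) y1n_t130 6 26 2 = true := by decide +kernel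

def y1n_t131 : T :=
  (.c (.a (.c (.a (.a (.a (.a (.b (.c (.l 66) (.l 47)) (.a (.c (.l 47) (.l 47)) (.l 66))) (.b (.c
      (.l 66) (.l 47)) (.a (.l 66) (.l 66)))) (.a (.b (.a (.l 66) (.l 66)) (.a (.l 66) (.l 66)))
      (.b (.l 66) (.l 66)))) (.a (.a (.b (.l 66) (.l 66)) (.b (.l 66) (.l 66))) (.a (.b (.l 66)
      (.l 66)) (.b (.l 66) (.l 66))))) (.a (.a (.a (.b (.l 66) (.l 66)) (.b (.l 66) (.l 66))) (.a
      (.b (.l 66) (.l 66)) (.b (.l 66) (.l 66)))) (.a (.b (.l 66) (.a (.l 66) (.l 66))) (.b (.l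
      66) (.a (.l 66) (.l 66)))))) (.l 47)) (.c (.a (.a (.a (.b (.l 66) (.l 66)) (.b (.l 66) (.l
      66))) (.a (.b (.l 66) (.l 66)) (.b (.l 66) (.l 66)))) (.a (.a (.b (.l 66) (.l 66)) (.b (.l
      66) (.l 66))) (.a (.b (.l 66) (.l 66)) (.b (.l 66) (.l 66))))) (.l 47))) (.l 47))

def y1n_h131 : chk3 (onCell 0 2684354560 1610612736 12884901888 0 26843546 (L1 Fnr)) y1n_t131 6 27 2 = true := by decide +kernel

def y1n_t132 : T :=
  (.b (.c (.a (.c (.a (.a (.a (.l 66) (.l 66)) (.b (.l 66) (.l 66))) (.a (.b (.l 66) (.l 66)) (.b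
      (.l 66) (.l 66)))) (.l 47)) (.b (.c (.a (.a (.l 66) (.l 66)) (.a (.l 66) (.l 66))) (.l 47))
      (.c (.a (.a (.l 66) (.l 66)) (.a (.l 66) (.l 66))) (.l 47)))) (.l 47)) (.c (.a (.b (.c (.a
      (.a (.l 66) (.l 66)) (.a (.l 66) (.l 66))) (.l 47)) (.c (.a (.a (.a (.l 66) (.l 66)) (.l
      66)) (.a (.l 66) (.l 66))) (.l 47))) (.b (.c (.a (.a (.l 66) (.l 66)) (.a (.l 66) (.l 66)))
      (.l 47)) (.c (.a (.a (.l 66) (.l 66)) (.a (.l 66) (.a (.l 66) (.l 66)))) (.l 47)))) (.l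
      47)))

def y1n_h132 : chk3 (onCell 0 2684354560 1610612736 12884901888 0 26843546 (L1 Fnr)) y1n_t132 7 13 2 = true := by decide +kernel

def y1n_t133 : T :=
  (.b (.a (.b (.c (.l 47) (.l 15)) (.c (.l 47) (.l 15))) (.b (.c (.l 15) (.l 15)) (.c (.l 15) (.l
      15)))) (.a (.b (.c (.l 15) (.l 15)) (.c (.l 15) (.l 15))) (.b (.c (.l 15) (.l 15)) (.c (.l
      15) (.l 15)))))

def y1n_h133 : chk3 (onCell 0 2684354560 1610612736 12884901888 0 26843546 (L1 Fnr)) y1n_t133 3 6 3 = true := by decide +kernel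

def y1n_t134 : T :=
  (.a (.b (.c (.a (.c (.b (.a (.l 47) (.l 47)) (.a (.l 47) (.l 47))) (.a (.a (.l 47) (.l 47)) (.l
      47))) (.b (.c (.a (.l 47) (.c (.l 47) (.l 47))) (.l 47)) (.c (.c (.l 47) (.l 47)) (.l
      47)))) (.a (.a (.a (.l 36) (.l 47)) (.l 47)) (.l 47))) (.c (.a (.c (.l 47) (.l 47)) (.b (.c
      (.l 47) (.l 47)) (.c (.l 47) (.l 47)))) (.a (.a (.l 47) (.l 47)) (.l 47)))) (.b (.c (.a (.b
      (.c (.c (.l 47) (.l 47)) (.l 47)) (.c (.c (.l 47) (.l 47)) (.l 47))) (.b (.c (.c (.a (.l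
      47) (.l 47)) (.l 47)) (.l 47)) (.c (.c (.l 47) (.l 47)) (.l 47)))) (.a (.l 47) (.l 47)))
      (.c (.a (.b (.c (.l 47) (.l 47)) (.c (.l 47) (.l 47))) (.b (.c (.l 47) (.l 47)) (.c (.l 47)
      (.l 47)))) (.a (.l 47) (.l 47)))))

def y1n_h134 : chk3 (onCell 0 2684354560 1610612736 12884901888 0 26843546 (L1 Fnr)) y1n_t134 2 14 2 = true := by decide +kernel

def y1n_t135 : T :=
  (.a (.b (.c (.a (.c (.l 47) (.l 47)) (.b (.c (.l 47) (.l 47)) (.c (.l 47) (.l 47)))) (.a (.a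
      (.l 47) (.l 47)) (.l 47))) (.c (.a (.l 47) (.b (.l 47) (.l 47))) (.a (.a (.l 47) (.l 47))
      (.l 47)))) (.b (.c (.a (.b (.c (.l 47) (.l 47)) (.c (.l 47) (.l 47))) (.b (.c (.l 47) (.l
      47)) (.c (.l 47) (.l 47)))) (.l 47)) (.c (.a (.b (.c (.l 47) (.l 47)) (.l 47)) (.b (.c (.l
      47) (.l 47)) (.c (.l 47) (.l 47)))) (.l 47))))

def y1n_h135 : chk3 (onCell 0 2684354560 1610612736 12884901888 0 26843546 (L1 Fnr)) y1n_t135 2 15 2 = true := by decide +kernel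

def y1n_t136 : T :=
  (.b (.a (.b (.c (.a (.a (.c (.b (.a (.l 47) (.l 47)) (.l 47)) (.b (.a (.l 47) (.l 47)) (.l
      47))) (.l 47)) (.l 47)) (.a (.b (.c (.a (.c (.l 47) (.l 47)) (.l 47)) (.a (.c (.l 47) (.l
      47)) (.l 47))) (.c (.a (.l 47) (.l 47)) (.a (.l 47) (.l 47)))) (.l 47))) (.c (.a (.a (.c
      (.l 47) (.l 47)) (.l 47)) (.l 47)) (.a (.b (.c (.a (.l 47) (.l 47)) (.a (.l 47) (.l 47)))
      (.c (.l 47) (.a (.l 47) (.l 47)))) (.l 47)))) (.b (.c (.l 47) (.l 15)) (.c (.l 47) (.l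
      15)))) (.a (.b (.c (.a (.b (.a (.l 47) (.l 47)) (.c (.l 47) (.l 47))) (.l 47)) (.a (.b (.c
      (.l 47) (.l 47)) (.c (.l 47) (.l 47))) (.l 47))) (.c (.a (.b (.c (.l 47) (.l 47)) (.l 47))
      (.l 47)) (.a (.b (.c (.l 47) (.l 47)) (.c (.l 47) (.l 47))) (.l 47)))) (.b (.c (.l 47) (.l
      15)) (.c (.l 47) (.l 15)))))

def y1n_h136 : chk3 (onCell 0 2684354560 1610612736 12884901888 0 26843546 (L1 Fnr)) y1n_t136 2 7 3 = true := by decide +kernel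

def y1n_t137 : T :=
  (.a (.b (.c (.c (.c (.a (.a (.l 47) (.l 47)) (.a (.l 66) (.l 66))) (.l 47)) (.l 47)) (.l 47))
      (.c (.a (.c (.a (.l 47) (.l 47)) (.l 47)) (.c (.a (.l 47) (.a (.l 47) (.l 47))) (.l 47)))
      (.l 47))) (.b (.c (.a (.b (.c (.a (.a (.a (.l 66) (.l 66)) (.a (.l 66) (.l 66))) (.a (.a
      (.l 66) (.l 66)) (.a (.l 66) (.l 66)))) (.l 47)) (.c (.a (.a (.l 47) (.l 47)) (.a (.l 47)
      (.l 47))) (.l 47))) (.b (.c (.a (.a (.a (.l 66) (.l 66)) (.a (.l 66) (.l 66))) (.a (.a (.l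
      66) (.l 66)) (.a (.l 66) (.l 66)))) (.l 47)) (.c (.a (.a (.l 47) (.l 47)) (.a (.l 47) (.l
      47))) (.l 47)))) (.l 15)) (.c (.a (.b (.c (.a (.l 47) (.l 47)) (.l 47)) (.c (.l 47) (.l
      47))) (.b (.c (.a (.l 47) (.l 47)) (.l 47)) (.c (.a (.l 47) (.l 47)) (.l 15)))) (.l 15))))

def y1n_h137 : chk3 (onCell 0 2684354560 1610612736 12884901888 0 26843546 (L1 Fnr)) y1n_t137 3 14 2 = true := by decide +kernel

def y1n_t138 : T :=
  (.a (.b (.c (.a (.c (.l 47) (.l 47)) (.c (.a (.l 47) (.l 47)) (.l 47))) (.l 47)) (.c (.a (.c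
      (.l 47) (.l 47)) (.b (.c (.l 47) (.l 47)) (.c (.l 47) (.l 47)))) (.l 47))) (.b (.c (.a (.b
      (.c (.l 47) (.l 47)) (.c (.l 47) (.l 15))) (.b (.c (.l 47) (.l 15)) (.c (.l 47) (.l 15))))
      (.l 15)) (.c (.a (.b (.c (.l 47) (.l 15)) (.c (.l 47) (.l 15))) (.b (.c (.l 47) (.l 15))
      (.c (.l 47) (.l 15)))) (.l 15))))

def y1n_h138 : chk3 (onCell 0 2684354560 1610612736 12884901888 0 26843546 (L1 Fnr)) y1n_t138 3 15 2 = true := by decide +kernel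

def y1n_t139 : T :=
  (.b (.a (.b (.c (.l 15) (.l 15)) (.c (.l 15) (.l 15))) (.b (.c (.l 15) (.l 15)) (.c (.l 15) (.l
      15)))) (.a (.b (.c (.l 15) (.l 15)) (.c (.l 15) (.l 15))) (.b (.c (.l 15) (.l 15)) (.c (.l
      15) (.l 15)))))

def y1n_h139 : chk3 (onCell 0 2684354560 1610612736 12884901888 0 26843546 (L1 Fnr)) y1n_t139 3 7 3 = true := by decide +kernel

def y2n_t0 : T :=
  (.c (.a (.l 79) (.c (.a (.b (.a (.a (.l 79) (.l 66)) (.l 66)) (.a (.l 66) (.l 66))) (.b (.l 66)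
      (.l 66))) (.a (.b (.a (.b (.l 66) (.l 66)) (.a (.l 66) (.l 66))) (.a (.b (.l 66) (.l 66))
      (.b (.l 66) (.l 66)))) (.b (.b (.l 66) (.l 66)) (.b (.l 66) (.l 66)))))) (.a (.c (.l 79)
      (.a (.l 79) (.c (.l 79) (.b (.a (.l 79) (.b (.l 66) (.l 66))) (.a (.l 79) (.b (.l 66) (.l
      66))))))) (.c (.a (.a (.b (.b (.l 66) (.l 66)) (.b (.l 66) (.l 66))) (.b (.b (.l 66) (.l
      66)) (.b (.l 66) (.l 66)))) (.b (.b (.l 66) (.l 66)) (.b (.l 66) (.l 66)))) (.a (.c (.b (.a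
      (.l 66) (.l 66)) (.a (.l 66) (.l 66))) (.b (.a (.l 66) (.l 66)) (.a (.b (.l 66) (.l 66))
      (.l 66)))) (.b (.b (.l 66) (.l 66)) (.b (.l 66) (.a (.l 66) (.l 66))))))))

def y2n_h0 : chk3 (onCell 1610612736 12884901888 0 429496730 0 67108864 (L2 Fnr)) y2n_t0 8 1 2 = true := by decide +kernel

def y2n_t1 : T :=
  (.c (.a (.c (.b (.a (.l 66) (.l 66)) (.a (.l 66) (.l 66))) (.b (.a (.l 66) (.l 66)) (.a (.b (.l
      66) (.l 66)) (.b (.l 66) (.l 66))))) (.c (.b (.l 66) (.b (.l 66) (.l 66))) (.b (.l 66) (.b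
      (.l 66) (.a (.l 66) (.l 66)))))) (.a (.a (.c (.b (.l 66) (.b (.l 66) (.l 66))) (.b (.l 66)
      (.b (.l 66) (.l 66)))) (.c (.b (.l 66) (.b (.l 66) (.l 66))) (.b (.l 66) (.b (.l 66) (.l
      66))))) (.c (.b (.l 66) (.b (.l 66) (.a (.l 66) (.l 66)))) (.a (.b (.l 66) (.b (.l 66) (.l
      66))) (.b (.l 66) (.b (.l 66) (.l 66)))))))

def y2n_h1 : chk3 (onCell 1610612736 12884901888 0 429496730 0 67108864 (L2 Fnr)) y2n_t1 9 1 2 = true := by decide +kernel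

def y2n_t2 : T :=
  (.c (.a (.l 79) (.c (.b (.c (.a (.l 79) (.b (.l 66) (.l 66))) (.b (.a (.l 79) (.l 66)) (.a (.l
      79) (.l 66)))) (.c (.a (.l 79) (.b (.l 66) (.l 66))) (.a (.l 79) (.b (.l 66) (.l 66)))))
      (.c (.b (.a (.l 79) (.b (.l 66) (.l 66))) (.a (.l 79) (.b (.l 66) (.l 66)))) (.a (.l 79)
      (.b (.b (.l 66) (.l 66)) (.b (.l 66) (.l 66))))))) (.a (.l 79) (.c (.a (.l 79) (.c (.b (.b
      (.l 66) (.l 34)) (.b (.l 66) (.l 34))) (.b (.b (.l 66) (.l 34)) (.b (.l 66) (.a (.l 34) (.l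
      34)))))) (.a (.l 79) (.b (.b (.a (.l 66) (.l 34)) (.l 66)) (.b (.a (.b (.l 34) (.l 34)) (.l
      34)) (.c (.a (.l 34) (.l 34)) (.b (.l 34) (.l 34)))))))))

def y2n_h2 : chk3 (onCell 1610612736 12884901888 0 429496730 0 67108864 (L2 Fnr)) y2n_t2 16 1 3 = true := by decide +kernel

def y2n_t3 : T :=
  (.c (.a (.b (.a (.b (.l 66) (.l 66)) (.b (.l 66) (.l 66))) (.b (.a (.l 66) (.l 66)) (.a (.l 66)
      (.l 66)))) (.b (.b (.l 66) (.l 66)) (.b (.l 66) (.a (.l 66) (.l 66))))) (.a (.c (.a (.b (.l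
      66) (.b (.l 66) (.l 66))) (.b (.l 66) (.b (.l 66) (.l 66)))) (.a (.b (.l 66) (.b (.l 66)
      (.l 66))) (.b (.l 66) (.b (.l 34) (.l 66))))) (.c (.b (.l 66) (.b (.l 66) (.l 66))) (.b (.l
      66) (.b (.l 66) (.l 66))))))

def y2n_h3 : chk3 (onCell 1610612736 12884901888 0 429496730 0 67108864 (L2 Fnr)) y2n_t3 17 1 6 = true := by decide +kernel

end Pool.Agent.Strip051.LC.E1.V2
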