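import Pool.Agent.Strip051.LC.E1.V2.Lf

/-! # Rests near the full period: certificates C12 below `2 h0` -/

set_option maxRecDepth 100000

namespace Pool.Agent.Strip051.LC.E1.V2

open Pool.Agent.Strip051.PB
open Pool.Agent.Strip051.LC.E0.Ch (onCell Tree)

def y2n_t4 : T :=
  (.c (.a (.c (.a (.b (.l 66) (.b (.l 34) (.l 34))) (.b (.l 66) (.b (.l 34) (.l 34)))) (.a (.b
      (.b (.l 34) (.l 34)) (.b (.l 34) (.b (.l 34) (.l 34)))) (.b (.l 34) (.b (.l 34) (.l 34)))))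
      (.c (.b (.l 66) (.b (.l 34) (.l 66))) (.b (.l 66) (.b (.l 34) (.a (.l 34) (.l 34)))))) (.a
      (.c (.a (.b (.b (.l 34) (.l 34)) (.b (.l 34) (.b (.l 34) (.l 34)))) (.b (.l 34) (.b (.l 34)
      (.l 34)))) (.a (.b (.b (.l 34) (.l 34)) (.b (.l 34) (.b (.l 34) (.l 34)))) (.b (.l 34) (.b
      (.l 34) (.l 34))))) (.a (.b (.c (.l 34) (.l 34)) (.b (.l 34) (.l 34))) (.b (.l 34) (.b (.l
      34) (.b (.l 34) (.l 34)))))))

def y2n_h4 : chk3 (onCell 1610612736 12884901888 0 429496730 0 67108864 (L2 Fnr)) y2n_t4 17 1 7 = true := by decide +kernel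

def y2n_t5 : T :=
  (.c (.a (.c (.a (.b (.l 66) (.b (.l 66) (.l 66))) (.b (.l 66) (.b (.l 66) (.l 66)))) (.a (.b
      (.l 66) (.b (.l 66) (.a (.l 66) (.l 66)))) (.b (.l 66) (.b (.l 66) (.b (.l 66) (.l 66))))))
      (.a (.c (.b (.l 66) (.b (.l 66) (.l 66))) (.b (.b (.l 66) (.l 66)) (.b (.l 66) (.l 66))))
      (.c (.b (.l 66) (.b (.l 66) (.l 66))) (.l 47)))) (.a (.a (.c (.c (.b (.l 66) (.b (.l 34)
      (.a (.l 34) (.l 34)))) (.b (.l 34) (.b (.l 34) (.a (.l 34) (.l 34))))) (.b (.b (.l 34) (.a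
      (.l 34) (.l 34))) (.b (.a (.l 34) (.l 34)) (.a (.b (.l 34) (.l 34)) (.l 34))))) (.c (.b (.b
      (.l 34) (.a (.l 34) (.l 34))) (.b (.a (.l 66) (.l 34)) (.a (.l 34) (.l 34)))) (.b (.b (.c
      (.l 34) (.l 47)) (.c (.l 34) (.l 47))) (.b (.c (.l 34) (.l 47)) (.l 34))))) (.a (.l 47) (.l
      47))))

def y2n_h5 : chk3 (onCell 1610612736 12884901888 0 429496730 0 67108864 (L2 Fnr)) y2n_t5 9 1 3 = true := by decide +kernel

def y2n_t6 : T :=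
  (.c (.a (.c (.a (.c (.b (.l 66) (.b (.l 66) (.l 66))) (.b (.l 66) (.b (.l 66) (.a (.l 66) (.l
      66))))) (.c (.b (.l 66) (.b (.l 66) (.l 66))) (.b (.l 66) (.b (.l 66) (.a (.l 66) (.l
      66)))))) (.a (.c (.b (.l 66) (.b (.l 66) (.a (.l 66) (.l 66)))) (.b (.b (.l 66) (.a (.l 66)
      (.l 47))) (.b (.a (.l 66) (.l 47)) (.a (.l 66) (.l 47))))) (.c (.b (.b (.l 66) (.l 66)) (.b
      (.a (.l 47) (.l 47)) (.a (.l 47) (.l 47)))) (.l 47)))) (.c (.a (.c (.b (.l 66) (.b (.l 66)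
      (.l 66))) (.b (.l 66) (.b (.l 66) (.b (.l 66) (.a (.l 66) (.l 66)))))) (.c (.b (.l 66) (.b
      (.l 66) (.l 66))) (.l 47))) (.c (.l 47) (.l 47)))) (.a (.c (.a (.l 47) (.l 47)) (.l 47))
      (.c (.l 15) (.l 15))))

def y2n_h6 : chk3 (onCell 1610612736 12884901888 0 429496730 0 67108864 (L2 Fnr)) y2n_t6 5 1 1 = true := by decide +kernel

def y2n_t7 : T :=
  (.a (.c (.a (.c (.a (.c (.b (.l 66) (.b (.l 66) (.l 66))) (.l 47)) (.c (.b (.l 66) (.b (.l 66)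
      (.b (.l 66) (.l 66)))) (.l 47))) (.l 47)) (.c (.a (.c (.b (.l 66) (.b (.l 66) (.b (.l 66)
      (.a (.l 66) (.l 66))))) (.l 47)) (.c (.b (.l 66) (.b (.l 66) (.b (.l 66) (.a (.l 66) (.l
      66))))) (.l 47))) (.l 15))) (.a (.l 15) (.l 15))) (.c (.a (.c (.a (.c (.b (.l 66) (.b (.b
      (.l 66) (.l 66)) (.b (.a (.l 66) (.l 47)) (.b (.a (.l 66) (.l 47)) (.a (.l 66) (.l 47))))))
      (.l 15)) (.c (.l 47) (.l 15))) (.l 15)) (.c (.a (.c (.l 47) (.l 15)) (.c (.l 47) (.l 15)))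
      (.l 15))) (.a (.l 15) (.l 15))))

def y2n_h7 : chk3 (onCell 1610612736 12884901888 0 429496730 0 67108864 (L2 Fnr)) y2n_t7 3 1 1 = true := by decide +kernel

end Pool.Agent.Strip051.LC.E1.V2
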