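import Pool.Agent.Strip051.LC.E1.V2.Lf

/-! # Rests near the full period: certificates C2 below `2 h0` -/

set_option maxRecDepth 100000

namespace Pool.Agent.Strip051.LC.E1.V2

open Pool.Agent.Strip051.PB
open Pool.Agent.Strip051.LC.E0.Ch (onCell Tree)

def y1f_t29 : T :=
  (.c (.a (.a (.a (.c (.b (.l 32) (.l 32)) (.b (.b (.l 32) (.l 32)) (.l 32))) (.c (.b (.l 32) (.l
      32)) (.b (.l 32) (.l 32)))) (.a (.c (.b (.l 32) (.l 32)) (.b (.l 32) (.l 32))) (.c (.l 36)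
      (.b (.l 32) (.l 32))))) (.a (.b (.c (.a (.l 32) (.l 32)) (.a (.l 32) (.l 32))) (.c (.l 32)
      (.l 32))) (.b (.c (.l 32) (.l 32)) (.l 34)))) (.a (.a (.a (.b (.c (.b (.l 32) (.l 32)) (.b
      (.l 32) (.l 32))) (.c (.l 32) (.l 32))) (.c (.b (.b (.l 32) (.l 32)) (.l 32)) (.b (.b (.l
      32) (.l 32)) (.l 32)))) (.a (.c (.b (.l 32) (.l 32)) (.b (.a (.l 32) (.l 32)) (.l 32))) (.c
      (.b (.l 32) (.l 32)) (.b (.l 32) (.l 32))))) (.a (.b (.c (.a (.l 32) (.l 32)) (.a (.l 32)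
      (.l 32))) (.c (.a (.l 32) (.l 32)) (.a (.l 32) (.l 32)))) (.b (.c (.l 34) (.l 34)) (.c (.l
      32) (.l 34))))))

def y1f_h29 : chk3 (onCell 0 2684354560 1610612736 12884901888 0 26843546 (L1 Ff)) y1f_t29 11 35 7 = true := by decide +kernel

def y1f_t30 : T :=
  (.a (.a (.l 36) (.l 36)) (.c (.b (.a (.l 68) (.a (.c (.a (.l 64) (.l 36)) (.a (.l 64) (.l 36)))
      (.c (.a (.l 68) (.l 36)) (.a (.l 68) (.l 36))))) (.a (.l 68) (.a (.c (.a (.l 64) (.l 36))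
      (.b (.a (.l 32) (.l 32)) (.a (.l 32) (.l 32)))) (.c (.l 68) (.l 36))))) (.b (.a (.l 68) (.a
      (.c (.b (.a (.l 64) (.l 36)) (.a (.l 32) (.l 32))) (.b (.a (.l 32) (.l 32)) (.a (.l 32) (.l
      32)))) (.c (.a (.l 68) (.l 36)) (.a (.l 68) (.l 68))))) (.a (.l 68) (.a (.c (.b (.a (.l 32)
      (.l 32)) (.a (.l 32) (.l 32))) (.b (.a (.l 32) (.l 32)) (.l 64))) (.c (.a (.l 36) (.l 36))
      (.a (.l 36) (.b (.l 32) (.l 32)))))))))

def y1f_h30 : chk3 (onCell 0 2684354560 1610612736 12884901888 0 26843546 (L1 Ff)) y1f_t30 4 18 6 = true := by decide +kernel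

def y1f_t31 : T :=
  (.a (.l 36) (.l 36))

def y1f_h31 : chk3 (onCell 0 2684354560 1610612736 12884901888 0 26843546 (L1 Ff)) y1f_t31 8 18 7 = true := by decide +kernel

def y1f_t32 : T :=
  (.b (.a (.l 68) (.a (.c (.b (.a (.l 32) (.l 32)) (.a (.l 32) (.l 32))) (.b (.a (.l 32) (.l 32))
      (.a (.l 32) (.l 32)))) (.c (.a (.b (.a (.l 32) (.l 32)) (.l 36)) (.l 68)) (.a (.b (.a (.l
      32) (.l 32)) (.l 36)) (.b (.b (.l 32) (.l 32)) (.l 36)))))) (.a (.l 68) (.a (.c (.b (.a (.l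
      32) (.l 32)) (.l 64)) (.b (.a (.l 32) (.l 32)) (.l 64))) (.c (.a (.l 36) (.b (.l 32) (.l
      32))) (.a (.l 36) (.b (.l 32) (.l 32)))))))

def y1f_h32 : chk3 (onCell 0 2684354560 1610612736 12884901888 0 26843546 (L1 Ff)) y1f_t32 9 18 14 = true := by decide +kernel

def y1f_t33 : T :=
  (.a (.b (.l 68) (.l 68)) (.b (.a (.c (.b (.a (.l 32) (.l 32)) (.a (.l 32) (.l 32))) (.b (.a (.l
      32) (.l 32)) (.a (.l 32) (.l 32)))) (.c (.a (.b (.a (.l 32) (.l 32)) (.l 32)) (.b (.b (.l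
      36) (.l 32)) (.l 36))) (.a (.b (.l 36) (.l 32)) (.b (.b (.l 36) (.l 36)) (.l 36))))) (.a
      (.c (.b (.l 64) (.l 64)) (.b (.l 64) (.l 64))) (.b (.c (.a (.l 32) (.l 32)) (.a (.l 32) (.l
      32))) (.a (.l 32) (.l 32))))))

def y1f_h33 : chk3 (onCell 0 2684354560 1610612736 12884901888 0 26843546 (L1 Ff)) y1f_t33 9 18 15 = true := by decide +kernel

def y1f_t34 : T :=
  (.c (.a (.l 36) (.l 68)) (.a (.l 36) (.c (.l 68) (.l 68))))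

def y1f_h34 : chk3 (onCell 0 2684354560 1610612736 12884901888 0 26843546 (L1 Ff)) y1f_t34 8 19 3 = true := by decide +kernel

def y1f_t35 : T :=
  (.c (.a (.b (.a (.l 36) (.l 36)) (.c (.a (.l 36) (.l 36)) (.a (.l 36) (.l 36)))) (.c (.a (.b
      (.c (.b (.a (.l 64) (.l 32)) (.l 64)) (.b (.l 64) (.l 64))) (.c (.b (.l 64) (.l 64)) (.b
      (.l 64) (.l 64)))) (.b (.c (.l 36) (.l 36)) (.c (.l 36) (.a (.l 32) (.l 32))))) (.b (.a (.c
      (.b (.l 64) (.l 64)) (.b (.l 64) (.l 64))) (.c (.a (.l 32) (.l 36)) (.a (.l 32) (.l 36))))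
      (.a (.c (.l 64) (.l 64)) (.c (.a (.l 32) (.l 32)) (.l 36)))))) (.a (.b (.a (.l 36) (.l 36))
      (.a (.l 36) (.l 36))) (.c (.b (.b (.a (.c (.l 64) (.l 64)) (.c (.l 36) (.l 36))) (.a (.l
      64) (.a (.l 32) (.l 32)))) (.b (.a (.l 64) (.a (.l 32) (.l 32))) (.a (.l 64) (.a (.l 32)
      (.l 32))))) (.b (.a (.b (.l 64) (.l 64)) (.b (.a (.l 32) (.l 32)) (.a (.l 32) (.l 32))))
      (.a (.a (.l 32) (.l 32)) (.a (.l 32) (.l 32)))))))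

def y1f_h35 : chk3 (onCell 0 2684354560 1610612736 12884901888 0 26843546 (L1 Ff)) y1f_t35 9 19 3 = true := by decide +kernel

def y1f_t36 : T :=
  (.b (.a (.c (.a (.l 36) (.l 36)) (.a (.l 36) (.l 36))) (.a (.c (.a (.l 36) (.l 36)) (.a (.l 36)
      (.l 36))) (.a (.c (.l 36) (.c (.l 32) (.l 32))) (.c (.l 36) (.c (.l 32) (.l 32)))))) (.a
      (.c (.l 36) (.a (.c (.l 36) (.l 36)) (.l 36))) (.a (.c (.a (.l 36) (.l 36)) (.c (.b (.l 32)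
      (.l 32)) (.b (.l 32) (.l 32)))) (.c (.l 36) (.c (.l 36) (.b (.l 32) (.l 32)))))))

def y1f_h36 : chk3 (onCell 0 2684354560 1610612736 12884901888 0 26843546 (L1 Ff)) y1f_t36 10 18 6 = true := by decide +kernel

def y1f_t37 : T :=
  (.b (.c (.a (.a (.l 36) (.c (.l 36) (.l 36))) (.a (.b (.a (.l 32) (.l 32)) (.l 32)) (.b (.l 32)
      (.l 32)))) (.a (.a (.a (.c (.l 32) (.b (.l 32) (.l 32))) (.c (.l 32) (.b (.l 32) (.l 32))))
      (.a (.c (.l 32) (.l 32)) (.c (.l 32) (.l 32)))) (.a (.b (.a (.l 32) (.l 32)) (.a (.l 32)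
      (.l 32))) (.b (.l 32) (.l 32))))) (.c (.a (.a (.c (.l 36) (.l 36)) (.c (.l 36) (.l 36)))
      (.a (.b (.l 32) (.l 32)) (.a (.l 32) (.l 32)))) (.a (.a (.c (.l 36) (.l 36)) (.c (.l 36)
      (.l 36))) (.a (.b (.a (.l 32) (.l 32)) (.l 32)) (.a (.l 34) (.l 34))))))

def y1f_h37 : chk3 (onCell 0 2684354560 1610612736 12884901888 0 26843546 (L1 Ff)) y1f_t37 11 18 6 = true := by decide +kernel

def y1f_t38 : T :=
  (.a (.b (.a (.l 36) (.l 36)) (.c (.l 36) (.a (.l 36) (.a (.l 32) (.l 32))))) (.a (.c (.b (.c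
      (.l 32) (.l 32)) (.c (.l 32) (.l 32))) (.b (.c (.b (.l 32) (.l 32)) (.b (.l 32) (.l 32)))
      (.c (.l 32) (.l 32)))) (.c (.b (.b (.l 32) (.l 32)) (.l 32)) (.b (.a (.l 32) (.l 32)) (.l
      32)))))

def y1f_h38 : chk3 (onCell 0 2684354560 1610612736 12884901888 0 26843546 (L1 Ff)) y1f_t38 10 36 14 = true := by decide +kernel

def y1f_t39 : T :=
  (.a (.b (.c (.a (.l 36) (.a (.l 32) (.l 32))) (.a (.a (.l 36) (.c (.l 32) (.l 32))) (.a (.l 32)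
      (.l 32)))) (.c (.b (.a (.l 36) (.a (.l 32) (.l 32))) (.a (.a (.l 32) (.l 32)) (.a (.l 32)
      (.l 32)))) (.b (.a (.a (.l 32) (.l 32)) (.a (.l 32) (.l 32))) (.a (.a (.l 32) (.l 32)) (.a
      (.l 32) (.l 32)))))) (.a (.c (.b (.c (.a (.l 32) (.l 32)) (.a (.l 32) (.l 32))) (.c (.l 32)
      (.l 32))) (.b (.c (.a (.l 32) (.l 32)) (.a (.l 32) (.l 32))) (.c (.l 32) (.a (.l 32) (.l
      32))))) (.c (.b (.a (.l 32) (.l 32)) (.a (.l 32) (.l 32))) (.b (.c (.a (.l 32) (.l 32)) (.a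
      (.l 32) (.l 32))) (.a (.l 32) (.l 32))))))

def y1f_h39 : chk3 (onCell 0 2684354560 1610612736 12884901888 0 26843546 (L1 Ff)) y1f_t39 10 36 15 = true := by decide +kernel

def y1f_t40 : T :=
  (.a (.b (.c (.a (.a (.l 32) (.l 32)) (.l 36)) (.a (.a (.l 32) (.l 32)) (.a (.l 32) (.l 32))))
      (.c (.a (.a (.l 32) (.l 32)) (.l 36)) (.a (.b (.a (.l 32) (.l 32)) (.c (.a (.l 32) (.l 32))
      (.a (.l 32) (.l 32)))) (.a (.l 32) (.l 32))))) (.a (.c (.b (.l 32) (.l 32)) (.b (.c (.l 32)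
      (.l 32)) (.l 32))) (.c (.b (.l 32) (.l 32)) (.b (.l 32) (.l 32)))))

def y1f_h40 : chk3 (onCell 0 2684354560 1610612736 12884901888 0 26843546 (L1 Ff)) y1f_t40 10 37 14 = true := by decide +kernel

def y1f_t41 : T :=
  (.a (.b (.c (.b (.a (.a (.l 32) (.l 32)) (.a (.l 32) (.l 32))) (.a (.c (.a (.l 32) (.l 32)) (.a
      (.l 32) (.l 32))) (.l 32))) (.b (.a (.c (.a (.l 32) (.l 32)) (.a (.l 32) (.l 32))) (.a (.l
      32) (.l 32))) (.a (.c (.a (.l 32) (.l 32)) (.a (.l 32) (.l 32))) (.a (.l 32) (.l 32)))))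
      (.c (.a (.b (.c (.a (.l 32) (.l 32)) (.a (.l 32) (.l 32))) (.c (.a (.l 32) (.l 32)) (.a (.l
      32) (.l 32)))) (.a (.l 32) (.l 32))) (.a (.b (.c (.a (.l 32) (.l 32)) (.a (.l 32) (.l 32)))
      (.a (.l 32) (.l 32))) (.a (.l 32) (.l 32))))) (.b (.a (.c (.c (.l 32) (.l 32)) (.c (.l 32)
      (.l 32))) (.c (.l 32) (.c (.l 32) (.l 32)))) (.c (.a (.c (.l 32) (.l 32)) (.l 32)) (.a (.c
      (.l 32) (.l 32)) (.c (.l 32) (.l 32))))))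

def y1f_h41 : chk3 (onCell 0 2684354560 1610612736 12884901888 0 26843546 (L1 Ff)) y1f_t41 10 37 15 = true := by decide +kernel

def y1f_t42 : T :=
  (.c (.a (.a (.a (.c (.b (.l 32) (.l 32)) (.b (.l 32) (.l 32))) (.c (.b (.l 32) (.l 32)) (.b (.l
      32) (.l 32)))) (.a (.c (.b (.l 32) (.l 32)) (.b (.l 32) (.l 32))) (.c (.l 32) (.b (.l 32)
      (.l 32))))) (.a (.b (.c (.l 32) (.l 32)) (.c (.l 32) (.l 32))) (.b (.l 34) (.l 34)))) (.a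
      (.a (.c (.b (.a (.l 32) (.l 32)) (.l 32)) (.b (.a (.l 32) (.l 32)) (.a (.l 32) (.l 32))))
      (.b (.c (.a (.l 32) (.l 32)) (.a (.l 32) (.l 32))) (.c (.l 32) (.l 32)))) (.a (.b (.c (.a
      (.l 32) (.l 32)) (.a (.l 32) (.l 32))) (.c (.l 32) (.l 32))) (.b (.a (.l 32) (.l 32)) (.a
      (.l 32) (.l 34))))))

def y1f_h42 : chk3 (onCell 0 2684354560 1610612736 12884901888 0 26843546 (L1 Ff)) y1f_t42 11 36 7 = true := by decide +kernel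

def y1f_t43 : T :=
  (.c (.a (.a (.c (.l 36) (.a (.l 32) (.l 32))) (.b (.c (.l 32) (.l 32)) (.l 32))) (.a (.b (.a
      (.l 32) (.l 32)) (.a (.l 32) (.l 32))) (.a (.b (.l 32) (.l 32)) (.b (.l 32) (.l 32))))) (.a
      (.a (.b (.c (.l 32) (.l 32)) (.c (.l 32) (.l 32))) (.b (.c (.l 32) (.l 32)) (.c (.l 32) (.l
      32)))) (.a (.c (.b (.l 32) (.l 32)) (.b (.l 32) (.a (.l 32) (.l 32)))) (.a (.c (.l 34) (.l
      34)) (.b (.l 32) (.l 32))))))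

def y1f_h43 : chk3 (onCell 0 2684354560 1610612736 12884901888 0 26843546 (L1 Ff)) y1f_t43 11 37 7 = true := by decide +kernel

def y1f_t44 : T :=
  (.b (.c (.a (.a (.l 36) (.l 36)) (.a (.c (.l 36) (.l 36)) (.l 36))) (.a (.c (.a (.l 36) (.l
      36)) (.a (.l 36) (.a (.l 32) (.l 32)))) (.a (.c (.l 36) (.b (.l 32) (.l 32))) (.c (.l 36)
      (.l 36))))) (.a (.c (.a (.l 36) (.l 36)) (.c (.a (.b (.l 36) (.l 36)) (.a (.l 32) (.l 32)))
      (.a (.b (.b (.l 32) (.l 32)) (.l 32)) (.b (.a (.l 32) (.l 32)) (.l 32))))) (.c (.a (.c (.l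
      32) (.l 36)) (.l 36)) (.a (.b (.c (.l 32) (.l 32)) (.c (.l 32) (.l 32))) (.c (.l 32) (.b
      (.l 32) (.l 32)))))))

def y1f_h44 : chk3 (onCell 0 2684354560 1610612736 12884901888 0 26843546 (L1 Ff)) y1f_t44 10 19 6 = true := by decide +kernel

def y1f_t45 : T :=
  (.b (.a (.a (.c (.c (.l 32) (.l 32)) (.b (.l 32) (.l 32))) (.c (.b (.l 32) (.l 32)) (.b (.l 32)
      (.l 32)))) (.a (.c (.a (.l 32) (.l 32)) (.a (.l 32) (.l 34))) (.a (.c (.l 32) (.l 34)) (.c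
      (.l 32) (.l 34))))) (.a (.a (.c (.b (.l 32) (.l 32)) (.c (.l 32) (.l 32))) (.c (.b (.l 32)
      (.l 32)) (.c (.l 32) (.a (.l 32) (.l 32))))) (.a (.a (.c (.l 32) (.c (.l 32) (.l 32))) (.c
      (.l 32) (.l 34))) (.a (.c (.l 34) (.l 34)) (.c (.l 34) (.l 34))))))

def y1f_h45 : chk3 (onCell 0 2684354560 1610612736 12884901888 0 26843546 (L1 Ff)) y1f_t45 11 19 6 = true := by decide +kernel

def y1f_t46 : T :=
  (.a (.c (.c (.b (.a (.c (.l 36) (.b (.l 32) (.l 32))) (.l 36)) (.a (.b (.c (.l 32) (.l 32)) (.l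
      32)) (.a (.l 32) (.l 32)))) (.b (.a (.b (.c (.l 32) (.l 32)) (.c (.l 32) (.l 32))) (.a (.l
      32) (.l 32))) (.a (.b (.l 32) (.l 32)) (.a (.l 32) (.l 32))))) (.c (.b (.a (.b (.a (.l 32)
      (.l 32)) (.l 32)) (.a (.l 32) (.l 32))) (.a (.a (.l 32) (.l 32)) (.a (.l 32) (.l 32)))) (.b
      (.a (.a (.l 32) (.l 32)) (.a (.l 32) (.l 32))) (.a (.l 32) (.c (.l 32) (.l 32)))))) (.c (.a
      (.b (.c (.l 32) (.l 32)) (.c (.l 32) (.l 32))) (.c (.b (.l 32) (.l 32)) (.b (.l 32) (.l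
      32)))) (.a (.b (.c (.c (.l 32) (.l 32)) (.c (.l 32) (.a (.l 32) (.l 32)))) (.c (.c (.l 32)
      (.l 32)) (.c (.l 32) (.l 32)))) (.c (.b (.l 32) (.l 32)) (.b (.a (.l 32) (.l 32)) (.a (.l
      32) (.l 32)))))))

def y1f_h46 : chk3 (onCell 0 2684354560 1610612736 12884901888 0 26843546 (L1 Ff)) y1f_t46 10 38 7 = true := by decide +kernel

def y1f_t47 : T :=
  (.c (.a (.c (.a (.b (.b (.l 32) (.l 32)) (.l 32)) (.b (.a (.l 32) (.l 32)) (.l 32))) (.a (.b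
      (.l 32) (.l 32)) (.b (.a (.l 32) (.l 32)) (.l 32)))) (.a (.c (.b (.l 32) (.l 32)) (.b (.l
      32) (.l 32))) (.c (.b (.l 32) (.l 32)) (.b (.l 32) (.l 32))))) (.a (.a (.b (.c (.l 32) (.l
      32)) (.c (.l 32) (.l 32))) (.c (.b (.l 32) (.l 32)) (.b (.l 32) (.l 32)))) (.a (.b (.c (.l
      32) (.l 32)) (.c (.l 32) (.l 32))) (.c (.b (.l 32) (.l 32)) (.b (.a (.l 32) (.l 32)) (.a
      (.l 32) (.l 32)))))))

def y1f_h47 : chk3 (onCell 0 2684354560 1610612736 12884901888 0 26843546 (L1 Ff)) y1f_t47 10 39 7 = true := by decide +kernel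

def y1f_t48 : T :=
  (.c (.a (.a (.c (.b (.l 32) (.l 32)) (.b (.l 32) (.l 32))) (.a (.c (.l 32) (.l 32)) (.c (.l 32)
      (.l 32)))) (.a (.c (.a (.l 32) (.l 32)) (.a (.l 32) (.l 32))) (.a (.c (.l 32) (.l 32)) (.l
      34)))) (.a (.a (.a (.c (.l 32) (.b (.l 32) (.l 32))) (.c (.l 32) (.b (.l 32) (.l 32)))) (.a
      (.c (.b (.l 32) (.l 32)) (.b (.l 32) (.l 32))) (.c (.b (.l 32) (.l 32)) (.b (.l 32) (.l
      32))))) (.a (.c (.a (.a (.l 32) (.l 32)) (.l 34)) (.a (.b (.l 32) (.l 32)) (.l 34))) (.a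
      (.c (.l 32) (.l 34)) (.c (.l 32) (.l 34))))))

def y1f_h48 : chk3 (onCell 0 2684354560 1610612736 12884901888 0 26843546 (L1 Ff)) y1f_t48 11 38 7 = true := by decide +kernel

def y1f_t49 : T :=
  (.a (.c (.a (.a (.c (.l 32) (.l 32)) (.c (.l 32) (.l 32))) (.b (.c (.l 32) (.l 32)) (.c (.l 32)
      (.l 32)))) (.a (.b (.c (.a (.l 32) (.l 32)) (.a (.l 32) (.l 32))) (.c (.l 32) (.l 32))) (.b
      (.c (.l 32) (.l 32)) (.c (.l 32) (.l 32))))) (.a (.c (.a (.c (.l 32) (.l 32)) (.c (.l 32)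
      (.l 32))) (.a (.c (.l 34) (.l 34)) (.c (.l 34) (.l 34)))) (.a (.c (.l 34) (.c (.l 34) (.l
      34))) (.c (.l 34) (.c (.l 34) (.l 34))))))

def y1f_h49 : chk3 (onCell 0 2684354560 1610612736 12884901888 0 26843546 (L1 Ff)) y1f_t49 11 39 7 = true := by decide +kernel

def y1f_t50 : T :=
  (.c (.l 79) (.b (.l 79) (.a (.l 79) (.l 79))))

def y1f_h50 : chk3 (onCell 0 2684354560 1610612736 12884901888 0 26843546 (L1 Ff)) y1f_t50 6 16 2 = true := by decide +kernel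

def y1f_t51 : T :=
  (.c (.a (.b (.a (.a (.b (.l 79) (.c (.l 66) (.l 66))) (.b (.l 79) (.l 66))) (.a (.b (.l 79) (.l
      66)) (.l 66))) (.a (.a (.b (.c (.l 66) (.l 66)) (.c (.l 66) (.l 66))) (.b (.l 66) (.l 66)))
      (.a (.l 66) (.l 66)))) (.b (.a (.b (.l 79) (.l 66)) (.b (.l 66) (.l 66))) (.a (.a (.l 66)
      (.l 66)) (.l 66)))) (.a (.b (.a (.a (.b (.c (.l 66) (.l 66)) (.a (.l 66) (.l 66))) (.b (.l
      66) (.l 66))) (.a (.b (.l 66) (.l 66)) (.l 66))) (.a (.a (.b (.l 66) (.l 66)) (.l 66)) (.a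
      (.l 66) (.l 66)))) (.b (.a (.b (.l 66) (.l 66)) (.b (.l 66) (.l 66))) (.a (.l 66) (.l
      66)))))

def y1f_h51 : chk3 (onCell 0 2684354560 1610612736 12884901888 0 26843546 (L1 Ff)) y1f_t51 6 17 4 = true := by decide +kernel

def y1f_t52 : T :=
  (.a (.b (.a (.a (.c (.b (.a (.l 34) (.l 66)) (.l 34)) (.b (.a (.l 34) (.l 34)) (.l 34))) (.c
      (.b (.l 66) (.l 66)) (.b (.l 66) (.l 34)))) (.a (.b (.c (.l 66) (.l 34)) (.c (.l 34) (.l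
      34))) (.b (.c (.l 66) (.l 34)) (.l 66)))) (.a (.a (.c (.b (.l 34) (.l 34)) (.b (.l 34) (.l
      34))) (.c (.l 66) (.l 34))) (.a (.c (.l 66) (.l 66)) (.b (.l 66) (.l 66))))) (.b (.a (.b
      (.a (.l 66) (.l 66)) (.a (.l 66) (.l 66))) (.b (.a (.l 66) (.l 66)) (.a (.l 66) (.l 66))))
      (.a (.a (.b (.l 66) (.l 66)) (.b (.l 66) (.l 66))) (.b (.l 66) (.l 66)))))

def y1f_h52 : chk3 (onCell 0 2684354560 1610612736 12884901888 0 26843546 (L1 Ff)) y1f_t52 6 17 5 = true := by decide +kernel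

def y1f_t53 : T :=
  (.a (.c (.l 79) (.b (.l 79) (.a (.l 79) (.b (.l 79) (.l 79))))) (.a (.c (.l 79) (.b (.l 79) (.b
      (.l 79) (.b (.l 79) (.l 66))))) (.c (.l 79) (.b (.l 79) (.b (.l 79) (.b (.l 79) (.l
      66)))))))

def y1f_h53 : chk3 (onCell 0 2684354560 1610612736 12884901888 0 26843546 (L1 Ff)) y1f_t53 7 16 2 = true := by decide +kernel

def y1f_t54 : T :=
  (.a (.c (.c (.b (.a (.l 66) (.l 66)) (.a (.l 66) (.l 66))) (.b (.a (.l 66) (.l 66)) (.a (.l 66)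
      (.l 66)))) (.b (.a (.b (.a (.l 66) (.l 66)) (.a (.l 66) (.l 66))) (.b (.b (.l 66) (.l 66))
      (.a (.l 66) (.l 66)))) (.a (.b (.l 66) (.a (.l 66) (.l 66))) (.b (.a (.l 66) (.l 66)) (.a
      (.l 66) (.l 66)))))) (.c (.a (.b (.b (.c (.l 66) (.l 66)) (.c (.l 66) (.l 66))) (.b (.l 66)
      (.l 66))) (.b (.b (.c (.l 66) (.l 66)) (.c (.l 66) (.l 66))) (.b (.l 66) (.l 66)))) (.b (.a
      (.b (.b (.l 66) (.l 66)) (.b (.l 66) (.l 66))) (.b (.b (.l 66) (.l 66)) (.a (.l 66) (.l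
      66)))) (.a (.b (.a (.l 66) (.l 66)) (.a (.l 66) (.l 66))) (.b (.b (.l 66) (.l 66)) (.a (.l
      66) (.l 66)))))))

def y1f_h54 : chk3 (onCell 0 2684354560 1610612736 12884901888 0 26843546 (L1 Ff)) y1f_t54 7 17 2 = true := by decide +kernel

def y1f_t55 : T :=
  (.c (.b (.c (.a (.a (.a (.b (.l 66) (.l 66)) (.l 66)) (.b (.l 66) (.l 66))) (.a (.l 66) (.l
      66))) (.a (.a (.a (.b (.l 66) (.l 66)) (.l 66)) (.b (.l 66) (.l 66))) (.a (.l 66) (.l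
      66)))) (.c (.a (.a (.a (.b (.l 66) (.l 66)) (.l 66)) (.l 66)) (.a (.l 66) (.l 66))) (.a (.a
      (.a (.l 66) (.l 66)) (.l 66)) (.a (.l 66) (.l 66))))) (.b (.a (.a (.a (.b (.a (.l 34) (.l
      66)) (.l 66)) (.b (.l 66) (.l 66))) (.b (.a (.l 66) (.l 66)) (.a (.l 66) (.l 66)))) (.a (.b
      (.l 66) (.l 66)) (.b (.l 66) (.l 66)))) (.a (.a (.a (.b (.l 34) (.l 34)) (.b (.l 66) (.l
      34))) (.a (.l 66) (.l 66))) (.a (.a (.l 66) (.l 66)) (.b (.l 66) (.l 66))))))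

def y1f_h55 : chk3 (onCell 0 2684354560 1610612736 12884901888 0 26843546 (L1 Ff)) y1f_t55 6 9 4 = true := by decide +kernel

def y1f_t56 : T :=
  (.a (.c (.a (.a (.b (.b (.l 34) (.l 34)) (.l 34)) (.b (.l 34) (.l 34))) (.b (.a (.l 66) (.l
      66)) (.a (.l 34) (.l 34)))) (.a (.a (.b (.l 34) (.l 34)) (.b (.l 34) (.l 34))) (.b (.a (.l
      34) (.l 34)) (.a (.l 34) (.l 34))))) (.c (.a (.b (.l 66) (.l 66)) (.b (.l 66) (.l 66))) (.a
      (.b (.l 66) (.a (.l 34) (.l 34))) (.b (.l 66) (.l 66)))))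

def y1f_h56 : chk3 (onCell 0 2684354560 1610612736 12884901888 0 26843546 (L1 Ff)) y1f_t56 6 18 5 = true := by decide +kernel

end Pool.Agent.Strip051.LC.E1.V2
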