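import Pool.Agent.Strip051.LC.E1.V2.Lf

/-! # Rests near the full period: certificates C3 below `2 h0` -/

set_option maxRecDepth 100000

namespace Pool.Agent.Strip051.LC.E1.V2

open Pool.Agent.Strip051.PB
open Pool.Agent.Strip051.LC.E0.Ch (onCell Tree)

def y1f_t57 : T :=
  (.a (.a (.a (.b (.a (.c (.l 34) (.l 34)) (.b (.l 34) (.l 34))) (.a (.c (.l 34) (.l 34)) (.c (.l
      34) (.l 34)))) (.b (.a (.l 34) (.l 34)) (.a (.b (.l 34) (.l 34)) (.b (.l 34) (.l 34)))))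
      (.a (.b (.a (.b (.l 34) (.l 34)) (.b (.l 34) (.l 34))) (.a (.b (.l 34) (.l 34)) (.b (.l 34)
      (.l 34)))) (.b (.a (.b (.l 66) (.l 34)) (.b (.l 66) (.l 66))) (.a (.b (.l 34) (.l 34)) (.b
      (.l 66) (.l 66)))))) (.c (.a (.a (.b (.l 34) (.l 34)) (.b (.l 66) (.l 34))) (.b (.l 66) (.l
      66))) (.a (.a (.b (.l 34) (.l 34)) (.b (.l 34) (.l 34))) (.b (.l 66) (.l 66)))))

def y1f_h57 : chk3 (onCell 0 2684354560 1610612736 12884901888 0 26843546 (L1 Ff)) y1f_t57 6 19 5 = true := by decide +kernel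

def y1f_t58 : T :=
  (.b (.c (.a (.a (.b (.a (.l 66) (.l 66)) (.a (.l 66) (.l 66))) (.b (.b (.l 66) (.l 66)) (.a (.l
      66) (.l 66)))) (.c (.b (.l 66) (.l 66)) (.b (.a (.l 66) (.l 66)) (.l 66)))) (.a (.b (.a (.a
      (.b (.l 66) (.l 66)) (.b (.l 66) (.l 66))) (.b (.a (.l 66) (.l 66)) (.l 66))) (.a (.a (.b
      (.l 66) (.l 66)) (.b (.l 66) (.l 66))) (.a (.b (.l 66) (.l 66)) (.b (.l 66) (.l 66))))) (.c
      (.b (.a (.l 66) (.l 66)) (.a (.l 66) (.l 66))) (.b (.a (.l 66) (.l 66)) (.a (.l 66) (.l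
      66)))))) (.c (.c (.a (.a (.l 66) (.l 66)) (.a (.l 66) (.l 66))) (.a (.a (.l 66) (.l 66))
      (.a (.l 66) (.l 66)))) (.a (.c (.a (.b (.l 66) (.l 66)) (.b (.l 66) (.l 66))) (.a (.b (.l
      66) (.l 66)) (.b (.l 66) (.l 66)))) (.c (.a (.b (.l 66) (.l 66)) (.b (.l 66) (.l 66))) (.a
      (.b (.l 66) (.l 66)) (.b (.l 66) (.l 66)))))))

def y1f_h58 : chk3 (onCell 0 2684354560 1610612736 12884901888 0 26843546 (L1 Ff)) y1f_t58 7 9 2 = true := by decide +kernel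

def y1f_t59 : T :=
  (.b (.l 79) (.c (.a (.b (.l 79) (.a (.l 79) (.a (.l 79) (.c (.l 79) (.l 79))))) (.b (.l 79) (.a
      (.a (.b (.l 79) (.l 66)) (.b (.l 79) (.l 66))) (.a (.b (.l 79) (.l 66)) (.b (.l 79) (.l
      66)))))) (.a (.b (.l 79) (.a (.a (.c (.l 79) (.c (.b (.l 79) (.a (.l 34) (.l 34))) (.b (.l
      79) (.a (.l 34) (.l 34))))) (.c (.a (.l 34) (.l 34)) (.c (.a (.l 34) (.l 34)) (.a (.l 34)
      (.l 34))))) (.a (.c (.b (.l 79) (.l 34)) (.b (.l 79) (.l 34))) (.c (.l 34) (.b (.l 79) (.l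
      34)))))) (.b (.l 79) (.a (.a (.c (.l 34) (.b (.l 79) (.l 66))) (.c (.l 34) (.l 66))) (.a
      (.b (.l 79) (.l 66)) (.b (.c (.l 79) (.l 34)) (.c (.l 66) (.l 34)))))))))

def y1f_h59 : chk3 (onCell 0 2684354560 1610612736 12884901888 0 26843546 (L1 Ff)) y1f_t59 6 16 3 = true := by decide +kernel

def y1f_t60 : T :=
  (.b (.a (.a (.c (.b (.a (.l 34) (.l 34)) (.l 34)) (.b (.a (.l 34) (.l 34)) (.a (.l 34) (.l
      34)))) (.b (.c (.l 34) (.l 34)) (.c (.l 34) (.l 34)))) (.a (.b (.c (.l 34) (.l 34)) (.c (.l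
      34) (.l 34))) (.b (.c (.l 34) (.l 34)) (.l 66)))) (.a (.a (.c (.b (.l 34) (.l 34)) (.b (.l
      34) (.l 34))) (.b (.c (.l 34) (.l 34)) (.c (.l 34) (.l 34)))) (.a (.b (.c (.l 34) (.l 34))
      (.l 34)) (.b (.l 66) (.l 34)))))

def y1f_h60 : chk3 (onCell 0 2684354560 1610612736 12884901888 0 26843546 (L1 Ff)) y1f_t60 12 17 6 = true := by decide +kernel

def y1f_t61 : T :=
  (.b (.a (.a (.b (.c (.c (.a (.l 34) (.l 34)) (.a (.l 34) (.l 34))) (.c (.a (.l 34) (.l 34)) (.b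
      (.l 34) (.l 34)))) (.c (.a (.l 34) (.l 34)) (.c (.l 34) (.l 34)))) (.b (.c (.a (.l 34) (.l
      34)) (.a (.l 34) (.l 34))) (.c (.l 34) (.a (.l 34) (.l 34))))) (.a (.b (.c (.l 34) (.l 34))
      (.c (.l 34) (.l 34))) (.b (.c (.l 34) (.l 34)) (.c (.l 34) (.l 34))))) (.a (.a (.c (.b (.l
      34) (.l 34)) (.b (.a (.l 34) (.l 34)) (.l 34))) (.b (.c (.l 34) (.l 34)) (.c (.l 34) (.l
      34)))) (.a (.b (.c (.l 34) (.l 34)) (.c (.l 34) (.l 34))) (.b (.c (.l 34) (.l 34)) (.c (.l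
      34) (.l 34))))))

def y1f_h61 : chk3 (onCell 0 2684354560 1610612736 12884901888 0 26843546 (L1 Ff)) y1f_t61 12 17 7 = true := by decide +kernel

def y1f_t62 : T :=
  (.c (.b (.b (.a (.a (.l 66) (.l 66)) (.a (.l 66) (.l 66))) (.a (.a (.l 66) (.l 66)) (.a (.l 66)
      (.l 66)))) (.a (.a (.b (.l 66) (.l 66)) (.b (.l 66) (.l 66))) (.a (.b (.l 66) (.l 66)) (.b
      (.l 66) (.l 66))))) (.b (.c (.a (.b (.a (.l 34) (.l 34)) (.a (.l 34) (.l 34))) (.b (.a (.l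
      34) (.l 66)) (.a (.l 66) (.l 66)))) (.a (.b (.a (.l 66) (.l 66)) (.a (.l 34) (.l 66))) (.b
      (.a (.l 66) (.l 34)) (.a (.l 34) (.l 34))))) (.c (.a (.a (.b (.l 34) (.l 34)) (.b (.l 34)
      (.l 34))) (.a (.b (.l 34) (.l 34)) (.l 66))) (.a (.a (.b (.l 34) (.l 34)) (.b (.l 34) (.l
      34))) (.a (.b (.l 34) (.l 34)) (.b (.l 34) (.l 34)))))))

def y1f_h62 : chk3 (onCell 0 2684354560 1610612736 12884901888 0 26843546 (L1 Ff)) y1f_t62 13 17 3 = true := by decide +kernel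

def y1f_t63 : T :=
  (.a (.b (.l 79) (.b (.l 79) (.a (.b (.l 79) (.l 66)) (.b (.l 79) (.a (.l 66) (.l 66)))))) (.b
      (.l 79) (.a (.c (.b (.l 79) (.l 66)) (.b (.l 79) (.b (.l 79) (.l 66)))) (.c (.b (.l 79) (.l
      66)) (.b (.l 79) (.b (.l 66) (.l 66)))))))

def y1f_h63 : chk3 (onCell 0 2684354560 1610612736 12884901888 0 26843546 (L1 Ff)) y1f_t63 7 16 6 = true := by decide +kernel

def y1f_t64 : T :=
  (.a (.b (.l 79) (.c (.b (.l 79) (.a (.b (.l 79) (.l 66)) (.b (.a (.l 79) (.l 34)) (.l 66))))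
      (.a (.b (.l 79) (.a (.b (.l 34) (.l 34)) (.b (.c (.l 34) (.l 34)) (.l 34)))) (.b (.l 79)
      (.a (.b (.c (.l 34) (.l 34)) (.l 34)) (.b (.l 34) (.l 34))))))) (.b (.l 79) (.c (.a (.b (.l
      79) (.b (.b (.l 79) (.l 34)) (.a (.l 34) (.l 34)))) (.c (.b (.l 79) (.l 34)) (.b (.l 79)
      (.l 34)))) (.a (.b (.l 79) (.c (.b (.l 34) (.l 34)) (.b (.c (.l 34) (.l 34)) (.l 34)))) (.c
      (.b (.l 79) (.b (.l 34) (.l 34))) (.b (.l 79) (.b (.b (.c (.l 34) (.l 34)) (.l 34)) (.l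
      34))))))))

def y1f_h64 : chk3 (onCell 0 2684354560 1610612736 12884901888 0 26843546 (L1 Ff)) y1f_t64 7 16 7 = true := by decide +kernel

def y1f_t65 : T :=
  (.b (.a (.c (.a (.b (.l 34) (.l 34)) (.b (.l 66) (.l 66))) (.a (.b (.l 66) (.l 66)) (.b (.l 66)
      (.l 66)))) (.c (.a (.b (.l 66) (.l 66)) (.b (.l 66) (.l 66))) (.b (.a (.l 66) (.l 66)) (.a
      (.l 66) (.l 66))))) (.a (.a (.b (.a (.l 66) (.l 66)) (.a (.l 66) (.l 66))) (.b (.a (.l 66)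
      (.l 66)) (.a (.l 66) (.l 66)))) (.c (.a (.l 66) (.l 66)) (.a (.b (.l 66) (.l 66)) (.b (.l
      66) (.l 66))))))

def y1f_h65 : chk3 (onCell 0 2684354560 1610612736 12884901888 0 26843546 (L1 Ff)) y1f_t65 7 17 6 = true := by decide +kernel

def y1f_t66 : T :=
  (.a (.b (.c (.a (.b (.b (.l 66) (.l 66)) (.l 66)) (.b (.b (.l 66) (.l 34)) (.l 34))) (.a (.b
      (.b (.a (.l 34) (.l 34)) (.l 34)) (.a (.l 34) (.l 34))) (.b (.b (.l 34) (.l 34)) (.l 34))))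
      (.c (.a (.b (.l 66) (.l 34)) (.b (.l 34) (.l 66))) (.a (.a (.b (.l 34) (.l 34)) (.b (.l 34)
      (.l 34))) (.b (.a (.l 34) (.l 34)) (.l 34))))) (.c (.b (.a (.b (.b (.l 34) (.l 34)) (.l
      34)) (.b (.b (.l 34) (.l 34)) (.l 34))) (.a (.b (.l 66) (.l 66)) (.b (.l 66) (.l 34)))) (.b
      (.a (.b (.c (.l 34) (.l 34)) (.b (.l 34) (.l 34))) (.b (.b (.c (.l 34) (.l 34)) (.c (.l 34)
      (.l 34))) (.b (.c (.l 34) (.l 34)) (.l 34)))) (.a (.b (.b (.l 34) (.l 34)) (.l 34)) (.b (.b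
      (.l 34) (.l 34)) (.l 34))))))

def y1f_h66 : chk3 (onCell 0 2684354560 1610612736 12884901888 0 26843546 (L1 Ff)) y1f_t66 7 17 7 = true := by decide +kernel

def y1f_t67 : T :=
  (.b (.a (.a (.c (.b (.l 34) (.l 34)) (.b (.l 34) (.l 34))) (.a (.b (.l 34) (.l 34)) (.b (.l 34)
      (.l 34)))) (.a (.b (.l 34) (.a (.l 34) (.l 34))) (.b (.l 34) (.c (.l 34) (.l 34))))) (.a
      (.a (.a (.c (.l 34) (.l 34)) (.c (.l 34) (.l 34))) (.a (.b (.l 34) (.l 34)) (.b (.l 34) (.l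
      34)))) (.a (.a (.b (.l 34) (.l 34)) (.c (.l 34) (.l 34))) (.a (.c (.l 34) (.l 34)) (.c (.l
      34) (.l 34))))))

def y1f_h67 : chk3 (onCell 0 2684354560 1610612736 12884901888 0 26843546 (L1 Ff)) y1f_t67 12 18 6 = true := by decide +kernel

def y1f_t68 : T :=
  (.a (.a (.b (.c (.b (.l 34) (.l 34)) (.a (.b (.l 34) (.l 34)) (.b (.l 34) (.l 34)))) (.a (.c
      (.b (.l 34) (.l 34)) (.b (.l 34) (.l 34))) (.c (.l 34) (.l 34)))) (.b (.a (.b (.c (.l 34)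
      (.l 34)) (.c (.l 34) (.l 34))) (.b (.c (.l 34) (.l 34)) (.c (.l 34) (.l 34)))) (.a (.b (.c
      (.l 34) (.l 34)) (.l 34)) (.c (.l 34) (.l 34))))) (.a (.b (.a (.b (.c (.l 34) (.l 34)) (.l
      34)) (.b (.l 34) (.l 34))) (.a (.c (.l 34) (.l 34)) (.c (.l 34) (.l 34)))) (.b (.a (.c (.l
      34) (.l 34)) (.c (.l 34) (.l 34))) (.a (.c (.l 34) (.l 34)) (.c (.l 34) (.l 34))))))

def y1f_h68 : chk3 (onCell 0 2684354560 1610612736 12884901888 0 26843546 (L1 Ff)) y1f_t68 12 18 7 = true := by decide +kernel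

def y1f_t69 : T :=
  (.a (.a (.b (.a (.c (.l 34) (.l 34)) (.b (.l 34) (.c (.l 34) (.l 34)))) (.a (.c (.l 34) (.l
      34)) (.c (.l 34) (.l 34)))) (.b (.a (.b (.l 34) (.l 34)) (.b (.l 34) (.l 34))) (.a (.c (.l
      34) (.l 34)) (.c (.l 34) (.l 34))))) (.a (.b (.a (.c (.l 34) (.l 34)) (.c (.l 34) (.l 34)))
      (.a (.c (.l 34) (.l 34)) (.c (.l 34) (.l 34)))) (.b (.a (.c (.l 34) (.l 34)) (.c (.l 34)
      (.l 34))) (.a (.b (.l 34) (.l 34)) (.b (.l 34) (.l 34))))))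

def y1f_h69 : chk3 (onCell 0 2684354560 1610612736 12884901888 0 26843546 (L1 Ff)) y1f_t69 12 19 6 = true := by decide +kernel

def y1f_t70 : T :=
  (.a (.a (.b (.a (.c (.l 34) (.l 34)) (.c (.l 34) (.l 34))) (.a (.c (.l 34) (.b (.l 34) (.l
      47))) (.c (.l 34) (.b (.l 34) (.l 47))))) (.b (.a (.c (.l 34) (.l 34)) (.c (.l 34) (.l
      34))) (.a (.a (.c (.l 34) (.l 34)) (.c (.l 34) (.l 34))) (.b (.c (.l 34) (.l 34)) (.c (.l
      34) (.l 47)))))) (.a (.b (.a (.b (.l 34) (.l 34)) (.b (.l 34) (.l 34))) (.a (.b (.l 34) (.l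
      34)) (.b (.l 34) (.l 34)))) (.b (.a (.b (.l 34) (.l 34)) (.b (.l 34) (.l 34))) (.a (.b (.l
      34) (.l 47)) (.b (.l 34) (.l 47))))))

def y1f_h70 : chk3 (onCell 0 2684354560 1610612736 12884901888 0 26843546 (L1 Ff)) y1f_t70 12 19 7 = true := by decide +kernel

def y1f_t71 : T :=
  (.c (.b (.a (.a (.b (.l 66) (.l 34)) (.b (.l 66) (.l 66))) (.a (.b (.l 66) (.l 66)) (.b (.l 66)
      (.l 66)))) (.a (.a (.a (.c (.l 34) (.l 34)) (.b (.l 34) (.l 34))) (.a (.b (.l 34) (.l 34))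
      (.l 66))) (.a (.b (.l 34) (.l 34)) (.b (.l 34) (.l 66))))) (.a (.b (.a (.b (.c (.l 34) (.l
      34)) (.l 34)) (.b (.l 34) (.l 34))) (.a (.a (.b (.l 34) (.l 34)) (.b (.l 34) (.l 34))) (.b
      (.a (.l 34) (.l 34)) (.a (.l 34) (.l 34))))) (.b (.a (.b (.l 34) (.l 34)) (.b (.l 66) (.a
      (.l 34) (.l 34)))) (.a (.b (.a (.l 34) (.l 34)) (.a (.l 34) (.l 34))) (.b (.a (.l 34) (.l
      34)) (.l 34))))))

def y1f_h71 : chk3 (onCell 0 2684354560 1610612736 12884901888 0 26843546 (L1 Ff)) y1f_t71 13 18 3 = true := by decide +kernel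

def y1f_t72 : T :=
  (.c (.a (.a (.b (.a (.l 34) (.l 34)) (.a (.b (.l 34) (.l 34)) (.b (.l 34) (.l 34)))) (.b (.a
      (.b (.l 34) (.l 34)) (.b (.l 34) (.l 34))) (.a (.b (.l 34) (.l 34)) (.b (.l 34) (.l 34)))))
      (.b (.a (.a (.b (.l 34) (.l 34)) (.b (.l 34) (.l 34))) (.b (.l 66) (.l 66))) (.a (.a (.b
      (.l 34) (.l 34)) (.b (.l 34) (.l 34))) (.a (.b (.l 34) (.l 34)) (.l 66))))) (.a (.a (.b (.a
      (.b (.l 34) (.l 34)) (.b (.l 34) (.l 34))) (.a (.b (.l 34) (.l 47)) (.b (.l 34) (.l 47))))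
      (.b (.a (.b (.l 34) (.l 34)) (.b (.l 34) (.l 34))) (.a (.b (.l 34) (.l 47)) (.b (.l 34) (.l
      47))))) (.b (.a (.a (.b (.l 34) (.l 34)) (.b (.l 34) (.l 34))) (.b (.l 34) (.l 34))) (.a
      (.a (.b (.l 47) (.l 47)) (.l 47)) (.l 47)))))

def y1f_h72 : chk3 (onCell 0 2684354560 1610612736 12884901888 0 26843546 (L1 Ff)) y1f_t72 13 19 3 = true := by decide +kernel

def y1f_t73 : T :=
  (.c (.a (.b (.c (.a (.l 66) (.l 66)) (.a (.a (.l 34) (.l 66)) (.b (.l 66) (.l 66)))) (.a (.a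
      (.b (.l 66) (.l 66)) (.b (.l 66) (.l 66))) (.a (.b (.l 66) (.l 66)) (.b (.l 66) (.l 66)))))
      (.c (.b (.a (.l 66) (.l 66)) (.a (.l 66) (.l 66))) (.a (.b (.b (.l 66) (.l 66)) (.l 66))
      (.b (.l 66) (.l 66))))) (.a (.c (.a (.b (.a (.l 66) (.l 66)) (.a (.l 34) (.l 34))) (.b (.a
      (.l 66) (.l 66)) (.a (.l 34) (.l 34)))) (.a (.b (.a (.b (.l 34) (.l 34)) (.b (.l 34) (.l
      34))) (.a (.l 34) (.l 34))) (.c (.b (.l 34) (.l 34)) (.b (.b (.l 34) (.l 34)) (.l 34)))))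
      (.c (.a (.b (.b (.l 34) (.l 34)) (.l 34)) (.c (.b (.l 34) (.l 34)) (.b (.l 34) (.l 34))))
      (.a (.c (.b (.l 34) (.l 34)) (.b (.l 34) (.l 34))) (.b (.b (.l 34) (.l 34)) (.b (.l 34) (.l
      47)))))))

def y1f_h73 : chk3 (onCell 0 2684354560 1610612736 12884901888 0 26843546 (L1 Ff)) y1f_t73 7 18 3 = true := by decide +kernel

def y1f_t74 : T :=
  (.c (.a (.a (.b (.a (.b (.l 66) (.l 66)) (.b (.l 66) (.l 66))) (.a (.b (.l 34) (.l 34)) (.b (.l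
      34) (.l 34)))) (.b (.a (.b (.l 66) (.l 66)) (.b (.l 66) (.l 34))) (.a (.b (.l 34) (.l 34))
      (.b (.l 34) (.l 34))))) (.b (.a (.a (.b (.l 66) (.l 34)) (.b (.l 66) (.l 34))) (.a (.b (.l
      66) (.l 34)) (.b (.l 66) (.l 34)))) (.a (.a (.b (.l 34) (.l 34)) (.b (.l 34) (.l 34))) (.a
      (.b (.l 34) (.l 47)) (.b (.l 34) (.l 47)))))) (.b (.b (.a (.a (.a (.l 34) (.l 34)) (.a (.l
      34) (.l 34))) (.a (.a (.l 34) (.l 47)) (.l 47))) (.a (.a (.a (.l 34) (.l 47)) (.l 47)) (.l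
      47))) (.a (.a (.l 47) (.l 47)) (.l 47))))

def y1f_h74 : chk3 (onCell 0 2684354560 1610612736 12884901888 0 26843546 (L1 Ff)) y1f_t74 7 19 3 = true := by decide +kernel

def y1f_t75 : T :=
  (.a (.b (.c (.a (.l 36) (.l 36)) (.a (.l 36) (.l 36))) (.c (.a (.l 36) (.a (.l 36) (.l 36)))
      (.a (.l 36) (.l 68)))) (.c (.b (.a (.c (.l 68) (.l 68)) (.a (.c (.l 36) (.b (.l 36) (.l
      36))) (.l 36))) (.a (.l 36) (.a (.c (.l 36) (.b (.l 36) (.l 36))) (.c (.l 36) (.l 36)))))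
      (.b (.a (.b (.l 36) (.l 36)) (.a (.b (.c (.c (.l 36) (.l 36)) (.c (.a (.l 32) (.l 32)) (.l
      64))) (.c (.c (.l 36) (.a (.l 32) (.l 32))) (.c (.l 64) (.l 64)))) (.b (.c (.l 36) (.l 36))
      (.c (.l 36) (.c (.l 36) (.l 36)))))) (.a (.l 36) (.c (.a (.b (.c (.l 36) (.l 64)) (.c (.l
      36) (.l 64))) (.b (.l 36) (.l 36))) (.b (.a (.b (.l 64) (.l 64)) (.c (.l 36) (.l 32))) (.a
      (.c (.l 64) (.l 64)) (.c (.l 32) (.l 32)))))))))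

def y1f_h75 : chk3 (onCell 0 2684354560 1610612736 12884901888 0 26843546 (L1 Ff)) y1f_t75 4 10 2 = true := by decide +kernel

def y1f_t76 : T :=
  (.a (.c (.a (.l 36) (.l 36)) (.a (.l 36) (.l 36))) (.c (.a (.l 36) (.a (.c (.b (.a (.c (.l 66)
      (.l 32)) (.l 66)) (.a (.c (.l 66) (.l 32)) (.l 66))) (.b (.a (.l 32) (.l 32)) (.a (.l 32)
      (.l 32)))) (.b (.a (.c (.l 66) (.l 32)) (.l 66)) (.a (.l 66) (.l 66))))) (.a (.l 36) (.a
      (.b (.a (.l 34) (.l 34)) (.a (.l 34) (.l 32))) (.b (.l 34) (.l 34))))))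

def y1f_h76 : chk3 (onCell 0 2684354560 1610612736 12884901888 0 26843546 (L1 Ff)) y1f_t76 5 20 4 = true := by decide +kernel

def y1f_t77 : T :=
  (.a (.b (.c (.a (.l 36) (.a (.l 36) (.l 36))) (.a (.a (.l 36) (.l 36)) (.a (.l 36) (.l 36))))
      (.a (.a (.c (.l 36) (.l 36)) (.l 36)) (.c (.a (.l 36) (.l 36)) (.c (.a (.l 32) (.l 32)) (.a
      (.l 32) (.l 32)))))) (.b (.a (.c (.l 36) (.a (.l 36) (.b (.l 32) (.l 32)))) (.a (.c (.a (.l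
      32) (.l 32)) (.a (.l 32) (.l 32))) (.a (.c (.l 32) (.l 32)) (.c (.l 32) (.l 32))))) (.a (.c
      (.a (.l 36) (.c (.l 32) (.l 32))) (.a (.a (.l 32) (.l 32)) (.a (.l 32) (.l 32)))) (.a (.a
      (.c (.l 32) (.l 32)) (.c (.l 32) (.l 32))) (.a (.c (.l 32) (.l 32)) (.c (.l 32) (.l
      32)))))))

def y1f_h77 : chk3 (onCell 0 2684354560 1610612736 12884901888 0 26843546 (L1 Ff)) y1f_t77 5 20 5 = true := by decide +kernel

def y1f_t78 : T :=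
  (.a (.a (.a (.l 36) (.c (.l 36) (.l 36))) (.c (.l 36) (.a (.l 36) (.l 36)))) (.c (.a (.l 36)
      (.a (.c (.a (.b (.c (.l 66) (.l 32)) (.c (.l 66) (.l 32))) (.b (.l 66) (.l 66))) (.a (.l
      34) (.l 34))) (.a (.c (.l 66) (.l 34)) (.b (.l 66) (.l 66))))) (.b (.a (.l 36) (.a (.a (.l
      32) (.l 32)) (.l 34))) (.a (.l 36) (.a (.a (.l 32) (.l 32)) (.l 34))))))

def y1f_h78 : chk3 (onCell 0 2684354560 1610612736 12884901888 0 26843546 (L1 Ff)) y1f_t78 5 21 4 = true := by decide +kernel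

def y1f_t79 : T :=
  (.a (.b (.a (.c (.l 36) (.a (.l 36) (.c (.l 36) (.a (.l 32) (.l 32))))) (.c (.a (.l 36) (.l
      36)) (.a (.c (.l 32) (.l 32)) (.c (.l 32) (.l 32))))) (.a (.c (.a (.l 36) (.l 36)) (.a (.c
      (.l 36) (.l 32)) (.c (.l 36) (.l 32)))) (.c (.a (.l 36) (.l 36)) (.a (.c (.l 32) (.l 32))
      (.b (.l 32) (.l 32)))))) (.b (.a (.c (.a (.l 36) (.c (.l 32) (.l 32))) (.a (.a (.l 32) (.l
      32)) (.c (.l 32) (.l 32)))) (.a (.a (.c (.l 32) (.l 32)) (.c (.l 32) (.l 32))) (.a (.c (.l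
      32) (.l 32)) (.c (.l 32) (.l 32))))) (.a (.c (.a (.c (.l 32) (.l 32)) (.a (.l 32) (.l 32)))
      (.a (.c (.l 32) (.l 32)) (.c (.l 32) (.l 32)))) (.a (.a (.c (.l 32) (.l 34)) (.c (.l 32)
      (.l 34))) (.a (.c (.l 32) (.l 34)) (.c (.l 34) (.l 34)))))))

def y1f_h79 : chk3 (onCell 0 2684354560 1610612736 12884901888 0 26843546 (L1 Ff)) y1f_t79 5 21 5 = true := by decide +kernel

def y1f_t80 : T :=
  (.a (.c (.a (.l 36) (.c (.a (.l 36) (.l 36)) (.b (.a (.l 36) (.l 36)) (.l 36)))) (.a (.l 36)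
      (.b (.a (.l 36) (.l 36)) (.c (.a (.l 36) (.l 36)) (.a (.l 36) (.l 36)))))) (.c (.a (.l 36)
      (.a (.c (.l 36) (.b (.c (.l 36) (.l 36)) (.c (.l 36) (.l 36)))) (.c (.l 36) (.l 36)))) (.a
      (.l 36) (.c (.a (.b (.c (.l 64) (.l 64)) (.c (.l 64) (.l 64))) (.b (.c (.l 36) (.l 32)) (.c
      (.l 36) (.l 32)))) (.b (.a (.c (.l 64) (.l 32)) (.l 36)) (.a (.l 36) (.l 36)))))))

def y1f_h80 : chk3 (onCell 0 2684354560 1610612736 12884901888 0 26843546 (L1 Ff)) y1f_t80 4 22 2 = true := by decide +kernel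

end Pool.Agent.Strip051.LC.E1.V2
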