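import Pool.Agent.Strip051.LC.E1.V2.Lf

/-! # Rests near the full period: certificates C4 below `2 h0` -/

set_option maxRecDepth 100000

namespace Pool.Agent.Strip051.LC.E1.V2

open Pool.Agent.Strip051.PB
open Pool.Agent.Strip051.LC.E0.Ch (onCell Tree)

def y1f_t81 : T :=
  (.c (.a (.a (.l 36) (.a (.l 36) (.l 36))) (.a (.l 36) (.c (.a (.b (.l 36) (.l 36)) (.l 36)) (.a
      (.b (.c (.l 36) (.a (.l 32) (.l 32))) (.c (.l 36) (.a (.l 32) (.l 32)))) (.b (.l 36) (.c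
      (.l 36) (.l 36))))))) (.a (.a (.l 36) (.c (.b (.a (.l 36) (.l 36)) (.a (.l 36) (.l 36)))
      (.b (.a (.l 36) (.l 36)) (.a (.l 36) (.l 36))))) (.a (.l 36) (.c (.b (.a (.c (.l 64) (.l
      32)) (.c (.l 32) (.l 32))) (.a (.c (.l 64) (.l 32)) (.c (.l 32) (.l 32)))) (.b (.c (.a (.l
      32) (.l 32)) (.b (.a (.l 32) (.l 32)) (.a (.l 32) (.l 47)))) (.c (.a (.l 32) (.l 47)) (.l
      47)))))))

def y1f_h81 : chk3 (onCell 0 2684354560 1610612736 12884901888 0 26843546 (L1 Ff)) y1f_t81 4 23 2 = true := by decide +kernel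

def y1f_t82 : T :=
  (.a (.a (.c (.l 36) (.a (.l 36) (.l 36))) (.c (.l 36) (.a (.c (.l 36) (.l 36)) (.l 36)))) (.c
      (.c (.l 36) (.a (.l 36) (.a (.a (.l 34) (.l 34)) (.l 34)))) (.b (.c (.a (.l 36) (.a (.l 32)
      (.l 32))) (.a (.l 36) (.a (.l 32) (.l 32)))) (.a (.a (.l 36) (.c (.l 32) (.l 32))) (.a (.a
      (.l 32) (.l 34)) (.a (.l 34) (.l 34)))))))

def y1f_h82 : chk3 (onCell 0 2684354560 1610612736 12884901888 0 26843546 (L1 Ff)) y1f_t82 5 22 4 = true := by decide +kernel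

def y1f_t83 : T :=
  (.a (.b (.c (.a (.a (.l 36) (.l 36)) (.a (.l 36) (.c (.l 32) (.l 32)))) (.a (.a (.b (.l 36) (.l
      36)) (.c (.l 32) (.l 32))) (.a (.c (.l 32) (.l 32)) (.c (.l 32) (.l 32))))) (.c (.a (.a (.l
      36) (.l 36)) (.a (.c (.l 32) (.l 32)) (.a (.l 32) (.l 32)))) (.a (.a (.l 36) (.c (.l 32)
      (.l 32))) (.a (.b (.l 32) (.l 47)) (.l 47))))) (.b (.a (.c (.a (.a (.l 32) (.l 32)) (.a (.l
      32) (.l 32))) (.c (.a (.l 32) (.l 32)) (.l 47))) (.a (.c (.a (.l 34) (.l 34)) (.l 47)) (.a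
      (.c (.l 34) (.l 47)) (.c (.l 34) (.l 47))))) (.a (.c (.a (.c (.l 32) (.l 32)) (.c (.l 32)
      (.l 47))) (.l 47)) (.a (.c (.a (.c (.l 32) (.l 47)) (.l 34)) (.l 47)) (.a (.c (.l 34) (.l
      47)) (.c (.l 34) (.l 47)))))))

def y1f_h83 : chk3 (onCell 0 2684354560 1610612736 12884901888 0 26843546 (L1 Ff)) y1f_t83 5 22 5 = true := by decide +kernel

def y1f_t84 : T :=
  (.a (.c (.a (.a (.l 36) (.l 36)) (.l 36)) (.a (.a (.l 36) (.l 36)) (.b (.a (.c (.l 36) (.l 32))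
      (.l 36)) (.c (.l 36) (.a (.l 32) (.l 32)))))) (.c (.c (.a (.l 36) (.a (.a (.b (.c (.l 66)
      (.l 32)) (.l 66)) (.l 66)) (.a (.l 66) (.l 66)))) (.a (.l 36) (.a (.a (.l 34) (.l 34)) (.l
      34)))) (.a (.b (.a (.c (.l 32) (.l 32)) (.c (.l 32) (.l 32))) (.a (.c (.l 32) (.l 32)) (.a
      (.c (.l 32) (.l 32)) (.c (.l 32) (.l 47))))) (.a (.a (.b (.l 34) (.a (.l 32) (.l 34))) (.b
      (.l 34) (.l 34))) (.a (.a (.b (.l 32) (.l 34)) (.b (.l 32) (.l 34))) (.a (.l 34) (.l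
      34)))))))

def y1f_h84 : chk3 (onCell 0 2684354560 1610612736 12884901888 0 26843546 (L1 Ff)) y1f_t84 5 23 4 = true := by decide +kernel

def y1f_t85 : T :=
  (.a (.b (.c (.a (.c (.a (.l 36) (.l 36)) (.a (.l 32) (.l 32))) (.a (.c (.l 32) (.l 32)) (.c (.l
      32) (.l 47)))) (.a (.a (.c (.l 32) (.l 47)) (.l 47)) (.l 47))) (.c (.a (.a (.c (.l 36) (.l
      32)) (.c (.l 32) (.l 47))) (.a (.b (.c (.l 47) (.l 47)) (.l 47)) (.l 47))) (.l 47))) (.b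
      (.c (.a (.a (.c (.l 32) (.l 47)) (.c (.l 47) (.l 47))) (.l 47)) (.l 47)) (.c (.l 47) (.l
      47))))

def y1f_h85 : chk3 (onCell 0 2684354560 1610612736 12884901888 0 26843546 (L1 Ff)) y1f_t85 5 23 5 = true := by decide +kernel

def y1f_t86 : T :=
  (.c (.a (.a (.l 36) (.l 36)) (.a (.b (.c (.l 36) (.l 36)) (.l 36)) (.c (.b (.a (.c (.l 64) (.l
      64)) (.c (.a (.l 32) (.l 32)) (.l 36))) (.a (.b (.l 64) (.l 64)) (.c (.l 32) (.l 32)))) (.b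
      (.a (.b (.l 64) (.l 64)) (.a (.l 32) (.l 32))) (.a (.l 36) (.a (.l 32) (.l 32))))))) (.a
      (.a (.l 36) (.c (.l 36) (.l 36))) (.a (.a (.l 36) (.l 68)) (.b (.c (.a (.a (.l 32) (.l 32))
      (.a (.l 32) (.l 32))) (.a (.a (.l 32) (.l 32)) (.a (.l 32) (.l 32)))) (.c (.a (.l 68) (.a
      (.l 32) (.l 32))) (.a (.a (.l 32) (.l 32)) (.a (.l 32) (.l 32))))))))

def y1f_h86 : chk3 (onCell 0 2684354560 1610612736 12884901888 0 26843546 (L1 Ff)) y1f_t86 4 20 3 = true := by decide +kernel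

def y1f_t87 : T :=
  (.c (.a (.a (.l 36) (.c (.l 68) (.l 68))) (.a (.l 36) (.c (.b (.a (.l 36) (.a (.l 32) (.l 32)))
      (.a (.l 36) (.l 36))) (.b (.a (.l 68) (.a (.l 32) (.l 32))) (.b (.c (.a (.l 32) (.l 32))
      (.a (.l 32) (.l 32))) (.c (.a (.l 32) (.l 32)) (.a (.l 32) (.l 32)))))))) (.a (.b (.a (.l
      36) (.c (.l 68) (.l 68))) (.a (.l 36) (.l 36))) (.b (.c (.a (.l 68) (.b (.a (.l 32) (.l
      32)) (.c (.a (.l 32) (.l 32)) (.a (.l 32) (.l 32))))) (.a (.l 68) (.b (.c (.a (.l 32) (.l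
      32)) (.a (.l 32) (.l 32))) (.c (.a (.l 32) (.l 32)) (.a (.l 32) (.l 32)))))) (.c (.a (.l
      36) (.b (.c (.a (.l 32) (.l 32)) (.a (.l 32) (.l 32))) (.c (.a (.l 32) (.l 32)) (.a (.l 32)
      (.l 47))))) (.a (.l 36) (.a (.l 32) (.c (.l 32) (.l 47))))))))

def y1f_h87 : chk3 (onCell 0 2684354560 1610612736 12884901888 0 26843546 (L1 Ff)) y1f_t87 4 21 3 = true := by decide +kernel

def y1f_t88 : T :=
  (.b (.a (.c (.a (.c (.l 36) (.l 36)) (.c (.l 36) (.a (.l 32) (.l 32)))) (.c (.a (.b (.l 32) (.l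
      32)) (.b (.l 32) (.l 32))) (.a (.b (.l 32) (.l 32)) (.b (.l 32) (.l 32))))) (.c (.a (.b (.l
      36) (.c (.l 32) (.l 32))) (.b (.l 32) (.l 32))) (.a (.c (.b (.l 32) (.l 32)) (.b (.l 32)
      (.l 32))) (.c (.b (.l 32) (.l 32)) (.b (.l 32) (.l 32)))))) (.c (.a (.a (.b (.c (.l 32) (.l
      32)) (.c (.l 32) (.l 32))) (.b (.c (.l 32) (.l 32)) (.c (.l 32) (.l 32)))) (.a (.c (.l 32)
      (.b (.l 32) (.l 32))) (.b (.l 32) (.l 32)))) (.a (.a (.c (.l 36) (.l 32)) (.b (.c (.l 32)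
      (.l 32)) (.l 32))) (.a (.b (.l 32) (.l 32)) (.c (.b (.l 32) (.l 32)) (.b (.l 32) (.l
      32)))))))

def y1f_h88 : chk3 (onCell 0 2684354560 1610612736 12884901888 0 26843546 (L1 Ff)) y1f_t88 10 20 6 = true := by decide +kernel

def y1f_t89 : T :=
  (.b (.a (.c (.a (.c (.l 32) (.l 32)) (.c (.l 32) (.l 32))) (.a (.a (.c (.l 32) (.l 32)) (.c (.l
      32) (.l 32))) (.b (.c (.l 32) (.l 32)) (.c (.l 32) (.l 32))))) (.a (.c (.a (.l 32) (.l 32))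
      (.a (.c (.l 32) (.l 32)) (.l 34))) (.a (.c (.l 34) (.l 34)) (.c (.l 32) (.l 34))))) (.a (.c
      (.a (.a (.l 32) (.c (.l 32) (.l 32))) (.c (.l 32) (.b (.l 32) (.l 32)))) (.a (.b (.c (.l
      32) (.l 32)) (.c (.l 32) (.l 32))) (.b (.c (.l 32) (.l 32)) (.c (.l 32) (.l 47))))) (.a (.c
      (.a (.l 34) (.l 34)) (.a (.c (.l 32) (.l 32)) (.l 34))) (.a (.c (.l 34) (.l 34)) (.c (.l
      34) (.l 34))))))

def y1f_h89 : chk3 (onCell 0 2684354560 1610612736 12884901888 0 26843546 (L1 Ff)) y1f_t89 11 20 6 = true := by decide +kernel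

def y1f_t90 : T :=
  (.b (.c (.a (.a (.c (.b (.l 32) (.l 32)) (.b (.l 32) (.l 32))) (.b (.c (.l 32) (.l 32)) (.l
      32))) (.a (.b (.c (.l 32) (.l 32)) (.l 32)) (.c (.b (.l 32) (.l 32)) (.b (.l 32) (.l
      32))))) (.a (.a (.c (.b (.l 32) (.l 32)) (.b (.l 32) (.l 32))) (.b (.c (.l 32) (.l 32)) (.c
      (.l 32) (.l 32)))) (.a (.b (.c (.l 32) (.l 32)) (.c (.l 32) (.l 32))) (.b (.c (.l 32) (.c
      (.l 32) (.l 32))) (.c (.l 32) (.l 32)))))) (.c (.a (.a (.c (.l 32) (.l 32)) (.b (.l 32) (.l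
      32))) (.a (.c (.b (.l 32) (.l 32)) (.b (.l 32) (.l 32))) (.b (.c (.l 32) (.l 32)) (.c (.l
      32) (.l 47))))) (.a (.a (.b (.l 32) (.l 32)) (.c (.b (.l 32) (.l 32)) (.b (.l 32) (.l
      32)))) (.b (.a (.c (.l 32) (.l 32)) (.c (.l 47) (.l 47))) (.c (.l 47) (.l 47))))))

def y1f_h90 : chk3 (onCell 0 2684354560 1610612736 12884901888 0 26843546 (L1 Ff)) y1f_t90 10 20 7 = true := by decide +kernel

def y1f_t91 : T :=
  (.b (.c (.a (.a (.b (.c (.l 32) (.l 32)) (.c (.l 32) (.l 32))) (.b (.c (.l 32) (.l 32)) (.c (.l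
      32) (.l 32)))) (.a (.a (.c (.l 32) (.l 32)) (.c (.l 32) (.l 32))) (.a (.l 34) (.l 34))))
      (.a (.a (.b (.c (.l 32) (.l 32)) (.c (.l 32) (.l 47))) (.b (.c (.l 32) (.l 32)) (.l 47)))
      (.a (.a (.c (.l 32) (.l 47)) (.l 47)) (.l 47)))) (.c (.a (.b (.a (.c (.l 32) (.l 47)) (.l
      47)) (.l 47)) (.l 47)) (.a (.l 47) (.l 47))))

def y1f_h91 : chk3 (onCell 0 2684354560 1610612736 12884901888 0 26843546 (L1 Ff)) y1f_t91 11 20 7 = true := by decide +kernel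

def y1f_t92 : T :=
  (.a (.b (.c (.a (.a (.c (.l 32) (.l 32)) (.b (.c (.l 32) (.l 32)) (.l 32))) (.a (.c (.l 32) (.l
      32)) (.b (.c (.l 32) (.l 32)) (.c (.l 32) (.l 32))))) (.a (.a (.c (.l 32) (.l 32)) (.b (.l
      32) (.l 32))) (.a (.c (.l 32) (.b (.l 32) (.l 47))) (.b (.c (.l 32) (.l 32)) (.c (.l 47)
      (.l 47)))))) (.c (.a (.a (.c (.l 32) (.l 32)) (.c (.l 32) (.l 32))) (.a (.c (.l 32) (.l
      32)) (.b (.c (.l 32) (.l 47)) (.c (.l 47) (.l 47))))) (.a (.a (.b (.l 32) (.l 32)) (.b (.l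
      32) (.l 47))) (.b (.a (.l 47) (.l 47)) (.l 47))))) (.b (.c (.a (.a (.b (.c (.l 32) (.l 32))
      (.c (.l 32) (.l 32))) (.c (.l 32) (.l 32))) (.a (.a (.l 34) (.l 34)) (.a (.l 34) (.l 34))))
      (.a (.b (.a (.c (.l 32) (.l 47)) (.l 47)) (.l 47)) (.l 47))) (.c (.a (.c (.a (.l 32) (.l
      47)) (.l 47)) (.l 47)) (.l 47))))

def y1f_h92 : chk3 (onCell 0 2684354560 1610612736 12884901888 0 26843546 (L1 Ff)) y1f_t92 5 21 6 = true := by decide +kernel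

def y1f_t93 : T :=
  (.a (.b (.c (.a (.a (.b (.l 32) (.l 32)) (.c (.l 32) (.b (.l 32) (.l 47)))) (.b (.a (.c (.l 32)
      (.l 47)) (.l 47)) (.l 47))) (.a (.a (.c (.l 32) (.l 32)) (.l 47)) (.l 47))) (.c (.a (.a (.c
      (.l 32) (.l 47)) (.l 47)) (.l 47)) (.l 47))) (.b (.c (.l 47) (.l 47)) (.l 47)))

def y1f_h93 : chk3 (onCell 0 2684354560 1610612736 12884901888 0 26843546 (L1 Ff)) y1f_t93 5 21 7 = true := by decide +kernel

def y1f_t94 : T :=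
  (.a (.a (.l 36) (.b (.c (.a (.l 36) (.l 36)) (.a (.l 36) (.l 36))) (.c (.a (.l 36) (.l 36)) (.a
      (.l 36) (.l 36))))) (.b (.a (.l 36) (.c (.c (.a (.l 32) (.l 32)) (.b (.a (.l 32) (.l 32))
      (.a (.l 32) (.l 32)))) (.b (.c (.a (.l 32) (.l 32)) (.a (.l 32) (.l 32))) (.c (.a (.l 32)
      (.l 47)) (.a (.l 32) (.l 47)))))) (.c (.a (.l 36) (.c (.b (.a (.l 32) (.l 32)) (.a (.l 32)
      (.l 47))) (.b (.a (.l 32) (.l 47)) (.a (.l 32) (.l 47))))) (.a (.l 36) (.a (.l 32) (.l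
      47))))))

def y1f_h94 : chk3 (onCell 0 2684354560 1610612736 12884901888 0 26843546 (L1 Ff)) y1f_t94 4 22 6 = true := by decide +kernel

def y1f_t95 : T :=
  (.a (.b (.a (.l 36) (.c (.a (.l 36) (.l 36)) (.a (.l 36) (.l 36)))) (.a (.l 36) (.c (.a (.l 36)
      (.l 36)) (.b (.a (.l 36) (.l 36)) (.c (.a (.l 36) (.l 36)) (.a (.l 36) (.l 36))))))) (.b
      (.c (.a (.l 36) (.a (.l 32) (.l 47))) (.a (.a (.l 36) (.l 36)) (.l 47))) (.c (.a (.l 36)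
      (.l 47)) (.a (.a (.l 36) (.l 47)) (.l 47)))))

def y1f_h95 : chk3 (onCell 0 2684354560 1610612736 12884901888 0 26843546 (L1 Ff)) y1f_t95 4 22 7 = true := by decide +kernel

def y1f_t96 : T :=
  (.c (.a (.a (.l 36) (.b (.c (.a (.l 36) (.l 36)) (.a (.l 36) (.l 36))) (.c (.a (.l 36) (.l 36))
      (.a (.l 36) (.l 36))))) (.b (.c (.a (.l 36) (.a (.l 32) (.l 47))) (.a (.l 36) (.l 47))) (.c
      (.a (.l 36) (.l 47)) (.a (.l 36) (.l 47))))) (.a (.b (.c (.a (.l 36) (.b (.a (.l 36) (.l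
      36)) (.c (.a (.l 36) (.l 36)) (.a (.l 36) (.l 36))))) (.a (.l 36) (.b (.c (.a (.l 36) (.l
      36)) (.a (.l 36) (.l 36))) (.c (.a (.l 36) (.l 36)) (.a (.l 36) (.l 47)))))) (.c (.a (.l
      36) (.b (.a (.l 36) (.l 36)) (.a (.l 36) (.l 47)))) (.a (.l 36) (.b (.c (.a (.l 36) (.l
      47)) (.a (.l 36) (.l 47))) (.c (.a (.l 36) (.l 47)) (.a (.l 36) (.l 47))))))) (.b (.c (.a
      (.l 36) (.l 47)) (.a (.l 47) (.l 47))) (.c (.a (.l 47) (.l 47)) (.l 47)))))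

def y1f_h96 : chk3 (onCell 0 2684354560 1610612736 12884901888 0 26843546 (L1 Ff)) y1f_t96 4 23 3 = true := by decide +kernel

def y1f_t97 : T :=
  (.b (.c (.a (.b (.a (.c (.a (.c (.l 32) (.l 32)) (.c (.l 32) (.l 47))) (.a (.b (.l 47) (.l 47))
      (.l 47))) (.c (.b (.a (.l 47) (.l 47)) (.l 47)) (.l 47))) (.a (.c (.a (.c (.l 47) (.l 47))
      (.l 47)) (.l 47)) (.l 47))) (.b (.c (.l 47) (.l 47)) (.l 47))) (.a (.b (.c (.l 47) (.l 47))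
      (.l 47)) (.l 47))) (.c (.a (.b (.c (.l 47) (.l 47)) (.l 47)) (.l 47)) (.a (.l 47) (.l 47))))

def y1f_h97 : chk3 (onCell 0 2684354560 1610612736 12884901888 0 26843546 (L1 Ff)) y1f_t97 5 11 3 = true := by decide +kernel

def y1f_t98 : T :=
  (.c (.a (.a (.a (.b (.l 66) (.l 66)) (.b (.l 66) (.l 66))) (.a (.l 66) (.l 66))) (.a (.l 66)
      (.l 66))) (.a (.a (.a (.b (.l 34) (.l 34)) (.l 66)) (.a (.l 66) (.l 66))) (.a (.a (.l 66)
      (.l 66)) (.a (.l 66) (.l 66)))))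

def y1f_h98 : chk3 (onCell 0 2684354560 1610612736 12884901888 0 26843546 (L1 Ff)) y1f_t98 6 20 4 = true := by decide +kernel

def y1f_t99 : T :=
  (.a (.a (.a (.a (.b (.c (.l 34) (.l 34)) (.c (.l 34) (.l 34))) (.b (.a (.b (.l 34) (.l 34)) (.b
      (.l 34) (.l 34))) (.c (.l 34) (.l 34)))) (.a (.b (.b (.l 34) (.l 34)) (.c (.l 34) (.l 34)))
      (.b (.b (.l 34) (.l 34)) (.c (.l 34) (.l 34))))) (.a (.b (.a (.b (.l 34) (.l 34)) (.b (.l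
      34) (.l 34))) (.a (.c (.l 34) (.l 34)) (.c (.l 34) (.l 34)))) (.b (.a (.b (.l 34) (.l 34))
      (.b (.l 34) (.l 34))) (.a (.c (.l 34) (.l 34)) (.c (.l 34) (.l 34)))))) (.c (.a (.a (.l 66)
      (.l 66)) (.a (.l 66) (.l 66))) (.a (.a (.b (.l 34) (.l 34)) (.b (.l 34) (.l 34))) (.a (.b
      (.l 34) (.l 34)) (.l 66)))))

def y1f_h99 : chk3 (onCell 0 2684354560 1610612736 12884901888 0 26843546 (L1 Ff)) y1f_t99 6 20 5 = true := by decide +kernel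

def y1f_t100 : T :=
  (.c (.a (.a (.a (.a (.b (.l 66) (.l 66)) (.l 66)) (.a (.l 66) (.l 66))) (.a (.l 66) (.l 66)))
      (.a (.l 66) (.l 66))) (.a (.a (.a (.a (.l 34) (.l 34)) (.a (.l 34) (.l 34))) (.a (.l 66)
      (.l 66))) (.a (.a (.l 66) (.l 66)) (.a (.l 66) (.l 66)))))

def y1f_h100 : chk3 (onCell 0 2684354560 1610612736 12884901888 0 26843546 (L1 Ff)) y1f_t100 6 21 4 = true := by decide +kernel

def y1f_t101 : T :=
  (.a (.a (.a (.c (.b (.l 34) (.l 34)) (.b (.l 34) (.l 34))) (.b (.c (.l 34) (.l 34)) (.c (.l 34)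
      (.l 34)))) (.a (.b (.c (.l 34) (.l 34)) (.c (.l 34) (.l 47))) (.b (.c (.l 34) (.l 34)) (.c
      (.l 34) (.l 47))))) (.a (.a (.b (.c (.l 34) (.l 34)) (.c (.l 34) (.l 47))) (.b (.c (.l 34)
      (.l 34)) (.c (.l 34) (.l 47)))) (.a (.b (.c (.l 34) (.l 34)) (.c (.l 34) (.l 47))) (.b (.c
      (.l 34) (.l 34)) (.c (.l 34) (.l 47))))))

def y1f_h101 : chk3 (onCell 0 2684354560 1610612736 12884901888 0 26843546 (L1 Ff)) y1f_t101 12 21 5 = true := by decide +kernel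

def y1f_t102 : T :=
  (.a (.a (.b (.a (.b (.l 34) (.l 66)) (.b (.l 66) (.l 66))) (.a (.a (.c (.l 34) (.l 47)) (.b (.l
      66) (.l 34))) (.b (.l 66) (.l 66)))) (.b (.a (.b (.l 66) (.l 66)) (.b (.l 66) (.l 66))) (.a
      (.b (.l 66) (.l 66)) (.b (.l 66) (.l 66))))) (.a (.b (.a (.b (.l 66) (.l 66)) (.b (.l 66)
      (.l 66))) (.a (.b (.l 66) (.l 66)) (.b (.l 66) (.l 66)))) (.b (.a (.b (.l 66) (.l 66)) (.b
      (.l 66) (.l 66))) (.a (.b (.l 66) (.l 66)) (.b (.l 66) (.l 47))))))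

def y1f_h102 : chk3 (onCell 0 2684354560 1610612736 12884901888 0 26843546 (L1 Ff)) y1f_t102 13 21 5 = true := by decide +kernel

def y1f_t103 : T :=
  (.b (.c (.c (.a (.a (.l 66) (.l 66)) (.a (.l 66) (.l 66))) (.a (.a (.l 66) (.l 66)) (.a (.b (.l
      66) (.l 66)) (.l 66)))) (.a (.c (.a (.b (.l 66) (.l 66)) (.b (.l 66) (.l 66))) (.a (.a (.l
      66) (.l 66)) (.b (.l 66) (.l 34)))) (.c (.a (.b (.l 66) (.l 66)) (.b (.l 66) (.l 66))) (.a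
      (.b (.l 34) (.l 47)) (.b (.l 34) (.l 47)))))) (.c (.c (.a (.a (.l 66) (.l 66)) (.a (.l 66)
      (.l 66))) (.a (.a (.a (.l 66) (.l 66)) (.b (.l 66) (.l 66))) (.a (.l 66) (.l 66)))) (.c (.b
      (.a (.a (.l 66) (.l 66)) (.a (.l 66) (.l 66))) (.a (.a (.l 66) (.l 66)) (.l 47))) (.a (.a
      (.l 47) (.l 47)) (.l 47)))))

def y1f_h103 : chk3 (onCell 0 2684354560 1610612736 12884901888 0 26843546 (L1 Ff)) y1f_t103 7 10 2 = true := by decide +kernel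

def y1f_t104 : T :=
  (.c (.c (.a (.a (.a (.a (.l 66) (.l 66)) (.l 66)) (.a (.l 66) (.l 66))) (.a (.a (.l 66) (.l
      66)) (.l 66))) (.a (.a (.a (.a (.l 34) (.l 34)) (.a (.l 34) (.l 34))) (.a (.l 66) (.l 66)))
      (.a (.a (.l 66) (.l 66)) (.a (.l 66) (.l 66))))) (.a (.a (.a (.a (.c (.b (.l 34) (.l 34))
      (.l 47)) (.c (.l 34) (.l 47))) (.a (.c (.l 34) (.l 47)) (.b (.c (.l 34) (.l 47)) (.l 47))))
      (.a (.a (.b (.c (.l 34) (.l 47)) (.l 47)) (.b (.c (.l 34) (.l 47)) (.l 47))) (.a (.b (.c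
      (.l 34) (.l 47)) (.l 47)) (.b (.c (.l 34) (.l 47)) (.l 47))))) (.a (.a (.a (.b (.c (.l 34)
      (.l 47)) (.l 47)) (.b (.c (.l 47) (.l 47)) (.l 47))) (.a (.b (.c (.l 47) (.l 47)) (.l 47))
      (.b (.c (.l 47) (.l 47)) (.l 47)))) (.a (.b (.a (.l 47) (.l 47)) (.l 47)) (.b (.l 47) (.l
      47))))))

def y1f_h104 : chk3 (onCell 0 2684354560 1610612736 12884901888 0 26843546 (L1 Ff)) y1f_t104 6 22 2 = true := by decide +kernel

def y1f_t105 : T :=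
  (.c (.c (.a (.a (.a (.a (.l 66) (.l 66)) (.l 66)) (.a (.l 66) (.l 66))) (.a (.a (.l 66) (.l
      66)) (.l 66))) (.a (.a (.a (.a (.b (.l 34) (.l 34)) (.l 34)) (.a (.l 34) (.l 34))) (.a (.l
      66) (.l 66))) (.a (.a (.l 66) (.l 66)) (.a (.l 66) (.l 66))))) (.c (.c (.l 47) (.l 47)) (.l
      47)))

def y1f_h105 : chk3 (onCell 0 2684354560 1610612736 12884901888 0 26843546 (L1 Ff)) y1f_t105 6 23 2 = true := by decide +kernel

end Pool.Agent.Strip051.LC.E1.V2
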