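import Pool.Agent.Strip051.LC.E1.V2.Lf

/-! # Rests near the full period: certificates C5 below `2 h0` -/

set_option maxRecDepth 100000

namespace Pool.Agent.Strip051.LC.E1.V2

open Pool.Agent.Strip051.PB
open Pool.Agent.Strip051.LC.E0.Ch (onCell Tree)

def y1f_t106 : T :=
  (.a (.b (.a (.b (.a (.l 66) (.l 66)) (.a (.b (.l 66) (.l 66)) (.b (.l 66) (.l 66)))) (.b (.a
      (.l 66) (.l 66)) (.a (.b (.l 66) (.l 66)) (.b (.l 66) (.l 66))))) (.a (.b (.a (.b (.l 66)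
      (.l 66)) (.b (.l 66) (.l 66))) (.a (.b (.l 66) (.l 66)) (.b (.l 66) (.l 66)))) (.b (.a (.b
      (.l 66) (.l 66)) (.b (.l 66) (.l 66))) (.a (.b (.l 66) (.l 66)) (.b (.l 66) (.l 66))))))
      (.b (.a (.b (.a (.l 66) (.l 66)) (.a (.b (.l 66) (.l 66)) (.b (.l 66) (.l 66)))) (.b (.a
      (.l 66) (.l 66)) (.a (.b (.l 66) (.l 66)) (.b (.l 66) (.l 66))))) (.a (.b (.a (.b (.l 66)
      (.l 66)) (.b (.l 66) (.l 66))) (.a (.b (.l 66) (.l 66)) (.b (.l 66) (.l 66)))) (.b (.a (.b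
      (.l 66) (.l 66)) (.b (.l 66) (.l 66))) (.a (.b (.l 66) (.l 66)) (.b (.l 66) (.l 66)))))))

def y1f_h106 : chk3 (onCell 0 2684354560 1610612736 12884901888 0 26843546 (L1 Ff)) y1f_t106 28 22 4 = true := by decide +kernel

def y1f_t107 : T :=
  (.a (.b (.a (.b (.a (.l 66) (.l 66)) (.a (.b (.l 66) (.l 66)) (.b (.l 66) (.l 66)))) (.b (.a
      (.l 66) (.l 66)) (.a (.b (.l 66) (.l 66)) (.b (.l 66) (.l 66))))) (.a (.b (.a (.b (.l 66)
      (.l 66)) (.b (.l 66) (.l 66))) (.a (.b (.l 66) (.l 66)) (.b (.l 66) (.l 66)))) (.b (.a (.b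
      (.l 66) (.l 66)) (.b (.l 66) (.l 66))) (.a (.b (.l 66) (.l 66)) (.b (.l 66) (.l 66))))))
      (.b (.a (.b (.a (.l 66) (.l 66)) (.a (.b (.l 66) (.l 66)) (.b (.l 66) (.l 66)))) (.b (.b
      (.l 66) (.l 66)) (.a (.b (.l 66) (.l 66)) (.b (.l 66) (.l 66))))) (.a (.b (.a (.b (.l 66)
      (.l 66)) (.b (.l 66) (.l 66))) (.a (.b (.l 66) (.l 66)) (.b (.l 66) (.l 66)))) (.b (.a (.b
      (.l 66) (.l 66)) (.b (.l 66) (.l 66))) (.a (.b (.l 66) (.l 66)) (.b (.l 66) (.l 66)))))))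

def y1f_h107 : chk3 (onCell 0 2684354560 1610612736 12884901888 0 26843546 (L1 Ff)) y1f_t107 29 22 4 = true := by decide +kernel

def y1f_t108 : T :=
  (.c (.a (.l 66) (.l 66)) (.a (.l 66) (.l 66)))

def y1f_h108 : chk3 (onCell 0 2684354560 1610612736 12884901888 0 26843546 (L1 Ff)) y1f_t108 15 22 4 = true := by decide +kernel

def y1f_t109 : T :=
  (.c (.a (.a (.l 47) (.l 47)) (.l 47)) (.l 47))

def y1f_h109 : chk3 (onCell 0 2684354560 1610612736 12884901888 0 26843546 (L1 Ff)) y1f_t109 7 22 5 = true := by decide +kernel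

def y1f_t110 : T :=
  (.c (.a (.c (.a (.l 66) (.l 66)) (.a (.a (.l 66) (.l 66)) (.l 66))) (.c (.a (.l 66) (.l 66))
      (.a (.l 66) (.l 66)))) (.c (.l 47) (.l 47)))

def y1f_h110 : chk3 (onCell 0 2684354560 1610612736 12884901888 0 26843546 (L1 Ff)) y1f_t110 7 23 2 = true := by decide +kernel

def y1f_t111 : T :=
  (.a (.c (.a (.a (.b (.c (.l 34) (.l 34)) (.c (.l 34) (.l 47))) (.b (.c (.l 34) (.l 34)) (.c (.l
      34) (.l 47)))) (.a (.b (.c (.l 34) (.l 34)) (.c (.l 34) (.l 47))) (.b (.c (.l 34) (.l 34))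
      (.a (.c (.l 34) (.l 47)) (.c (.l 34) (.l 47)))))) (.a (.a (.c (.b (.l 34) (.l 47)) (.l 47))
      (.c (.b (.l 34) (.l 47)) (.l 47))) (.a (.c (.b (.l 47) (.l 47)) (.l 47)) (.c (.l 47) (.l
      47))))) (.c (.a (.a (.b (.a (.b (.l 34) (.l 34)) (.b (.l 34) (.l 34))) (.a (.c (.l 34) (.l
      47)) (.c (.l 34) (.l 47)))) (.b (.b (.l 34) (.l 34)) (.a (.c (.l 34) (.l 47)) (.b (.l 34)
      (.l 47))))) (.b (.a (.b (.l 34) (.l 34)) (.b (.l 34) (.l 34))) (.a (.a (.b (.l 34) (.l 47))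
      (.l 34)) (.b (.l 34) (.l 47))))) (.a (.a (.c (.l 47) (.l 47)) (.l 47)) (.l 47))))

def y1f_h111 : chk3 (onCell 0 2684354560 1610612736 12884901888 0 26843546 (L1 Ff)) y1f_t111 12 20 3 = true := by decide +kernel

def y1f_t112 : T :=
  (.c (.b (.a (.a (.a (.b (.l 34) (.l 34)) (.b (.l 34) (.l 34))) (.a (.b (.l 34) (.l 34)) (.b (.l
      34) (.l 34)))) (.a (.a (.l 34) (.l 34)) (.a (.l 34) (.l 34)))) (.a (.a (.a (.b (.l 47) (.l
      47)) (.b (.l 47) (.l 47))) (.l 47)) (.l 47))) (.b (.l 47) (.l 47)))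

def y1f_h112 : chk3 (onCell 0 2684354560 1610612736 12884901888 0 26843546 (L1 Ff)) y1f_t112 13 20 3 = true := by decide +kernel

def y1f_t113 : T :=
  (.a (.c (.b (.a (.a (.a (.c (.l 47) (.l 47)) (.l 47)) (.l 47)) (.l 47)) (.l 47)) (.l 47)) (.c
      (.c (.l 47) (.l 47)) (.l 47)))

def y1f_h113 : chk3 (onCell 0 2684354560 1610612736 12884901888 0 26843546 (L1 Ff)) y1f_t113 6 21 3 = true := by decide +kernel

def y1f_t114 : T :=
  (.b (.c (.b (.c (.a (.a (.l 34) (.l 47)) (.l 47)) (.l 47)) (.a (.l 47) (.l 47))) (.a (.l 47)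
      (.l 47))) (.c (.a (.l 47) (.l 47)) (.l 47)))

def y1f_h114 : chk3 (onCell 0 2684354560 1610612736 12884901888 0 26843546 (L1 Ff)) y1f_t114 7 10 3 = true := by decide +kernel

def y1f_t115 : T :=
  (.a (.b (.c (.a (.l 47) (.l 47)) (.l 47)) (.c (.l 47) (.l 47))) (.b (.c (.l 47) (.l 15)) (.c
      (.l 47) (.l 15))))

def y1f_h115 : chk3 (onCell 0 2684354560 1610612736 12884901888 0 26843546 (L1 Ff)) y1f_t115 3 11 3 = true := by decide +kernel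

def y1f_t116 : T :=
  (.c (.a (.a (.l 36) (.c (.l 36) (.b (.l 36) (.l 36)))) (.a (.l 36) (.c (.a (.b (.c (.l 36) (.l
      36)) (.c (.l 36) (.l 36))) (.l 36)) (.a (.b (.c (.a (.l 32) (.l 32)) (.l 64)) (.c (.a (.l
      32) (.l 32)) (.l 64))) (.b (.c (.l 36) (.a (.l 32) (.l 32))) (.c (.l 36) (.l 36))))))) (.a
      (.a (.l 36) (.c (.b (.l 36) (.l 36)) (.b (.a (.l 36) (.l 36)) (.l 36)))) (.b (.c (.a (.l
      36) (.c (.a (.l 32) (.l 32)) (.a (.l 32) (.l 47)))) (.a (.l 36) (.l 47))) (.c (.a (.l 36)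
      (.c (.a (.l 32) (.l 47)) (.l 47))) (.a (.l 36) (.l 47))))))

def y1f_h116 : chk3 (onCell 0 2684354560 1610612736 12884901888 0 26843546 (L1 Ff)) y1f_t116 4 24 2 = true := by decide +kernel

def y1f_t117 : T :=
  (.c (.a (.a (.l 36) (.c (.l 36) (.l 36))) (.a (.l 36) (.c (.a (.c (.l 36) (.b (.a (.l 36) (.l
      36)) (.a (.l 36) (.l 36)))) (.c (.l 36) (.l 36))) (.c (.a (.b (.a (.l 32) (.l 32)) (.a (.l
      32) (.l 32))) (.b (.a (.l 32) (.l 36)) (.l 47))) (.b (.a (.l 64) (.l 47)) (.l 47)))))) (.a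
      (.a (.l 36) (.c (.b (.l 36) (.l 36)) (.b (.l 36) (.l 36)))) (.b (.c (.a (.l 36) (.l 47))
      (.a (.l 47) (.l 47))) (.c (.c (.a (.l 47) (.l 47)) (.l 47)) (.l 47)))))

def y1f_h117 : chk3 (onCell 0 2684354560 1610612736 12884901888 0 26843546 (L1 Ff)) y1f_t117 4 25 2 = true := by decide +kernel

def y1f_t118 : T :=
  (.a (.c (.a (.a (.l 36) (.l 36)) (.c (.l 36) (.l 36))) (.a (.c (.a (.l 36) (.l 36)) (.b (.a (.l
      36) (.l 36)) (.a (.l 36) (.l 47)))) (.b (.c (.a (.l 36) (.l 32)) (.a (.l 32) (.l 47))) (.c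
      (.a (.l 36) (.l 32)) (.l 47))))) (.c (.c (.c (.l 36) (.l 36)) (.b (.a (.l 36) (.a (.l 34)
      (.l 32))) (.a (.l 36) (.a (.l 34) (.l 32))))) (.a (.b (.a (.a (.c (.l 32) (.l 47)) (.c (.l
      32) (.l 47))) (.a (.c (.l 32) (.l 47)) (.c (.l 32) (.l 47)))) (.a (.c (.l 32) (.l 47)) (.c
      (.l 47) (.l 47)))) (.a (.a (.a (.c (.l 32) (.l 47)) (.c (.l 32) (.l 47))) (.a (.c (.l 32)
      (.l 47)) (.c (.l 32) (.l 47)))) (.a (.a (.c (.l 32) (.l 47)) (.c (.l 32) (.l 47))) (.a (.b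
      (.l 34) (.l 47)) (.b (.l 34) (.l 47))))))))

def y1f_h118 : chk3 (onCell 0 2684354560 1610612736 12884901888 0 26843546 (L1 Ff)) y1f_t118 5 24 4 = true := by decide +kernel

def y1f_t119 : T :=
  (.a (.b (.a (.c (.a (.c (.l 47) (.l 47)) (.l 47)) (.l 47)) (.l 47)) (.a (.l 47) (.l 47))) (.b
      (.l 47) (.l 47)))

def y1f_h119 : chk3 (onCell 0 2684354560 1610612736 12884901888 0 26843546 (L1 Ff)) y1f_t119 5 24 5 = true := by decide +kernel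

def y1f_t120 : T :=
  (.a (.c (.a (.c (.l 36) (.l 36)) (.c (.l 36) (.a (.l 36) (.l 36)))) (.a (.b (.c (.a (.l 36) (.l
      36)) (.l 47)) (.c (.l 47) (.l 47))) (.b (.c (.l 47) (.l 47)) (.l 47)))) (.b (.a (.c (.c (.l
      36) (.l 36)) (.l 47)) (.a (.a (.a (.c (.c (.l 66) (.l 32)) (.l 47)) (.c (.c (.l 66) (.l
      32)) (.l 47))) (.a (.c (.c (.l 66) (.l 32)) (.l 47)) (.c (.l 66) (.l 47)))) (.a (.a (.c (.l
      66) (.l 47)) (.c (.l 66) (.l 47))) (.a (.c (.l 66) (.l 47)) (.c (.l 66) (.l 47)))))) (.a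
      (.c (.c (.l 36) (.a (.l 36) (.c (.l 32) (.l 47)))) (.l 47)) (.a (.a (.a (.c (.c (.l 66) (.l
      47)) (.l 47)) (.c (.c (.l 66) (.l 47)) (.l 47))) (.a (.c (.c (.l 66) (.l 47)) (.l 47)) (.c
      (.l 66) (.l 47)))) (.a (.a (.c (.l 66) (.l 47)) (.c (.l 66) (.l 47))) (.a (.c (.l 66) (.l
      47)) (.c (.l 66) (.l 47))))))))

def y1f_h120 : chk3 (onCell 0 2684354560 1610612736 12884901888 0 26843546 (L1 Ff)) y1f_t120 5 25 4 = true := by decide +kernel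

def y1f_t121 : T :=
  (.a (.b (.l 47) (.l 47)) (.l 47))

def y1f_h121 : chk3 (onCell 0 2684354560 1610612736 12884901888 0 26843546 (L1 Ff)) y1f_t121 5 25 5 = true := by decide +kernel

def y1f_t122 : T :=
  (.b (.c (.a (.a (.l 36) (.c (.l 36) (.l 36))) (.c (.a (.l 36) (.a (.c (.l 36) (.b (.a (.c (.l
      32) (.l 47)) (.l 36)) (.l 47))) (.c (.l 36) (.b (.l 36) (.l 47))))) (.a (.l 36) (.c (.l 47)
      (.l 47))))) (.a (.a (.l 36) (.c (.b (.l 36) (.l 47)) (.b (.l 47) (.l 47)))) (.b (.c (.l 47)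
      (.l 47)) (.c (.l 47) (.l 47))))) (.c (.a (.a (.l 36) (.c (.l 36) (.l 36))) (.c (.a (.l 36)
      (.c (.a (.b (.a (.l 36) (.l 36)) (.a (.l 47) (.l 47))) (.l 36)) (.l 47))) (.a (.l 47) (.l
      47)))) (.a (.a (.l 36) (.c (.l 47) (.l 47))) (.b (.l 47) (.l 47)))))

def y1f_h122 : chk3 (onCell 0 2684354560 1610612736 12884901888 0 26843546 (L1 Ff)) y1f_t122 4 13 2 = true := by decide +kernel

def y1f_t123 : T :=
  (.b (.c (.a (.c (.a (.c (.l 36) (.a (.l 36) (.l 36))) (.c (.l 36) (.a (.c (.l 47) (.l 47)) (.l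
      47)))) (.a (.l 47) (.l 47))) (.b (.c (.c (.c (.l 36) (.l 36)) (.l 47)) (.l 47)) (.c (.c (.c
      (.l 36) (.l 36)) (.l 47)) (.l 47)))) (.a (.l 47) (.l 47))) (.c (.a (.c (.c (.a (.l 36) (.l
      36)) (.l 47)) (.l 47)) (.b (.c (.c (.c (.l 36) (.l 47)) (.l 47)) (.l 47)) (.c (.c (.a (.l
      36) (.a (.a (.c (.l 47) (.l 47)) (.l 66)) (.l 66))) (.l 47)) (.l 47)))) (.a (.l 47) (.l
      47))))

def y1f_h123 : chk3 (onCell 0 2684354560 1610612736 12884901888 0 26843546 (L1 Ff)) y1f_t123 5 13 2 = true := by decide +kernel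

def y1f_t124 : T :=
  (.b (.c (.a (.a (.l 36) (.c (.b (.a (.l 36) (.l 36)) (.a (.l 36) (.l 36))) (.b (.a (.l 36) (.l
      36)) (.c (.a (.l 36) (.l 47)) (.a (.l 36) (.l 47)))))) (.b (.c (.a (.l 36) (.l 47)) (.l
      47)) (.c (.l 47) (.l 47)))) (.a (.b (.c (.a (.l 36) (.c (.b (.a (.l 36) (.l 47)) (.a (.l
      36) (.l 47))) (.b (.a (.l 36) (.l 47)) (.a (.l 36) (.l 47))))) (.a (.l 36) (.b (.c (.a (.l
      36) (.l 47)) (.a (.l 36) (.l 47))) (.c (.a (.l 47) (.l 47)) (.l 47))))) (.a (.l 36) (.c (.c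
      (.b (.a (.l 36) (.l 47)) (.l 47)) (.b (.l 47) (.l 47))) (.l 47)))) (.b (.l 47) (.l 47))))
      (.c (.a (.c (.a (.l 36) (.b (.a (.l 36) (.l 47)) (.c (.l 47) (.l 47)))) (.b (.a (.l 36) (.c
      (.l 47) (.l 47))) (.a (.l 36) (.l 47)))) (.b (.c (.l 47) (.l 47)) (.l 47))) (.a (.a (.b (.l
      36) (.l 36)) (.c (.l 47) (.l 47))) (.l 47))))

def y1f_h124 : chk3 (onCell 0 2684354560 1610612736 12884901888 0 26843546 (L1 Ff)) y1f_t124 4 12 3 = true := by decide +kernel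

def y1f_t125 : T :=
  (.b (.c (.a (.l 47) (.l 47)) (.a (.l 47) (.l 15))) (.c (.a (.l 47) (.l 47)) (.l 47)))

def y1f_h125 : chk3 (onCell 0 2684354560 1610612736 12884901888 0 26843546 (L1 Ff)) y1f_t125 5 12 3 = true := by decide +kernel

def y1f_t126 : T :=
  (.a (.b (.c (.a (.a (.c (.l 36) (.l 36)) (.c (.l 47) (.l 47))) (.l 47)) (.a (.a (.b (.c (.l 36)
      (.l 36)) (.c (.l 36) (.l 36))) (.l 47)) (.l 47))) (.c (.a (.a (.b (.l 36) (.c (.l 36) (.l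
      36))) (.l 47)) (.l 47)) (.a (.a (.b (.c (.l 36) (.c (.l 36) (.l 36))) (.c (.l 36) (.a (.l
      36) (.l 47)))) (.l 47)) (.l 47)))) (.b (.c (.l 47) (.l 47)) (.c (.l 47) (.l 47))))

def y1f_h126 : chk3 (onCell 0 2684354560 1610612736 12884901888 0 26843546 (L1 Ff)) y1f_t126 2 13 3 = true := by decide +kernel

def y1f_t127 : T :=
  (.b (.c (.c (.a (.a (.a (.a (.l 66) (.l 66)) (.a (.l 66) (.l 66))) (.a (.l 66) (.l 66))) (.a
      (.a (.l 66) (.l 66)) (.l 66))) (.a (.a (.a (.a (.a (.l 34) (.l 34)) (.l 34)) (.a (.l 34)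
      (.l 34))) (.a (.a (.l 47) (.l 47)) (.l 47))) (.a (.l 47) (.l 47)))) (.c (.l 47) (.l 47)))
      (.c (.c (.a (.a (.a (.a (.a (.l 66) (.l 66)) (.a (.l 66) (.l 66))) (.a (.l 66) (.l 66)))
      (.a (.l 66) (.l 66))) (.a (.a (.l 66) (.l 66)) (.a (.l 66) (.l 66)))) (.a (.l 47) (.l 47)))
      (.a (.l 47) (.l 47))))

def y1f_h127 : chk3 (onCell 0 2684354560 1610612736 12884901888 0 26843546 (L1 Ff)) y1f_t127 6 12 2 = true := by decide +kernel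

def y1f_t128 : T :=
  (.b (.c (.a (.c (.a (.l 66) (.l 66)) (.l 47)) (.b (.a (.a (.a (.b (.a (.c (.l 66) (.l 47)) (.c
      (.l 66) (.l 47))) (.c (.l 66) (.l 47))) (.b (.c (.l 66) (.l 47)) (.c (.l 66) (.l 47)))) (.a
      (.b (.c (.l 66) (.l 47)) (.c (.l 66) (.l 47))) (.b (.c (.l 66) (.l 47)) (.c (.l 66) (.l
      47))))) (.a (.a (.b (.c (.l 66) (.l 47)) (.c (.l 66) (.l 47))) (.b (.c (.l 66) (.l 47)) (.c
      (.l 66) (.l 47)))) (.a (.b (.c (.l 66) (.l 47)) (.c (.l 66) (.l 47))) (.b (.c (.l 66) (.l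
      47)) (.c (.l 66) (.l 47)))))) (.c (.a (.l 66) (.l 66)) (.l 47)))) (.c (.l 47) (.l 15))) (.c
      (.a (.c (.a (.a (.l 66) (.l 66)) (.l 66)) (.l 47)) (.b (.c (.a (.l 66) (.l 66)) (.l 47))
      (.c (.a (.l 66) (.l 66)) (.l 47)))) (.l 47)))

def y1f_h128 : chk3 (onCell 0 2684354560 1610612736 12884901888 0 26843546 (L1 Ff)) y1f_t128 7 12 2 = true := by decide +kernel

def y1f_t129 : T :=
  (.a (.a (.a (.b (.c (.l 66) (.l 47)) (.c (.l 66) (.l 47))) (.b (.c (.l 66) (.l 47)) (.c (.l 66)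
      (.l 47)))) (.a (.b (.c (.l 66) (.l 47)) (.c (.l 66) (.l 47))) (.b (.c (.l 66) (.l 47)) (.c
      (.l 66) (.l 47))))) (.a (.a (.b (.c (.l 66) (.l 47)) (.c (.l 66) (.l 47))) (.b (.c (.l 66)
      (.l 47)) (.c (.l 66) (.l 47)))) (.a (.b (.c (.l 66) (.l 47)) (.c (.l 66) (.l 47))) (.b (.c
      (.l 66) (.l 47)) (.c (.l 66) (.l 47))))))

def y1f_h129 : chk3 (onCell 0 2684354560 1610612736 12884901888 0 26843546 (L1 Ff)) y1f_t129 24 26 4 = true := by decide +kernel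

def y1f_t130 : T :=
  (.a (.a (.a (.b (.c (.l 66) (.l 47)) (.c (.l 66) (.l 47))) (.b (.c (.l 66) (.l 47)) (.c (.l 66)
      (.l 47)))) (.b (.a (.c (.l 66) (.l 47)) (.c (.l 66) (.l 47))) (.a (.c (.l 66) (.l 47)) (.c
      (.l 66) (.l 47))))) (.a (.b (.a (.c (.l 66) (.l 47)) (.c (.l 66) (.l 47))) (.a (.c (.l 66)
      (.l 47)) (.c (.l 66) (.l 47)))) (.b (.a (.c (.l 66) (.l 47)) (.c (.l 66) (.l 47))) (.a (.c
      (.l 66) (.l 47)) (.c (.l 66) (.l 47))))))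

def y1f_h130 : chk3 (onCell 0 2684354560 1610612736 12884901888 0 26843546 (L1 Ff)) y1f_t130 25 26 4 = true := by decide +kernel

def y1f_t131 : T :=
  (.c (.a (.a (.l 66) (.l 66)) (.a (.l 66) (.l 66))) (.l 47))

def y1f_h131 : chk3 (onCell 0 2684354560 1610612736 12884901888 0 26843546 (L1 Ff)) y1f_t131 13 26 4 = true := by decide +kernel

def y1f_t132 : T :=
  (.l 47)

def y1f_h132 : chk3 (onCell 0 2684354560 1610612736 12884901888 0 26843546 (L1 Ff)) y1f_t132 6 26 5 = true := by decide +kernel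

def y1f_t133 : T :=
  (.c (.c (.a (.a (.a (.a (.a (.b (.l 66) (.l 66)) (.b (.l 66) (.l 66))) (.a (.l 66) (.l 66)))
      (.a (.l 66) (.l 66))) (.a (.a (.l 66) (.l 66)) (.a (.l 66) (.l 66)))) (.a (.a (.a (.l 66)
      (.l 66)) (.l 66)) (.a (.l 66) (.l 66)))) (.l 47)) (.l 47))

def y1f_h133 : chk3 (onCell 0 2684354560 1610612736 12884901888 0 26843546 (L1 Ff)) y1f_t133 6 27 2 = true := by decide +kernel

def y1f_t134 : T :=
  (.b (.c (.a (.c (.a (.a (.l 66) (.l 66)) (.a (.l 66) (.l 66))) (.l 47)) (.b (.c (.a (.l 66) (.l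
      66)) (.l 47)) (.c (.a (.l 66) (.l 66)) (.l 47)))) (.l 47)) (.c (.a (.b (.c (.a (.l 66) (.l
      66)) (.l 47)) (.c (.a (.l 66) (.l 66)) (.l 47))) (.b (.c (.a (.l 66) (.l 66)) (.l 47)) (.c
      (.a (.l 66) (.l 66)) (.l 47)))) (.l 47)))

def y1f_h134 : chk3 (onCell 0 2684354560 1610612736 12884901888 0 26843546 (L1 Ff)) y1f_t134 7 13 2 = true := by decide +kernel

def y1f_t135 : T :=
  (.b (.a (.b (.c (.l 47) (.l 15)) (.c (.l 47) (.l 15))) (.b (.c (.l 15) (.l 15)) (.c (.l 15) (.l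
      15)))) (.a (.b (.c (.l 15) (.l 15)) (.c (.l 15) (.l 15))) (.b (.c (.l 15) (.l 15)) (.c (.l
      15) (.l 15)))))

def y1f_h135 : chk3 (onCell 0 2684354560 1610612736 12884901888 0 26843546 (L1 Ff)) y1f_t135 3 6 3 = true := by decide +kernel

def y1f_t136 : T :=
  (.a (.b (.c (.a (.a (.l 36) (.c (.l 36) (.l 47))) (.b (.c (.a (.l 47) (.c (.l 47) (.l 47))) (.l
      47)) (.c (.a (.l 47) (.l 47)) (.l 47)))) (.a (.c (.a (.l 36) (.l 47)) (.b (.a (.l 36) (.l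
      47)) (.a (.l 47) (.l 47)))) (.l 47))) (.c (.a (.a (.l 47) (.l 47)) (.b (.c (.l 47) (.l 47))
      (.c (.l 47) (.l 47)))) (.a (.c (.a (.l 47) (.l 47)) (.b (.l 47) (.l 47))) (.l 47)))) (.b
      (.c (.a (.b (.c (.c (.l 47) (.l 47)) (.l 47)) (.c (.c (.l 47) (.l 47)) (.l 47))) (.b (.c
      (.a (.c (.l 47) (.l 47)) (.a (.l 47) (.l 47))) (.l 47)) (.c (.a (.l 47) (.l 47)) (.l 47))))
      (.a (.l 47) (.l 47))) (.c (.a (.b (.c (.l 47) (.l 47)) (.c (.l 47) (.l 47))) (.b (.c (.l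
      47) (.l 47)) (.c (.l 47) (.l 47)))) (.a (.l 47) (.l 47)))))

def y1f_h136 : chk3 (onCell 0 2684354560 1610612736 12884901888 0 26843546 (L1 Ff)) y1f_t136 2 14 2 = true := by decide +kernel

def y1f_t137 : T :=
  (.a (.b (.c (.a (.a (.l 47) (.l 47)) (.b (.c (.l 47) (.l 47)) (.c (.l 47) (.l 47)))) (.a (.c
      (.l 47) (.l 47)) (.l 47))) (.c (.a (.l 47) (.b (.l 47) (.l 47))) (.a (.c (.l 47) (.l 47))
      (.l 47)))) (.b (.c (.a (.b (.c (.l 47) (.l 47)) (.c (.l 47) (.l 47))) (.b (.c (.l 47) (.l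
      47)) (.c (.l 47) (.l 47)))) (.l 47)) (.c (.a (.b (.c (.l 47) (.l 47)) (.l 47)) (.b (.c (.l
      47) (.l 47)) (.c (.l 47) (.l 47)))) (.l 47))))

def y1f_h137 : chk3 (onCell 0 2684354560 1610612736 12884901888 0 26843546 (L1 Ff)) y1f_t137 2 15 2 = true := by decide +kernel

def y1f_t138 : T :=
  (.b (.a (.b (.c (.a (.a (.b (.c (.l 36) (.l 36)) (.c (.l 47) (.l 47))) (.l 47)) (.l 47)) (.a
      (.b (.c (.a (.b (.l 47) (.l 47)) (.l 47)) (.a (.a (.l 47) (.l 47)) (.l 47))) (.c (.a (.l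
      47) (.l 47)) (.a (.l 47) (.l 47)))) (.l 47))) (.c (.a (.a (.c (.l 47) (.l 47)) (.l 47)) (.l
      47)) (.a (.b (.c (.a (.l 47) (.l 47)) (.a (.l 47) (.l 47))) (.c (.l 47) (.a (.l 47) (.l
      47)))) (.l 47)))) (.b (.c (.l 47) (.l 15)) (.c (.l 47) (.l 15)))) (.a (.b (.c (.a (.b (.a
      (.l 47) (.l 47)) (.c (.l 47) (.l 47))) (.l 47)) (.a (.b (.c (.l 47) (.l 47)) (.c (.l 47)
      (.l 47))) (.l 47))) (.c (.a (.b (.c (.l 47) (.l 47)) (.l 47)) (.l 47)) (.a (.b (.c (.l 47)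
      (.l 47)) (.c (.l 47) (.l 47))) (.l 47)))) (.b (.c (.l 47) (.l 15)) (.c (.l 47) (.l 15)))))

def y1f_h138 : chk3 (onCell 0 2684354560 1610612736 12884901888 0 26843546 (L1 Ff)) y1f_t138 2 7 3 = true := by decide +kernel

end Pool.Agent.Strip051.LC.E1.V2
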