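import Pool.Agent.Strip051.LC.E1.V2.Lf

/-! # Rests near the full period: certificates C6 below `2 h0` -/

set_option maxRecDepth 100000

namespace Pool.Agent.Strip051.LC.E1.V2

open Pool.Agent.Strip051.PB
open Pool.Agent.Strip051.LC.E0.Ch (onCell Tree)

def y1f_t139 : T :=
  (.a (.b (.c (.c (.a (.a (.a (.a (.a (.b (.l 47) (.l 47)) (.b (.l 47) (.l 47))) (.a (.l 66) (.l
      66))) (.a (.a (.l 66) (.l 66)) (.a (.b (.l 47) (.l 47)) (.l 66)))) (.a (.a (.a (.l 66) (.l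
      66)) (.a (.l 66) (.l 66))) (.a (.l 66) (.l 66)))) (.a (.a (.a (.l 66) (.l 66)) (.a (.l 66)
      (.l 66))) (.a (.l 66) (.l 66)))) (.l 47)) (.l 47)) (.c (.a (.c (.a (.l 47) (.l 47)) (.l
      47)) (.c (.a (.l 47) (.a (.l 47) (.l 47))) (.l 47))) (.l 47))) (.b (.c (.a (.b (.c (.a (.l
      66) (.l 66)) (.l 47)) (.c (.a (.l 66) (.l 66)) (.l 47))) (.b (.c (.a (.l 66) (.l 66)) (.l
      47)) (.c (.a (.l 66) (.l 66)) (.l 47)))) (.l 15)) (.c (.a (.b (.c (.a (.l 47) (.l 47)) (.l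
      47)) (.c (.l 47) (.l 47))) (.b (.c (.a (.l 47) (.l 47)) (.l 47)) (.c (.a (.l 47) (.l 47))
      (.l 15)))) (.l 15))))

def y1f_h139 : chk3 (onCell 0 2684354560 1610612736 12884901888 0 26843546 (L1 Ff)) y1f_t139 3 14 2 = true := by decide +kernel

def y1f_t140 : T :=
  (.a (.b (.c (.a (.c (.l 47) (.l 47)) (.c (.a (.l 47) (.l 47)) (.l 47))) (.l 47)) (.c (.a (.c
      (.l 47) (.l 47)) (.b (.c (.l 47) (.l 47)) (.c (.l 47) (.l 47)))) (.l 47))) (.b (.c (.a (.b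
      (.c (.l 47) (.l 47)) (.c (.l 47) (.l 15))) (.b (.c (.l 47) (.l 15)) (.c (.l 47) (.l 15))))
      (.l 15)) (.c (.a (.b (.c (.l 47) (.l 15)) (.c (.l 47) (.l 15))) (.b (.c (.l 47) (.l 15))
      (.c (.l 47) (.l 15)))) (.l 15))))

def y1f_h140 : chk3 (onCell 0 2684354560 1610612736 12884901888 0 26843546 (L1 Ff)) y1f_t140 3 15 2 = true := by decide +kernel

def y1f_t141 : T :=
  (.b (.a (.b (.c (.l 15) (.l 15)) (.c (.l 15) (.l 15))) (.b (.c (.l 15) (.l 15)) (.c (.l 15) (.l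
      15)))) (.a (.b (.c (.l 15) (.l 15)) (.c (.l 15) (.l 15))) (.b (.c (.l 15) (.l 15)) (.c (.l
      15) (.l 15)))))

def y1f_h141 : chk3 (onCell 0 2684354560 1610612736 12884901888 0 26843546 (L1 Ff)) y1f_t141 3 7 3 = true := by decide +kernel

def y2f_t0 : T :=
  (.l 79)

def y2f_h0 : chk3 (onCell 1610612736 12884901888 0 429496730 0 67108864 (L2 Ff)) y2f_t0 16 2 4 = true := by decide +kernel

def y2f_t1 : T :=
  (.a (.a (.a (.l 79) (.c (.l 79) (.a (.l 79) (.b (.c (.l 79) (.a (.l 79) (.b (.l 66) (.l 66))))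
      (.c (.l 79) (.l 66)))))) (.a (.c (.a (.c (.b (.a (.l 79) (.b (.c (.l 79) (.a (.l 79) (.l
      66))) (.l 66))) (.l 66)) (.b (.a (.b (.c (.l 79) (.a (.l 79) (.l 66))) (.l 66)) (.c (.b (.l
      66) (.l 66)) (.l 66))) (.l 66))) (.c (.b (.a (.c (.b (.l 66) (.l 66)) (.l 66)) (.l 66)) (.l
      66)) (.b (.l 66) (.l 66)))) (.a (.c (.b (.a (.c (.b (.l 66) (.l 66)) (.l 66)) (.l 66)) (.l
      66)) (.b (.l 66) (.l 66))) (.c (.l 66) (.l 66)))) (.c (.a (.c (.l 66) (.l 66)) (.l 66)) (.l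
      66)))) (.a (.a (.l 66) (.l 66)) (.l 66)))

def y2f_h1 : chk3 (onCell 1610612736 12884901888 0 429496730 0 67108864 (L2 Ff)) y2f_t1 17 4 8 = true := by decide +kernel

def y2f_t2 : T :=
  (.a (.a (.a (.l 79) (.c (.a (.b (.c (.l 79) (.a (.l 79) (.b (.l 34) (.l 34)))) (.c (.l 79) (.l
      66))) (.c (.b (.a (.b (.l 66) (.l 34)) (.l 66)) (.l 66)) (.b (.l 66) (.l 66)))) (.a (.c (.b
      (.a (.l 79) (.l 66)) (.l 66)) (.b (.l 66) (.l 66))) (.c (.l 66) (.l 66))))) (.a (.c (.a (.c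
      (.l 66) (.l 66)) (.l 66)) (.l 66)) (.l 66))) (.l 66))

def y2f_h2 : chk3 (onCell 1610612736 12884901888 0 429496730 0 67108864 (L2 Ff)) y2f_t2 17 4 9 = true := by decide +kernel

def y2f_t3 : T :=
  (.c (.a (.a (.c (.l 79) (.a (.l 79) (.a (.l 79) (.l 66)))) (.c (.l 66) (.l 66))) (.l 66)) (.a
      (.a (.a (.l 79) (.c (.l 66) (.l 66))) (.a (.c (.l 66) (.l 66)) (.l 66))) (.a (.l 66) (.l
      66))))

def y2f_h3 : chk3 (onCell 1610612736 12884901888 0 429496730 0 67108864 (L2 Ff)) y2f_t3 17 5 4 = true := by decide +kernel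

def y2f_t4 : T :=
  (.b (.a (.l 79) (.c (.l 79) (.b (.a (.l 79) (.a (.l 79) (.c (.l 79) (.a (.l 79) (.c (.l 79) (.l
      34)))))) (.a (.l 79) (.a (.l 79) (.c (.l 79) (.a (.l 79) (.l 34)))))))) (.c (.l 79) (.a (.l
      79) (.b (.c (.l 79) (.a (.l 79) (.a (.l 79) (.l 66)))) (.c (.l 79) (.a (.l 79) (.a (.l 79)
      (.l 66))))))))

def y2f_h4 : chk3 (onCell 1610612736 12884901888 0 429496730 0 67108864 (L2 Ff)) y2f_t4 16 2 5 = true := by decide +kernel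

def y2f_t5 : T :=
  (.c (.b (.a (.a (.a (.c (.a (.l 79) (.b (.c (.a (.l 79) (.l 66)) (.l 66)) (.l 66))) (.a (.b (.c
      (.l 79) (.a (.l 79) (.l 34))) (.l 66)) (.c (.b (.l 34) (.l 34)) (.l 66)))) (.c (.a (.c (.l
      66) (.l 66)) (.l 66)) (.l 66))) (.l 66)) (.l 66)) (.a (.a (.a (.c (.a (.l 79) (.l 66)) (.l
      66)) (.c (.l 66) (.l 66))) (.l 66)) (.l 66))) (.a (.b (.a (.a (.c (.a (.b (.c (.l 34) (.l
      34)) (.l 34)) (.l 66)) (.a (.c (.l 66) (.l 66)) (.l 66))) (.l 66)) (.l 66)) (.a (.a (.c (.l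
      66) (.l 66)) (.l 66)) (.l 66))) (.b (.l 66) (.l 66))))

def y2f_h5 : chk3 (onCell 1610612736 12884901888 0 429496730 0 67108864 (L2 Ff)) y2f_t5 17 2 5 = true := by decide +kernel

def y2f_t6 : T :=
  (.c (.a (.l 79) (.c (.a (.b (.a (.c (.l 79) (.a (.l 79) (.l 66))) (.l 66)) (.a (.c (.l 79) (.l
      66)) (.l 66))) (.a (.c (.l 66) (.l 66)) (.l 66))) (.a (.b (.a (.a (.l 79) (.l 66)) (.l 66))
      (.a (.l 66) (.l 66))) (.b (.l 66) (.l 66))))) (.a (.c (.l 79) (.a (.l 79) (.b (.a (.l 79)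
      (.a (.l 79) (.c (.l 79) (.l 66)))) (.a (.l 79) (.a (.l 79) (.l 66)))))) (.c (.a (.b (.a (.a
      (.l 66) (.l 66)) (.l 66)) (.a (.l 66) (.l 66))) (.b (.a (.l 66) (.l 66)) (.l 66))) (.a (.b
      (.a (.a (.l 66) (.l 66)) (.l 66)) (.a (.l 66) (.l 66))) (.b (.a (.l 66) (.l 66)) (.a (.l
      66) (.l 66)))))))

def y2f_h6 : chk3 (onCell 1610612736 12884901888 0 429496730 0 67108864 (L2 Ff)) y2f_t6 8 3 2 = true := by decide +kernel

def y2f_t7 : T :=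
  (.c (.b (.c (.a (.a (.a (.c (.l 66) (.l 66)) (.l 66)) (.l 66)) (.a (.l 66) (.l 66))) (.a (.b
      (.l 66) (.a (.l 66) (.l 66))) (.a (.l 66) (.l 66)))) (.a (.c (.b (.l 66) (.l 66)) (.b (.a
      (.l 66) (.l 66)) (.a (.l 66) (.l 66)))) (.b (.a (.b (.l 66) (.c (.l 66) (.l 66))) (.b (.l
      66) (.l 66))) (.a (.b (.c (.l 66) (.l 66)) (.l 66)) (.b (.c (.l 66) (.l 66)) (.a (.c (.l
      66) (.l 66)) (.c (.l 66) (.l 66)))))))) (.a (.c (.b (.b (.l 66) (.a (.l 66) (.l 66))) (.a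
      (.b (.l 66) (.l 66)) (.b (.l 66) (.l 66)))) (.a (.b (.a (.l 66) (.l 66)) (.b (.l 66) (.l
      66))) (.b (.l 66) (.b (.l 66) (.l 66))))) (.c (.b (.a (.l 66) (.l 66)) (.b (.l 66) (.a (.l
      66) (.l 66)))) (.b (.a (.l 66) (.l 66)) (.a (.b (.l 66) (.l 66)) (.l 66))))))

def y2f_h7 : chk3 (onCell 1610612736 12884901888 0 429496730 0 67108864 (L2 Ff)) y2f_t7 9 1 2 = true := by decide +kernel

def y2f_t8 : T :=
  (.b (.a (.l 79) (.c (.b (.a (.l 79) (.a (.l 79) (.c (.a (.l 79) (.l 34)) (.a (.c (.l 79) (.l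
      34)) (.l 34))))) (.a (.l 79) (.a (.l 79) (.c (.a (.l 79) (.l 34)) (.l 66))))) (.a (.l 79)
      (.a (.c (.l 79) (.a (.l 79) (.b (.c (.l 79) (.l 79)) (.l 34)))) (.c (.a (.c (.b (.l 34) (.l
      34)) (.b (.l 34) (.l 34))) (.l 66)) (.a (.c (.l 34) (.l 34)) (.l 66))))))) (.a (.l 79) (.c
      (.b (.a (.l 79) (.a (.l 79) (.l 66))) (.a (.l 79) (.a (.l 79) (.l 66)))) (.b (.a (.l 79)
      (.a (.c (.l 79) (.l 34)) (.l 66))) (.a (.l 79) (.a (.c (.l 79) (.l 34)) (.l 66)))))))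

def y2f_h8 : chk3 (onCell 1610612736 12884901888 0 429496730 0 67108864 (L2 Ff)) y2f_t8 16 2 6 = true := by decide +kernel

def y2f_t9 : T :=
  (.c (.a (.l 79) (.b (.c (.a (.l 79) (.a (.l 79) (.l 66))) (.a (.l 79) (.a (.l 79) (.l 66))))
      (.a (.l 79) (.a (.l 79) (.l 66))))) (.a (.l 79) (.b (.c (.a (.l 79) (.a (.l 79) (.l 66)))
      (.a (.l 79) (.a (.a (.l 79) (.l 66)) (.l 66)))) (.a (.l 79) (.a (.c (.l 79) (.l 34)) (.l
      66))))))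

def y2f_h9 : chk3 (onCell 1610612736 12884901888 0 429496730 0 67108864 (L2 Ff)) y2f_t9 16 3 6 = true := by decide +kernel

def y2f_t10 : T :=
  (.c (.b (.a (.b (.a (.a (.c (.l 66) (.l 66)) (.l 66)) (.l 66)) (.a (.a (.l 66) (.l 66)) (.l
      66))) (.b (.l 66) (.l 66))) (.a (.b (.a (.a (.l 66) (.l 66)) (.l 66)) (.a (.l 66) (.l 66)))
      (.b (.l 66) (.a (.l 66) (.l 66))))) (.a (.b (.b (.a (.l 66) (.l 66)) (.a (.l 66) (.l 66)))
      (.b (.a (.a (.l 66) (.l 66)) (.l 66)) (.a (.a (.l 66) (.l 66)) (.l 66)))) (.c (.b (.l 66)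
      (.b (.l 66) (.l 66))) (.b (.l 66) (.a (.b (.l 34) (.l 34)) (.l 34))))))

def y2f_h10 : chk3 (onCell 1610612736 12884901888 0 429496730 0 67108864 (L2 Ff)) y2f_t10 17 1 6 = true := by decide +kernel

def y2f_t11 : T :=
  (.a (.l 79) (.c (.b (.a (.l 79) (.a (.c (.a (.l 79) (.c (.b (.l 34) (.l 34)) (.b (.l 34) (.l
      34)))) (.a (.l 79) (.c (.l 34) (.l 34)))) (.c (.l 34) (.l 34)))) (.b (.a (.l 79) (.a (.c
      (.l 34) (.l 34)) (.l 34))) (.a (.l 79) (.a (.l 34) (.l 34))))) (.b (.a (.l 79) (.a (.c (.a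
      (.c (.l 79) (.l 34)) (.l 34)) (.a (.l 34) (.l 34))) (.l 34))) (.a (.l 79) (.a (.c (.l 34)
      (.l 34)) (.l 66))))))

def y2f_h11 : chk3 (onCell 1610612736 12884901888 0 429496730 0 67108864 (L2 Ff)) y2f_t11 16 2 7 = true := by decide +kernel

def y2f_t12 : T :=
  (.c (.a (.l 79) (.c (.b (.a (.l 79) (.a (.a (.l 79) (.l 66)) (.l 66))) (.a (.l 79) (.l 34)))
      (.b (.a (.l 79) (.a (.a (.l 79) (.l 34)) (.l 34))) (.a (.l 79) (.a (.l 34) (.l 34)))))) (.a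
      (.l 79) (.c (.a (.l 79) (.b (.a (.a (.l 34) (.l 34)) (.l 34)) (.a (.c (.l 34) (.a (.l 34)
      (.l 34))) (.b (.l 34) (.l 34))))) (.a (.l 79) (.b (.a (.a (.l 34) (.l 34)) (.l 34)) (.a (.b
      (.l 34) (.l 34)) (.b (.l 34) (.l 34))))))))

def y2f_h12 : chk3 (onCell 1610612736 12884901888 0 429496730 0 67108864 (L2 Ff)) y2f_t12 16 3 7 = true := by decide +kernel

def y2f_t13 : T :=
  (.c (.a (.c (.b (.b (.l 66) (.l 66)) (.a (.b (.l 34) (.l 34)) (.b (.l 34) (.l 34)))) (.a (.b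
      (.a (.a (.c (.l 34) (.l 34)) (.l 66)) (.l 66)) (.b (.l 34) (.a (.l 34) (.l 34)))) (.b (.l
      66) (.b (.l 34) (.l 34))))) (.b (.b (.l 66) (.l 66)) (.a (.b (.l 34) (.l 34)) (.b (.l 34)
      (.l 34))))) (.b (.a (.a (.b (.l 34) (.l 66)) (.b (.l 34) (.l 34))) (.b (.l 34) (.l 34)))
      (.a (.c (.a (.b (.l 34) (.a (.l 34) (.l 34))) (.b (.l 34) (.l 34))) (.a (.b (.l 34) (.a (.b
      (.l 34) (.l 34)) (.l 34))) (.b (.l 34) (.l 34)))) (.a (.b (.l 34) (.l 34)) (.b (.l 34) (.l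
      34))))))

def y2f_h13 : chk3 (onCell 1610612736 12884901888 0 429496730 0 67108864 (L2 Ff)) y2f_t13 17 1 7 = true := by decide +kernel

def y2f_t14 : T :=
  (.c (.a (.b (.a (.b (.a (.l 66) (.l 66)) (.c (.l 66) (.l 66))) (.b (.l 66) (.c (.l 66) (.l
      34)))) (.c (.a (.b (.l 66) (.l 66)) (.b (.l 66) (.l 66))) (.a (.b (.l 66) (.l 66)) (.b (.l
      34) (.l 34))))) (.b (.a (.b (.l 66) (.c (.l 34) (.l 34))) (.b (.c (.l 34) (.l 47)) (.c (.l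
      34) (.l 47)))) (.a (.b (.a (.l 66) (.l 66)) (.a (.l 66) (.l 66))) (.b (.a (.l 66) (.l 47))
      (.b (.l 66) (.c (.l 34) (.l 47))))))) (.a (.b (.a (.a (.b (.l 66) (.l 66)) (.c (.l 34) (.l
      34))) (.a (.b (.l 34) (.l 34)) (.b (.l 34) (.l 34)))) (.a (.b (.a (.c (.l 34) (.l 34)) (.b
      (.l 34) (.l 34))) (.c (.a (.l 34) (.l 34)) (.a (.l 34) (.l 34)))) (.b (.a (.l 34) (.l 34))
      (.c (.l 34) (.l 34))))) (.b (.a (.l 47) (.l 47)) (.a (.l 47) (.l 47)))))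

def y2f_h14 : chk3 (onCell 1610612736 12884901888 0 429496730 0 67108864 (L2 Ff)) y2f_t14 9 1 3 = true := by decide +kernel

def y2f_t15 : T :=
  (.c (.a (.c (.c (.b (.a (.l 66) (.l 66)) (.a (.b (.l 66) (.l 66)) (.b (.l 66) (.l 66)))) (.b
      (.a (.l 66) (.l 66)) (.a (.b (.l 66) (.l 66)) (.b (.l 66) (.l 66))))) (.a (.c (.b (.l 66)
      (.b (.l 66) (.a (.l 66) (.l 66)))) (.b (.b (.l 66) (.l 66)) (.b (.l 66) (.a (.l 34) (.l
      47))))) (.c (.b (.l 66) (.b (.l 66) (.l 66))) (.l 47)))) (.c (.c (.b (.a (.l 66) (.l 66))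
      (.b (.a (.l 66) (.l 66)) (.a (.l 66) (.l 66)))) (.b (.a (.l 66) (.l 47)) (.b (.a (.l 66)
      (.l 47)) (.a (.l 66) (.l 47))))) (.c (.l 47) (.l 47)))) (.a (.a (.c (.l 47) (.l 15)) (.l
      47)) (.c (.l 15) (.l 15))))

def y2f_h15 : chk3 (onCell 1610612736 12884901888 0 429496730 0 67108864 (L2 Ff)) y2f_t15 5 1 1 = true := by decide +kernel

def y2f_t16 : T :=
  (.a (.c (.a (.c (.a (.c (.b (.l 66) (.b (.l 66) (.l 66))) (.l 47)) (.c (.b (.l 66) (.b (.l 66)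
      (.l 66))) (.l 47))) (.l 47)) (.c (.a (.c (.b (.l 66) (.b (.l 66) (.l 66))) (.l 47)) (.c (.b
      (.l 66) (.b (.l 66) (.l 66))) (.l 47))) (.l 15))) (.a (.l 15) (.l 15))) (.c (.a (.c (.a (.c
      (.b (.l 66) (.b (.l 66) (.b (.l 66) (.l 66)))) (.l 15)) (.c (.l 47) (.l 15))) (.l 15)) (.c
      (.a (.c (.l 47) (.l 15)) (.c (.l 47) (.l 15))) (.l 15))) (.a (.l 15) (.l 15))))

def y2f_h16 : chk3 (onCell 1610612736 12884901888 0 429496730 0 67108864 (L2 Ff)) y2f_t16 3 1 1 = true := by decide +kernel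

def y1n_t0 : T :=
  (.l 79)

def y1n_h0 : chk3 (onCell 0 2684354560 1610612736 12884901888 0 26843546 (L1 Fnr)) y1n_t0 4 16 2 = true := by decide +kernel

def y1n_t1 : T :=
  (.c (.l 69) (.l 69))

def y1n_h1 : chk3 (onCell 0 2684354560 1610612736 12884901888 0 26843546 (L1 Fnr)) y1n_t1 8 17 2 = true := by decide +kernel

def y1n_t2 : T :=
  (.a (.b (.c (.b (.l 79) (.c (.a (.l 36) (.l 64)) (.a (.l 36) (.l 64)))) (.b (.l 79) (.c (.a (.l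
      36) (.l 64)) (.a (.l 36) (.l 64))))) (.c (.b (.c (.a (.l 36) (.l 64)) (.a (.l 36) (.l 64)))
      (.l 68)) (.b (.c (.a (.l 36) (.l 64)) (.a (.l 36) (.l 64))) (.l 68)))) (.c (.b (.b (.l 79)
      (.c (.a (.l 68) (.l 64)) (.a (.l 68) (.l 64)))) (.b (.a (.l 68) (.l 36)) (.a (.l 68) (.l
      36)))) (.b (.b (.l 79) (.c (.a (.l 68) (.l 64)) (.a (.l 68) (.l 64)))) (.c (.b (.a (.l 68)
      (.l 64)) (.a (.l 68) (.l 64))) (.b (.a (.l 68) (.l 64)) (.a (.l 68) (.l 64)))))))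

def y1n_h2 : chk3 (onCell 0 2684354560 1610612736 12884901888 0 26843546 (L1 Fnr)) y1n_t2 9 17 4 = true := by decide +kernel

def y1n_t3 : T :=
  (.a (.b (.c (.b (.l 79) (.c (.a (.l 36) (.l 64)) (.a (.l 36) (.l 64)))) (.b (.l 68) (.a (.l 36)
      (.l 68)))) (.c (.b (.c (.a (.l 36) (.l 64)) (.a (.l 36) (.l 64))) (.l 68)) (.b (.c (.a (.l
      36) (.l 64)) (.a (.l 36) (.l 64))) (.l 68)))) (.b (.c (.b (.a (.l 79) (.l 64)) (.c (.a (.a
      (.l 64) (.l 64)) (.l 64)) (.a (.a (.l 64) (.l 64)) (.l 64)))) (.b (.a (.c (.a (.l 79) (.l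
      79)) (.a (.l 64) (.l 64))) (.l 64)) (.c (.a (.a (.l 64) (.l 64)) (.l 64)) (.a (.a (.l 64)
      (.l 64)) (.l 32))))) (.c (.c (.b (.a (.l 68) (.l 64)) (.a (.l 68) (.l 64))) (.a (.b (.l 68)
      (.l 68)) (.a (.l 64) (.l 64)))) (.a (.c (.b (.l 68) (.l 68)) (.b (.l 68) (.l 68))) (.a (.l
      64) (.l 64))))))

def y1n_h3 : chk3 (onCell 0 2684354560 1610612736 12884901888 0 26843546 (L1 Fnr)) y1n_t3 9 17 5 = true := by decide +kernel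

def y1n_t4 : T :=
  (.c (.l 79) (.l 79))

def y1n_h4 : chk3 (onCell 0 2684354560 1610612736 12884901888 0 26843546 (L1 Fnr)) y1n_t4 5 16 2 = true := by decide +kernel

def y1n_t5 : T :=
  (.c (.b (.a (.a (.a (.l 64) (.l 64)) (.b (.l 79) (.l 64))) (.a (.b (.l 79) (.a (.l 64) (.l
      64))) (.l 36))) (.a (.a (.a (.l 64) (.l 64)) (.l 36)) (.a (.a (.l 64) (.l 64)) (.l 36))))
      (.a (.b (.a (.a (.l 64) (.l 64)) (.b (.l 79) (.l 64))) (.a (.a (.l 64) (.l 64)) (.l 36)))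
      (.b (.a (.b (.l 79) (.a (.l 64) (.l 64))) (.a (.l 64) (.l 64))) (.a (.a (.l 64) (.l 64))
      (.l 36)))))

def y1n_h5 : chk3 (onCell 0 2684354560 1610612736 12884901888 0 26843546 (L1 Fnr)) y1n_t5 10 17 4 = true := by decide +kernel

def y1n_t6 : T :=
  (.a (.c (.b (.a (.a (.l 64) (.l 64)) (.b (.l 64) (.l 64))) (.a (.a (.l 64) (.l 64)) (.l 36)))
      (.b (.a (.a (.l 64) (.l 64)) (.b (.b (.l 79) (.l 64)) (.l 64))) (.a (.a (.l 64) (.l 64))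
      (.a (.l 64) (.l 32))))) (.c (.b (.a (.b (.a (.l 64) (.l 64)) (.a (.l 64) (.l 32))) (.a (.l
      32) (.l 32))) (.a (.a (.l 64) (.l 64)) (.a (.l 32) (.l 32)))) (.b (.a (.b (.a (.l 64) (.l
      32)) (.a (.l 64) (.l 32))) (.a (.a (.l 32) (.l 32)) (.l 32))) (.a (.a (.l 64) (.l 32)) (.a
      (.a (.l 32) (.l 32)) (.l 32))))))

def y1n_h6 : chk3 (onCell 0 2684354560 1610612736 12884901888 0 26843546 (L1 Fnr)) y1n_t6 10 17 5 = true := by decide +kernel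

def y1n_t7 : T :=
  (.a (.a (.c (.a (.l 36) (.l 36)) (.a (.c (.l 64) (.l 36)) (.l 36))) (.b (.a (.l 36) (.c (.l 64)
      (.l 64))) (.a (.l 36) (.c (.l 64) (.l 32))))) (.a (.c (.b (.c (.a (.b (.l 79) (.l 64)) (.l
      64)) (.a (.a (.l 64) (.l 64)) (.l 64))) (.c (.a (.l 64) (.l 64)) (.a (.l 64) (.l 64)))) (.b
      (.b (.a (.a (.l 64) (.l 64)) (.l 66)) (.a (.a (.l 64) (.l 64)) (.l 66))) (.a (.a (.l 64)
      (.l 64)) (.l 66)))) (.b (.c (.b (.l 79) (.l 66)) (.l 66)) (.c (.c (.l 64) (.l 64)) (.b (.l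
      66) (.l 66))))))

def y1n_h7 : chk3 (onCell 0 2684354560 1610612736 12884901888 0 26843546 (L1 Fnr)) y1n_t7 11 17 4 = true := by decide +kernel

def y1n_t8 : T :=
  (.a (.c (.a (.a (.b (.l 32) (.l 32)) (.l 36)) (.b (.l 36) (.l 36))) (.c (.a (.a (.b (.l 32) (.l
      32)) (.l 36)) (.b (.l 32) (.l 32))) (.b (.a (.l 36) (.l 36)) (.a (.l 32) (.l 32))))) (.a
      (.b (.c (.b (.a (.l 64) (.l 66)) (.a (.l 64) (.l 66))) (.b (.a (.l 32) (.l 64)) (.a (.l 32)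
      (.l 64)))) (.c (.a (.a (.l 32) (.l 64)) (.l 66)) (.a (.a (.l 32) (.l 32)) (.l 64)))) (.b
      (.c (.b (.l 66) (.l 66)) (.b (.l 66) (.l 66))) (.c (.a (.l 66) (.l 66)) (.a (.l 66) (.l
      66))))))

def y1n_h8 : chk3 (onCell 0 2684354560 1610612736 12884901888 0 26843546 (L1 Fnr)) y1n_t8 11 17 5 = true := by decide +kernel

def y1n_t9 : T :=
  (.b (.c (.l 68) (.l 68)) (.c (.b (.c (.l 69) (.l 69)) (.c (.l 68) (.l 69))) (.b (.c (.a (.l 36)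
      (.l 68)) (.a (.l 36) (.l 68))) (.c (.l 69) (.a (.l 36) (.l 68))))))

def y1n_h9 : chk3 (onCell 0 2684354560 1610612736 12884901888 0 26843546 (L1 Fnr)) y1n_t9 8 9 2 = true := by decide +kernel

def y1n_t10 : T :=
  (.c (.a (.b (.l 68) (.a (.l 68) (.l 68))) (.a (.b (.b (.c (.a (.l 64) (.l 64)) (.a (.l 64) (.l
      64))) (.c (.a (.l 64) (.l 64)) (.a (.l 64) (.l 64)))) (.b (.c (.a (.l 64) (.l 64)) (.a (.l
      64) (.l 64))) (.a (.l 68) (.l 64)))) (.b (.a (.l 64) (.l 64)) (.l 36)))) (.a (.b (.l 68)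
      (.a (.l 68) (.l 68))) (.a (.b (.b (.c (.a (.l 64) (.l 64)) (.a (.l 64) (.l 64))) (.c (.a
      (.l 64) (.l 64)) (.a (.l 64) (.l 64)))) (.b (.c (.a (.l 64) (.l 64)) (.a (.l 64) (.l 64)))
      (.c (.a (.l 64) (.l 64)) (.a (.l 64) (.l 64))))) (.b (.a (.l 64) (.l 64)) (.l 36)))))

def y1n_h10 : chk3 (onCell 0 2684354560 1610612736 12884901888 0 26843546 (L1 Fnr)) y1n_t10 9 18 4 = true := by decide +kernel

end Pool.Agent.Strip051.LC.E1.V2
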