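import Pool.Agent.Strip051.LC.E1.V2.Lf

/-! # Rests near the full period: certificates C7 below `2 h0` -/

set_option maxRecDepth 100000

namespace Pool.Agent.Strip051.LC.E1.V2

open Pool.Agent.Strip051.PB
open Pool.Agent.Strip051.LC.E0.Ch (onCell Tree)

def y1n_t11 : T :=
  (.c (.a (.b (.a (.l 68) (.l 68)) (.a (.l 68) (.l 68))) (.b (.a (.a (.c (.l 64) (.l 64)) (.l
      68)) (.l 36)) (.a (.a (.l 68) (.l 68)) (.l 36)))) (.a (.b (.a (.l 68) (.l 68)) (.a (.l 68)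
      (.l 68))) (.b (.a (.c (.a (.l 64) (.l 64)) (.a (.l 64) (.l 64))) (.l 36)) (.a (.c (.a (.l
      64) (.l 64)) (.a (.l 64) (.l 64))) (.l 68)))))

def y1n_h11 : chk3 (onCell 0 2684354560 1610612736 12884901888 0 26843546 (L1 Fnr)) y1n_t11 9 19 4 = true := by decide +kernel

def y1n_t12 : T :=
  (.a (.b (.c (.l 68) (.l 68)) (.c (.a (.l 68) (.l 68)) (.a (.l 68) (.l 68)))) (.a (.b (.b (.c
      (.c (.a (.l 64) (.l 64)) (.a (.l 64) (.l 64))) (.c (.a (.l 64) (.l 64)) (.a (.l 64) (.l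
      64)))) (.c (.c (.a (.l 64) (.l 64)) (.a (.l 64) (.l 64))) (.c (.a (.l 64) (.l 64)) (.a (.l
      64) (.l 64))))) (.c (.b (.c (.a (.l 64) (.l 64)) (.a (.l 64) (.l 64))) (.c (.a (.l 64) (.l
      64)) (.a (.l 64) (.l 64)))) (.b (.c (.a (.l 64) (.l 64)) (.a (.l 64) (.l 64))) (.c (.l 64)
      (.l 64))))) (.b (.b (.a (.c (.l 64) (.l 64)) (.l 36)) (.c (.l 36) (.a (.l 32) (.l 32))))
      (.c (.a (.l 64) (.l 32)) (.a (.l 64) (.l 32))))))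

def y1n_h12 : chk3 (onCell 0 2684354560 1610612736 12884901888 0 26843546 (L1 Fnr)) y1n_t12 9 18 5 = true := by decide +kernel

def y1n_t13 : T :=
  (.a (.c (.b (.a (.l 68) (.l 68)) (.a (.l 68) (.l 68))) (.b (.a (.l 68) (.l 68)) (.a (.l 68) (.l
      68)))) (.c (.b (.a (.c (.a (.l 64) (.l 64)) (.a (.l 64) (.l 64))) (.a (.l 32) (.l 32))) (.a
      (.c (.a (.l 64) (.l 32)) (.l 64)) (.a (.l 32) (.l 32)))) (.b (.a (.c (.a (.l 64) (.l 32))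
      (.b (.l 64) (.l 64))) (.a (.l 32) (.l 32))) (.c (.a (.l 64) (.a (.l 32) (.l 32))) (.a (.l
      64) (.l 32))))))

def y1n_h13 : chk3 (onCell 0 2684354560 1610612736 12884901888 0 26843546 (L1 Fnr)) y1n_t13 9 19 5 = true := by decide +kernel

def y1n_t14 : T :=
  (.a (.a (.c (.b (.a (.l 36) (.l 36)) (.l 36)) (.b (.a (.l 36) (.l 36)) (.a (.l 36) (.l 36))))
      (.c (.a (.a (.c (.l 64) (.l 64)) (.l 36)) (.l 36)) (.a (.a (.c (.l 64) (.l 64)) (.c (.l 64)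
      (.l 64))) (.a (.l 36) (.l 36))))) (.a (.a (.l 36) (.a (.l 36) (.c (.b (.l 64) (.c (.l 64)
      (.l 32))) (.l 36)))) (.a (.c (.b (.c (.a (.l 64) (.l 64)) (.a (.l 64) (.l 64))) (.c (.a (.l
      64) (.l 64)) (.a (.l 64) (.l 64)))) (.b (.a (.a (.l 32) (.l 64)) (.l 66)) (.a (.l 64) (.l
      66)))) (.c (.b (.c (.l 64) (.l 64)) (.a (.l 66) (.l 66))) (.b (.a (.l 66) (.l 66)) (.a (.l
      66) (.l 66)))))))

def y1n_h14 : chk3 (onCell 0 2684354560 1610612736 12884901888 0 26843546 (L1 Fnr)) y1n_t14 5 18 4 = true := by decide +kernel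

def y1n_t15 : T :=
  (.b (.a (.a (.a (.c (.l 36) (.l 36)) (.l 36)) (.a (.c (.a (.l 64) (.l 32)) (.a (.l 32) (.l
      32))) (.c (.a (.l 32) (.l 32)) (.a (.l 32) (.l 32))))) (.a (.a (.c (.l 36) (.a (.l 32) (.l
      32))) (.l 36)) (.a (.c (.a (.l 32) (.l 64)) (.a (.l 32) (.l 64))) (.c (.a (.l 66) (.l 66))
      (.l 66))))) (.a (.c (.a (.a (.l 36) (.l 36)) (.a (.a (.l 32) (.l 32)) (.a (.l 32) (.l
      32)))) (.a (.a (.l 36) (.l 36)) (.a (.a (.l 32) (.l 32)) (.a (.l 32) (.l 32))))) (.a (.a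
      (.c (.l 36) (.a (.l 32) (.l 32))) (.c (.l 36) (.l 36))) (.a (.a (.c (.l 32) (.l 32)) (.c
      (.l 64) (.l 32))) (.a (.l 66) (.c (.l 66) (.l 64)))))))

def y1n_h15 : chk3 (onCell 0 2684354560 1610612736 12884901888 0 26843546 (L1 Fnr)) y1n_t15 5 18 5 = true := by decide +kernel

def y1n_t16 : T :=
  (.c (.a (.a (.a (.l 36) (.l 36)) (.a (.a (.l 36) (.l 36)) (.l 36))) (.a (.a (.l 36) (.a (.l 36)
      (.b (.c (.l 64) (.l 32)) (.c (.l 64) (.l 32))))) (.a (.b (.c (.a (.l 64) (.l 64)) (.l 66))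
      (.c (.a (.l 66) (.l 64)) (.l 66))) (.b (.a (.l 66) (.l 66)) (.a (.l 66) (.l 66)))))) (.a
      (.a (.a (.l 36) (.l 36)) (.a (.a (.c (.l 64) (.l 64)) (.c (.l 32) (.l 32))) (.a (.l 36) (.l
      36)))) (.a (.a (.l 36) (.l 36)) (.a (.b (.a (.l 64) (.l 64)) (.a (.l 64) (.l 64))) (.b (.a
      (.l 66) (.l 66)) (.l 66))))))

def y1n_h16 : chk3 (onCell 0 2684354560 1610612736 12884901888 0 26843546 (L1 Fnr)) y1n_t16 5 19 4 = true := by decide +kernel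

def y1n_t17 : T :=
  (.a (.c (.a (.a (.l 36) (.l 36)) (.a (.a (.b (.l 32) (.l 32)) (.b (.l 32) (.l 32))) (.a (.c (.l
      32) (.l 32)) (.c (.l 32) (.l 32))))) (.a (.b (.a (.l 36) (.l 36)) (.a (.c (.l 32) (.l 32))
      (.l 36))) (.a (.b (.a (.l 32) (.l 32)) (.l 36)) (.b (.a (.l 32) (.l 32)) (.l 36))))) (.b
      (.a (.c (.a (.l 36) (.l 36)) (.c (.a (.l 32) (.l 32)) (.b (.a (.l 32) (.l 32)) (.c (.a (.l
      32) (.l 32)) (.a (.l 32) (.l 32)))))) (.a (.a (.c (.l 32) (.l 32)) (.c (.l 64) (.l 32)))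
      (.a (.c (.l 64) (.l 64)) (.l 66)))) (.a (.c (.a (.l 36) (.l 36)) (.c (.a (.l 32) (.l 32))
      (.b (.a (.l 32) (.l 32)) (.a (.l 32) (.l 32))))) (.a (.a (.c (.l 32) (.l 32)) (.c (.l 32)
      (.l 32))) (.a (.c (.l 64) (.l 32)) (.c (.l 64) (.l 66)))))))

def y1n_h17 : chk3 (onCell 0 2684354560 1610612736 12884901888 0 26843546 (L1 Fnr)) y1n_t17 5 19 5 = true := by decide +kernel

def y1n_t18 : T :=
  (.c (.l 79) (.l 79))

def y1n_h18 : chk3 (onCell 0 2684354560 1610612736 12884901888 0 26843546 (L1 Fnr)) y1n_t18 4 16 3 = true := by decide +kernel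

def y1n_t19 : T :=
  (.c (.b (.l 68) (.l 68)) (.b (.l 68) (.l 68)))

def y1n_h19 : chk3 (onCell 0 2684354560 1610612736 12884901888 0 26843546 (L1 Fnr)) y1n_t19 8 17 3 = true := by decide +kernel

def y1n_t20 : T :=
  (.a (.b (.c (.b (.l 68) (.a (.l 36) (.l 64))) (.b (.l 68) (.a (.l 36) (.l 64)))) (.c (.b (.c
      (.a (.l 64) (.l 64)) (.a (.l 64) (.l 64))) (.l 68)) (.b (.c (.a (.l 64) (.l 64)) (.a (.l
      64) (.l 64))) (.l 68)))) (.b (.c (.b (.a (.c (.a (.l 64) (.l 64)) (.a (.l 64) (.l 64))) (.l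
      64)) (.c (.a (.a (.l 64) (.l 64)) (.l 32)) (.a (.a (.l 64) (.l 64)) (.l 32)))) (.b (.a (.c
      (.a (.l 64) (.l 64)) (.a (.l 64) (.l 64))) (.l 64)) (.c (.a (.a (.l 64) (.l 64)) (.l 32))
      (.a (.a (.l 64) (.l 64)) (.l 32))))) (.c (.a (.c (.b (.l 68) (.l 64)) (.b (.a (.l 64) (.l
      64)) (.l 64))) (.b (.l 36) (.a (.l 64) (.l 64)))) (.a (.c (.b (.l 64) (.l 64)) (.b (.l 64)
      (.l 64))) (.b (.b (.l 64) (.l 64)) (.a (.l 64) (.l 32)))))))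

def y1n_h20 : chk3 (onCell 0 2684354560 1610612736 12884901888 0 26843546 (L1 Fnr)) y1n_t20 9 17 6 = true := by decide +kernel

def y1n_t21 : T :=
  (.a (.b (.c (.b (.l 68) (.a (.l 36) (.l 64))) (.b (.l 68) (.a (.l 36) (.l 64)))) (.c (.b (.c
      (.a (.l 64) (.l 64)) (.a (.l 64) (.l 64))) (.l 68)) (.b (.c (.a (.l 64) (.l 64)) (.a (.l
      64) (.l 64))) (.l 68)))) (.b (.c (.b (.a (.c (.a (.l 64) (.l 64)) (.a (.l 64) (.l 64))) (.l
      64)) (.a (.c (.a (.l 64) (.l 64)) (.a (.l 64) (.l 64))) (.l 68))) (.b (.a (.c (.a (.l 64)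
      (.l 64)) (.a (.l 64) (.l 64))) (.c (.l 32) (.l 32))) (.a (.c (.l 64) (.l 64)) (.c (.l 32)
      (.l 64))))) (.c (.a (.c (.b (.l 64) (.l 64)) (.b (.l 64) (.l 64))) (.b (.b (.l 64) (.c (.l
      64) (.l 64))) (.a (.l 64) (.l 32)))) (.a (.c (.b (.l 64) (.l 64)) (.b (.l 64) (.l 64))) (.b
      (.b (.l 64) (.c (.l 64) (.l 64))) (.a (.l 64) (.l 32)))))))

def y1n_h21 : chk3 (onCell 0 2684354560 1610612736 12884901888 0 26843546 (L1 Fnr)) y1n_t21 9 17 7 = true := by decide +kernel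

def y1n_t22 : T :=
  (.c (.a (.l 79) (.b (.l 79) (.l 79))) (.a (.b (.l 79) (.l 79)) (.b (.l 79) (.b (.l 79) (.c (.l
      79) (.a (.l 79) (.a (.l 79) (.a (.l 66) (.l 66)))))))))

def y1n_h22 : chk3 (onCell 0 2684354560 1610612736 12884901888 0 26843546 (L1 Fnr)) y1n_t22 5 16 3 = true := by decide +kernel

def y1n_t23 : T :=
  (.a (.a (.a (.c (.a (.l 64) (.b (.l 64) (.l 64))) (.a (.l 64) (.b (.l 64) (.l 64)))) (.b (.b
      (.l 79) (.a (.l 64) (.l 64))) (.c (.a (.l 64) (.l 32)) (.a (.l 64) (.l 32))))) (.a (.c (.b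
      (.a (.l 64) (.l 32)) (.a (.l 32) (.l 32))) (.b (.a (.l 64) (.l 32)) (.a (.l 32) (.l 32))))
      (.a (.c (.a (.l 32) (.l 32)) (.a (.l 32) (.c (.l 32) (.l 32)))) (.c (.a (.l 32) (.l 32))
      (.a (.c (.l 32) (.l 32)) (.l 32)))))) (.a (.c (.a (.a (.l 36) (.l 36)) (.l 36)) (.b (.a (.l
      36) (.l 32)) (.a (.l 36) (.l 32)))) (.a (.c (.a (.a (.l 32) (.l 32)) (.a (.l 64) (.l 64)))
      (.a (.c (.l 32) (.l 32)) (.a (.c (.l 32) (.l 32)) (.l 64)))) (.b (.c (.a (.l 66) (.l 0))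
      (.a (.l 64) (.l 66))) (.a (.l 66) (.l 66))))))

def y1n_h23 : chk3 (onCell 0 2684354560 1610612736 12884901888 0 26843546 (L1 Fnr)) y1n_t23 5 34 6 = true := by decide +kernel

def y1n_t24 : T :=
  (.a (.a (.a (.b (.c (.a (.l 64) (.l 32)) (.a (.l 64) (.l 32))) (.c (.l 36) (.l 36))) (.c (.a
      (.l 32) (.l 32)) (.a (.l 32) (.l 32)))) (.c (.a (.a (.l 32) (.l 32)) (.a (.a (.l 32) (.l
      32)) (.c (.l 32) (.l 32)))) (.a (.a (.l 32) (.l 32)) (.a (.l 32) (.c (.l 32) (.l 32))))))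
      (.a (.c (.a (.a (.l 32) (.l 32)) (.l 36)) (.c (.b (.a (.l 32) (.l 32)) (.a (.l 32) (.l
      32))) (.b (.a (.l 32) (.l 32)) (.a (.l 32) (.l 32))))) (.a (.c (.a (.l 32) (.l 64)) (.a (.a
      (.l 32) (.l 32)) (.a (.l 32) (.l 32)))) (.a (.c (.l 64) (.l 66)) (.c (.l 66) (.l 66))))))

def y1n_h24 : chk3 (onCell 0 2684354560 1610612736 12884901888 0 26843546 (L1 Fnr)) y1n_t24 5 35 6 = true := by decide +kernel

def y1n_t25 : T :=
  (.b (.a (.c (.a (.l 64) (.b (.l 64) (.l 64))) (.a (.b (.l 32) (.l 64)) (.b (.l 64) (.l 64))))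
      (.b (.b (.c (.l 64) (.l 64)) (.c (.l 64) (.l 64))) (.c (.a (.l 32) (.l 32)) (.a (.l 32) (.l
      32))))) (.a (.b (.c (.a (.l 64) (.l 32)) (.a (.l 32) (.l 32))) (.c (.a (.l 32) (.l 32)) (.a
      (.l 32) (.l 32)))) (.c (.a (.l 32) (.l 32)) (.b (.l 32) (.l 32)))))

def y1n_h25 : chk3 (onCell 0 2684354560 1610612736 12884901888 0 26843546 (L1 Fnr)) y1n_t25 20 17 7 = true := by decide +kernel

def y1n_t26 : T :=
  (.b (.a (.b (.c (.a (.l 64) (.l 32)) (.a (.l 64) (.l 32))) (.c (.a (.l 32) (.l 32)) (.c (.l 64)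
      (.l 32)))) (.c (.a (.a (.l 32) (.c (.l 32) (.l 32))) (.a (.c (.l 32) (.l 32)) (.c (.l 32)
      (.l 32)))) (.a (.c (.a (.l 32) (.l 32)) (.b (.l 32) (.l 32))) (.c (.b (.l 32) (.l 32)) (.b
      (.l 32) (.l 32)))))) (.c (.c (.a (.a (.l 32) (.l 32)) (.b (.l 32) (.l 32))) (.b (.a (.l 32)
      (.l 32)) (.a (.l 32) (.l 32)))) (.c (.b (.a (.l 32) (.l 32)) (.a (.l 32) (.l 32))) (.b (.a
      (.l 32) (.l 32)) (.a (.l 32) (.l 32))))))

def y1n_h26 : chk3 (onCell 0 2684354560 1610612736 12884901888 0 26843546 (L1 Fnr)) y1n_t26 21 17 7 = true := by decide +kernel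

def y1n_t27 : T :=
  (.b (.a (.c (.a (.l 36) (.a (.l 32) (.l 32))) (.a (.c (.a (.l 32) (.l 32)) (.a (.l 32) (.l
      32))) (.a (.l 32) (.l 32)))) (.a (.c (.a (.l 32) (.l 32)) (.c (.a (.l 32) (.l 32)) (.a (.l
      32) (.l 32)))) (.c (.a (.l 64) (.l 66)) (.a (.l 64) (.l 66))))) (.c (.a (.a (.c (.l 32) (.a
      (.l 32) (.l 32))) (.a (.l 32) (.l 32))) (.a (.a (.l 32) (.l 32)) (.a (.l 64) (.l 64)))) (.a
      (.a (.c (.a (.l 32) (.l 32)) (.a (.l 32) (.l 32))) (.a (.l 32) (.l 32))) (.a (.a (.l 32)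
      (.l 32)) (.a (.l 64) (.l 64))))))

def y1n_h27 : chk3 (onCell 0 2684354560 1610612736 12884901888 0 26843546 (L1 Fnr)) y1n_t27 11 34 7 = true := by decide +kernel

def y1n_t28 : T :=
  (.c (.a (.b (.c (.a (.l 32) (.l 32)) (.a (.a (.l 32) (.l 32)) (.l 32))) (.c (.a (.l 32) (.l
      32)) (.a (.l 32) (.l 32)))) (.a (.a (.a (.l 32) (.l 32)) (.a (.l 32) (.l 32))) (.a (.l 66)
      (.l 66)))) (.a (.b (.c (.a (.a (.l 32) (.l 32)) (.l 32)) (.a (.l 32) (.l 32))) (.c (.a (.l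
      32) (.l 32)) (.b (.a (.l 32) (.l 32)) (.a (.l 32) (.l 32))))) (.a (.c (.a (.l 32) (.a (.l
      32) (.l 32))) (.a (.a (.l 32) (.l 32)) (.a (.l 32) (.l 32)))) (.a (.l 66) (.l 66)))))

def y1n_h28 : chk3 (onCell 0 2684354560 1610612736 12884901888 0 26843546 (L1 Fnr)) y1n_t28 11 35 7 = true := by decide +kernel

def y1n_t29 : T :=
  (.c (.l 69) (.b (.l 68) (.l 36)))

def y1n_h29 : chk3 (onCell 0 2684354560 1610612736 12884901888 0 26843546 (L1 Fnr)) y1n_t29 8 18 3 = true := by decide +kernel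

def y1n_t30 : T :=
  (.a (.b (.c (.l 68) (.a (.l 68) (.l 68))) (.c (.a (.l 68) (.l 68)) (.a (.l 68) (.l 68)))) (.a
      (.b (.b (.c (.c (.a (.l 64) (.l 64)) (.l 64)) (.c (.l 64) (.l 64))) (.c (.c (.a (.l 64) (.l
      64)) (.l 64)) (.c (.l 64) (.l 64)))) (.c (.b (.c (.l 64) (.l 64)) (.c (.l 64) (.l 64))) (.b
      (.c (.l 64) (.l 64)) (.c (.l 64) (.l 64))))) (.b (.b (.a (.c (.l 64) (.l 64)) (.l 36)) (.c
      (.a (.l 32) (.l 32)) (.a (.l 32) (.l 32)))) (.c (.a (.l 32) (.l 32)) (.c (.a (.l 32) (.l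
      32)) (.a (.l 32) (.l 32)))))))

def y1n_h30 : chk3 (onCell 0 2684354560 1610612736 12884901888 0 26843546 (L1 Fnr)) y1n_t30 9 18 6 = true := by decide +kernel

def y1n_t31 : T :=
  (.a (.b (.c (.a (.l 68) (.l 68)) (.a (.l 68) (.l 68))) (.c (.a (.l 36) (.l 68)) (.a (.l 36) (.l
      68)))) (.a (.b (.b (.c (.c (.l 64) (.l 64)) (.c (.l 64) (.l 64))) (.c (.c (.l 64) (.l 64))
      (.c (.l 64) (.l 64)))) (.c (.b (.a (.l 64) (.l 64)) (.l 64)) (.b (.a (.l 64) (.l 64)) (.l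
      64)))) (.b (.c (.b (.a (.l 64) (.l 32)) (.c (.a (.l 32) (.l 32)) (.a (.l 32) (.l 32)))) (.b
      (.a (.l 64) (.l 32)) (.c (.l 64) (.l 64)))) (.c (.c (.a (.l 32) (.l 32)) (.b (.l 32) (.l
      32))) (.b (.l 32) (.l 32))))))

def y1n_h31 : chk3 (onCell 0 2684354560 1610612736 12884901888 0 26843546 (L1 Fnr)) y1n_t31 9 18 7 = true := by decide +kernel

def y1n_t32 : T :=
  (.a (.b (.a (.l 36) (.l 68)) (.c (.a (.l 36) (.l 68)) (.a (.l 36) (.l 68)))) (.a (.c (.b (.a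
      (.l 36) (.l 68)) (.a (.l 68) (.l 68))) (.b (.a (.l 36) (.l 68)) (.a (.l 68) (.l 68)))) (.c
      (.b (.a (.c (.b (.l 64) (.l 64)) (.b (.l 64) (.l 64))) (.c (.a (.l 32) (.l 32)) (.a (.l 32)
      (.l 32)))) (.c (.a (.l 64) (.l 32)) (.a (.l 64) (.l 32)))) (.b (.c (.b (.a (.l 64) (.l 32))
      (.a (.l 64) (.l 32))) (.b (.a (.l 64) (.l 32)) (.a (.l 64) (.l 32)))) (.a (.c (.l 64) (.l
      64)) (.c (.l 32) (.l 32)))))))

def y1n_h32 : chk3 (onCell 0 2684354560 1610612736 12884901888 0 26843546 (L1 Fnr)) y1n_t32 4 19 6 = true := by decide +kernel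

def y1n_t33 : T :=
  (.a (.b (.a (.l 36) (.c (.l 68) (.l 68))) (.c (.a (.l 36) (.l 68)) (.a (.l 36) (.l 68)))) (.a
      (.c (.a (.b (.l 36) (.l 68)) (.b (.l 68) (.l 68))) (.a (.b (.l 36) (.l 68)) (.b (.l 68) (.l
      68)))) (.b (.c (.b (.c (.a (.l 64) (.l 32)) (.a (.l 64) (.l 32))) (.c (.a (.l 64) (.l 32))
      (.a (.l 64) (.l 32)))) (.b (.a (.l 64) (.l 32)) (.c (.a (.l 64) (.l 32)) (.a (.l 64) (.l
      32))))) (.c (.b (.a (.l 64) (.l 32)) (.a (.l 64) (.l 32))) (.b (.a (.l 64) (.l 32)) (.a (.l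
      64) (.l 32)))))))

def y1n_h33 : chk3 (onCell 0 2684354560 1610612736 12884901888 0 26843546 (L1 Fnr)) y1n_t33 4 19 7 = true := by decide +kernel

def y1n_t34 : T :=
  (.a (.c (.b (.a (.l 36) (.l 36)) (.a (.l 36) (.l 36))) (.b (.a (.a (.l 32) (.l 32)) (.l 36))
      (.c (.a (.l 32) (.l 32)) (.b (.l 36) (.a (.l 32) (.l 32)))))) (.c (.b (.a (.a (.l 32) (.l
      32)) (.a (.l 32) (.l 32))) (.a (.a (.l 32) (.l 32)) (.a (.l 32) (.l 32)))) (.b (.c (.a (.l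
      32) (.l 32)) (.b (.a (.l 32) (.l 32)) (.a (.l 32) (.l 32)))) (.c (.a (.l 32) (.l 32)) (.a
      (.l 32) (.l 32))))))

def y1n_h34 : chk3 (onCell 0 2684354560 1610612736 12884901888 0 26843546 (L1 Fnr)) y1n_t34 10 18 6 = true := by decide +kernel

def y1n_t35 : T :=
  (.c (.a (.c (.a (.a (.l 32) (.l 32)) (.l 32)) (.b (.a (.l 32) (.l 32)) (.c (.a (.l 32) (.l 32))
      (.b (.a (.l 32) (.l 32)) (.a (.l 32) (.l 32)))))) (.a (.a (.l 32) (.l 32)) (.l 66))) (.a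
      (.c (.b (.a (.l 32) (.l 32)) (.c (.b (.a (.l 32) (.l 32)) (.a (.l 32) (.l 32))) (.b (.a (.l
      32) (.l 32)) (.a (.l 32) (.l 32))))) (.b (.a (.l 32) (.l 32)) (.c (.a (.l 32) (.l 32)) (.a
      (.l 32) (.l 32))))) (.a (.a (.a (.l 32) (.l 32)) (.a (.l 32) (.l 32))) (.l 66))))

def y1n_h35 : chk3 (onCell 0 2684354560 1610612736 12884901888 0 26843546 (L1 Fnr)) y1n_t35 11 36 6 = true := by decide +kernel

def y1n_t36 : T :=
  (.c (.a (.c (.b (.a (.l 32) (.l 32)) (.c (.a (.l 32) (.l 32)) (.a (.l 32) (.l 32)))) (.b (.c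
      (.b (.a (.l 32) (.l 32)) (.a (.l 32) (.l 32))) (.a (.l 32) (.l 32))) (.a (.l 32) (.l 32))))
      (.a (.a (.l 32) (.l 32)) (.l 66))) (.a (.a (.a (.l 32) (.l 32)) (.a (.l 32) (.l 32))) (.a
      (.a (.l 32) (.a (.l 32) (.l 32))) (.a (.l 32) (.l 66)))))

def y1n_h36 : chk3 (onCell 0 2684354560 1610612736 12884901888 0 26843546 (L1 Fnr)) y1n_t36 11 37 6 = true := by decide +kernel

def y1n_t37 : T :=
  (.b (.a (.c (.b (.a (.l 32) (.l 32)) (.c (.a (.l 32) (.l 32)) (.a (.l 32) (.l 32)))) (.b (.a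
      (.l 32) (.l 32)) (.a (.c (.l 32) (.l 32)) (.l 32)))) (.c (.c (.b (.a (.l 32) (.l 32)) (.a
      (.l 32) (.l 32))) (.b (.a (.l 32) (.l 32)) (.a (.l 32) (.l 32)))) (.c (.a (.b (.l 32) (.l
      32)) (.b (.l 32) (.l 32))) (.a (.b (.l 32) (.l 32)) (.a (.l 32) (.l 32)))))) (.a (.c (.b
      (.c (.a (.l 32) (.l 32)) (.a (.l 32) (.l 32))) (.c (.a (.l 32) (.l 32)) (.a (.l 32) (.l
      32)))) (.b (.a (.c (.l 32) (.l 32)) (.l 32)) (.a (.c (.l 32) (.l 32)) (.l 32)))) (.c (.a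
      (.c (.l 32) (.l 32)) (.c (.l 32) (.l 32))) (.c (.a (.l 32) (.l 32)) (.a (.l 32) (.l 32))))))

def y1n_h37 : chk3 (onCell 0 2684354560 1610612736 12884901888 0 26843546 (L1 Fnr)) y1n_t37 10 18 7 = true := by decide +kernel

def y1n_t38 : T :=
  (.b (.c (.a (.b (.c (.a (.l 32) (.l 32)) (.b (.a (.l 32) (.l 32)) (.a (.l 32) (.l 32)))) (.c
      (.a (.l 32) (.l 32)) (.a (.l 32) (.l 32)))) (.a (.a (.b (.l 32) (.l 32)) (.a (.b (.l 32)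
      (.l 32)) (.l 32))) (.a (.l 34) (.l 66)))) (.a (.a (.b (.l 32) (.l 32)) (.c (.a (.l 32) (.l
      32)) (.b (.l 32) (.l 32)))) (.a (.a (.c (.l 32) (.l 32)) (.c (.a (.l 32) (.l 32)) (.a (.l
      32) (.l 32)))) (.a (.c (.l 32) (.l 34)) (.c (.l 66) (.l 66)))))) (.c (.a (.a (.a (.l 32)
      (.l 32)) (.b (.l 32) (.l 32))) (.a (.a (.l 32) (.b (.l 32) (.l 32))) (.a (.l 34) (.l 66))))
      (.a (.a (.b (.l 32) (.l 32)) (.b (.l 32) (.c (.l 32) (.l 32)))) (.a (.a (.b (.l 32) (.l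
      32)) (.b (.l 32) (.l 32))) (.a (.b (.l 32) (.l 32)) (.l 34))))))

def y1n_h38 : chk3 (onCell 0 2684354560 1610612736 12884901888 0 26843546 (L1 Fnr)) y1n_t38 11 18 7 = true := by decide +kernel

end Pool.Agent.Strip051.LC.E1.V2
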