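import Pool.Agent.Strip051.LC.E1.V2.Lf

/-! # Rests near the full period: certificates C8 below `2 h0` -/

set_option maxRecDepth 100000

namespace Pool.Agent.Strip051.LC.E1.V2

open Pool.Agent.Strip051.PB
open Pool.Agent.Strip051.LC.E0.Ch (onCell Tree)

def y1n_t39 : T :=
  (.b (.a (.c (.a (.c (.l 32) (.l 32)) (.l 36)) (.c (.b (.a (.l 32) (.l 32)) (.a (.l 32) (.l
      32))) (.b (.a (.l 32) (.l 32)) (.a (.l 32) (.l 32))))) (.c (.c (.a (.l 32) (.l 32)) (.a (.l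
      32) (.l 32))) (.a (.c (.l 32) (.l 32)) (.c (.l 32) (.l 32))))) (.a (.c (.a (.c (.l 32) (.l
      32)) (.c (.l 32) (.l 32))) (.c (.b (.a (.l 32) (.l 32)) (.a (.l 32) (.l 32))) (.b (.a (.l
      32) (.l 32)) (.a (.l 32) (.l 32))))) (.c (.c (.a (.l 32) (.l 32)) (.a (.l 32) (.l 32))) (.a
      (.c (.l 32) (.l 32)) (.c (.l 32) (.l 32))))))

def y1n_h39 : chk3 (onCell 0 2684354560 1610612736 12884901888 0 26843546 (L1 Fnr)) y1n_t39 10 19 6 = true := by decide +kernel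

def y1n_t40 : T :=
  (.b (.c (.a (.a (.c (.l 32) (.l 32)) (.a (.l 32) (.l 32))) (.a (.a (.l 32) (.l 32)) (.a (.l 32)
      (.l 66)))) (.a (.a (.c (.l 32) (.l 32)) (.c (.l 32) (.l 32))) (.a (.a (.l 32) (.l 34)) (.a
      (.l 34) (.l 34))))) (.c (.a (.a (.b (.l 32) (.l 32)) (.a (.l 32) (.l 32))) (.a (.a (.l 32)
      (.l 32)) (.a (.l 34) (.l 34)))) (.a (.a (.c (.l 32) (.l 32)) (.c (.l 32) (.a (.l 32) (.l
      32)))) (.a (.a (.a (.l 32) (.l 32)) (.l 34)) (.a (.l 34) (.l 34))))))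

def y1n_h40 : chk3 (onCell 0 2684354560 1610612736 12884901888 0 26843546 (L1 Fnr)) y1n_t40 11 19 6 = true := by decide +kernel

def y1n_t41 : T :=
  (.b (.c (.a (.b (.c (.a (.l 32) (.l 32)) (.a (.l 32) (.l 32))) (.c (.a (.l 32) (.l 32)) (.a (.l
      32) (.l 32)))) (.b (.a (.l 32) (.l 32)) (.a (.l 32) (.l 32)))) (.a (.b (.a (.l 32) (.l 32))
      (.c (.a (.l 32) (.l 32)) (.a (.l 32) (.l 32)))) (.b (.a (.l 32) (.l 32)) (.a (.l 32) (.l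
      32))))) (.c (.a (.b (.c (.a (.l 32) (.l 32)) (.a (.l 32) (.l 32))) (.c (.a (.l 32) (.l 32))
      (.a (.l 32) (.l 32)))) (.b (.a (.l 32) (.l 32)) (.a (.l 32) (.l 32)))) (.a (.b (.a (.l 32)
      (.l 32)) (.a (.l 32) (.l 32))) (.b (.a (.l 32) (.l 32)) (.a (.l 32) (.l 32))))))

def y1n_h41 : chk3 (onCell 0 2684354560 1610612736 12884901888 0 26843546 (L1 Fnr)) y1n_t41 10 19 7 = true := by decide +kernel

def y1n_t42 : T :=
  (.b (.c (.a (.a (.c (.l 32) (.l 32)) (.c (.l 32) (.a (.l 32) (.l 32)))) (.a (.a (.c (.l 32) (.l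
      32)) (.c (.l 32) (.l 32))) (.a (.l 34) (.l 34)))) (.a (.a (.c (.b (.l 32) (.l 32)) (.b (.l
      32) (.l 32))) (.c (.a (.l 32) (.l 32)) (.b (.l 32) (.l 32)))) (.a (.a (.c (.l 32) (.l 32))
      (.c (.l 32) (.l 32))) (.a (.l 34) (.l 34))))) (.c (.a (.a (.c (.b (.l 32) (.l 32)) (.b (.l
      32) (.l 32))) (.c (.a (.l 32) (.l 32)) (.b (.l 32) (.l 32)))) (.a (.a (.c (.l 32) (.l 32))
      (.l 34)) (.a (.l 34) (.l 34)))) (.a (.a (.c (.b (.l 32) (.l 32)) (.b (.l 32) (.l 32))) (.c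
      (.b (.l 32) (.l 32)) (.b (.l 32) (.l 32)))) (.a (.a (.c (.l 32) (.l 32)) (.c (.l 32) (.l
      32))) (.a (.l 34) (.l 34))))))

def y1n_h42 : chk3 (onCell 0 2684354560 1610612736 12884901888 0 26843546 (L1 Fnr)) y1n_t42 11 19 7 = true := by decide +kernel

def y1n_t43 : T :=
  (.a (.a (.l 79) (.l 79)) (.c (.l 79) (.b (.l 79) (.l 79))))

def y1n_h43 : chk3 (onCell 0 2684354560 1610612736 12884901888 0 26843546 (L1 Fnr)) y1n_t43 6 16 2 = true := by decide +kernel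

def y1n_t44 : T :=
  (.a (.a (.b (.a (.c (.b (.l 79) (.l 66)) (.b (.l 66) (.l 66))) (.b (.c (.l 79) (.l 66)) (.c (.l
      66) (.l 66)))) (.a (.c (.b (.l 66) (.l 66)) (.b (.l 66) (.l 66))) (.c (.l 66) (.l 66))))
      (.b (.a (.b (.c (.l 79) (.l 66)) (.l 66)) (.b (.l 66) (.l 66))) (.a (.b (.l 66) (.l 66))
      (.b (.l 66) (.l 66))))) (.c (.a (.b (.a (.l 66) (.l 66)) (.l 66)) (.b (.l 66) (.l 66))) (.b
      (.a (.a (.l 66) (.l 66)) (.b (.l 66) (.l 66))) (.a (.l 66) (.l 66)))))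

def y1n_h44 : chk3 (onCell 0 2684354560 1610612736 12884901888 0 26843546 (L1 Fnr)) y1n_t44 6 17 4 = true := by decide +kernel

def y1n_t45 : T :=
  (.a (.a (.b (.a (.c (.b (.l 66) (.l 66)) (.b (.l 66) (.l 66))) (.b (.c (.l 66) (.l 66)) (.c (.l
      66) (.l 66)))) (.a (.c (.l 66) (.b (.l 66) (.l 2))) (.b (.c (.l 66) (.l 66)) (.c (.l 66)
      (.l 66))))) (.a (.b (.b (.c (.l 66) (.l 66)) (.c (.l 66) (.l 66))) (.b (.c (.l 66) (.l 66))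
      (.c (.l 66) (.l 66)))) (.b (.b (.l 66) (.l 66)) (.b (.l 66) (.a (.l 66) (.l 66)))))) (.a
      (.b (.b (.a (.l 66) (.l 66)) (.a (.l 66) (.l 66))) (.a (.b (.l 66) (.l 66)) (.b (.l 66) (.l
      66)))) (.b (.b (.a (.l 66) (.l 66)) (.a (.l 66) (.l 66))) (.a (.b (.l 66) (.l 66)) (.b (.l
      66) (.l 66))))))

def y1n_h45 : chk3 (onCell 0 2684354560 1610612736 12884901888 0 26843546 (L1 Fnr)) y1n_t45 6 17 5 = true := by decide +kernel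

def y1n_t46 : T :=
  (.b (.c (.l 79) (.a (.b (.l 79) (.a (.l 79) (.b (.l 79) (.l 79)))) (.b (.l 79) (.c (.l 79) (.c
      (.l 79) (.b (.l 79) (.l 66))))))) (.c (.a (.c (.b (.a (.l 66) (.l 66)) (.a (.l 66) (.l
      66))) (.b (.a (.l 66) (.l 66)) (.a (.l 66) (.l 66)))) (.c (.b (.a (.l 66) (.l 66)) (.l 66))
      (.b (.a (.l 66) (.l 66)) (.a (.l 66) (.l 66))))) (.c (.a (.b (.a (.l 66) (.l 66)) (.a (.l
      66) (.l 66))) (.b (.a (.l 66) (.l 66)) (.a (.l 66) (.l 66)))) (.c (.a (.b (.a (.l 66) (.l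
      66)) (.a (.l 66) (.l 66))) (.c (.a (.b (.l 66) (.l 66)) (.b (.l 66) (.l 66))) (.b (.a (.l
      66) (.l 66)) (.l 66)))) (.a (.b (.a (.l 66) (.l 66)) (.a (.l 66) (.l 66))) (.b (.a (.l 66)
      (.l 66)) (.a (.l 66) (.l 66))))))))

def y1n_h46 : chk3 (onCell 0 2684354560 1610612736 12884901888 0 26843546 (L1 Fnr)) y1n_t46 7 8 2 = true := by decide +kernel

def y1n_t47 : T :=
  (.c (.a (.a (.b (.a (.b (.a (.l 66) (.l 66)) (.a (.l 66) (.l 66))) (.b (.l 66) (.l 66))) (.a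
      (.b (.a (.l 66) (.l 66)) (.a (.l 66) (.l 66))) (.b (.l 66) (.l 66)))) (.b (.a (.b (.l 66)
      (.l 66)) (.b (.l 66) (.l 66))) (.a (.b (.l 66) (.l 66)) (.l 66)))) (.b (.a (.b (.l 66) (.l
      66)) (.b (.l 66) (.l 66))) (.a (.a (.l 66) (.l 66)) (.b (.l 66) (.l 66))))) (.a (.b (.a (.a
      (.b (.l 66) (.l 66)) (.b (.l 66) (.l 66))) (.b (.a (.l 66) (.l 66)) (.a (.l 66) (.l 66))))
      (.a (.a (.b (.l 66) (.l 66)) (.b (.l 66) (.l 66))) (.a (.b (.l 66) (.l 66)) (.b (.l 66) (.l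
      66))))) (.b (.a (.b (.l 66) (.l 66)) (.b (.l 66) (.l 66))) (.a (.b (.l 66) (.l 66)) (.b (.l
      66) (.l 66))))))

def y1n_h47 : chk3 (onCell 0 2684354560 1610612736 12884901888 0 26843546 (L1 Fnr)) y1n_t47 6 9 4 = true := by decide +kernel

def y1n_t48 : T :=
  (.a (.b (.a (.a (.c (.l 66) (.l 66)) (.b (.c (.l 66) (.l 66)) (.c (.l 66) (.l 66)))) (.a (.b
      (.c (.l 66) (.l 66)) (.c (.l 66) (.l 66))) (.b (.c (.l 66) (.l 66)) (.c (.l 66) (.l 66)))))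
      (.a (.a (.a (.c (.l 2) (.l 66)) (.b (.l 66) (.l 66))) (.a (.b (.l 66) (.l 66)) (.b (.l 66)
      (.l 66)))) (.a (.b (.a (.l 66) (.l 66)) (.a (.l 66) (.l 66))) (.b (.a (.l 66) (.l 66)) (.a
      (.l 66) (.l 66)))))) (.c (.a (.b (.l 66) (.a (.l 66) (.l 66))) (.b (.l 66) (.l 66))) (.c
      (.a (.b (.l 66) (.l 66)) (.b (.l 66) (.l 66))) (.a (.b (.l 66) (.l 66)) (.b (.l 66) (.l
      66))))))

def y1n_h48 : chk3 (onCell 0 2684354560 1610612736 12884901888 0 26843546 (L1 Fnr)) y1n_t48 6 18 5 = true := by decide +kernel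

def y1n_t49 : T :=
  (.b (.a (.a (.a (.b (.l 66) (.l 66)) (.b (.l 66) (.l 66))) (.a (.b (.l 66) (.l 66)) (.b (.l 66)
      (.l 66)))) (.a (.a (.b (.l 66) (.l 66)) (.b (.l 66) (.l 66))) (.a (.b (.l 66) (.l 66)) (.b
      (.l 66) (.l 66))))) (.a (.a (.a (.c (.l 66) (.l 66)) (.c (.l 66) (.l 66))) (.a (.c (.l 66)
      (.l 66)) (.b (.l 66) (.l 66)))) (.a (.a (.b (.l 66) (.l 66)) (.b (.l 66) (.l 66))) (.a (.b
      (.l 66) (.l 66)) (.b (.l 66) (.l 66))))))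

def y1n_h49 : chk3 (onCell 0 2684354560 1610612736 12884901888 0 26843546 (L1 Fnr)) y1n_t49 12 19 5 = true := by decide +kernel

def y1n_t50 : T :=
  (.b (.a (.a (.a (.b (.l 66) (.l 66)) (.b (.l 66) (.l 66))) (.b (.a (.l 66) (.l 66)) (.a (.b (.l
      66) (.l 66)) (.b (.l 66) (.l 66))))) (.a (.b (.a (.b (.l 66) (.l 66)) (.b (.l 66) (.l 66)))
      (.a (.b (.l 66) (.l 66)) (.b (.l 66) (.l 66)))) (.b (.a (.l 66) (.l 66)) (.a (.b (.l 66)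
      (.l 66)) (.b (.l 66) (.l 66)))))) (.a (.a (.a (.b (.l 66) (.l 66)) (.b (.a (.l 66) (.l 66))
      (.l 66))) (.a (.b (.a (.l 66) (.l 66)) (.l 66)) (.b (.a (.l 66) (.l 66)) (.l 66)))) (.a (.a
      (.b (.b (.l 66) (.l 66)) (.l 66)) (.b (.b (.l 66) (.l 66)) (.c (.l 66) (.l 66)))) (.b (.a
      (.b (.l 66) (.l 66)) (.b (.l 66) (.l 66))) (.a (.l 66) (.l 66))))))

def y1n_h50 : chk3 (onCell 0 2684354560 1610612736 12884901888 0 26843546 (L1 Fnr)) y1n_t50 13 19 5 = true := by decide +kernel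

def y1n_t51 : T :=
  (.c (.a (.c (.a (.b (.l 66) (.l 66)) (.l 66)) (.a (.b (.l 66) (.l 66)) (.b (.l 66) (.l 66))))
      (.c (.b (.l 66) (.l 66)) (.b (.a (.l 66) (.l 66)) (.a (.l 66) (.l 66))))) (.a (.c (.a (.b
      (.l 66) (.l 66)) (.b (.l 66) (.l 66))) (.c (.a (.b (.l 66) (.l 66)) (.b (.l 66) (.l 66)))
      (.b (.a (.l 66) (.l 66)) (.a (.l 66) (.l 66))))) (.b (.c (.a (.l 66) (.l 66)) (.a (.l 66)
      (.l 66))) (.a (.b (.a (.l 66) (.l 66)) (.a (.a (.l 66) (.l 66)) (.b (.l 66) (.l 66)))) (.b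
      (.a (.l 66) (.l 66)) (.a (.b (.l 66) (.l 66)) (.l 66)))))))

def y1n_h51 : chk3 (onCell 0 2684354560 1610612736 12884901888 0 26843546 (L1 Fnr)) y1n_t51 7 18 2 = true := by decide +kernel

def y1n_t52 : T :=
  (.a (.c (.a (.l 66) (.l 66)) (.a (.b (.l 66) (.l 66)) (.b (.l 66) (.l 66)))) (.c (.a (.l 66)
      (.l 66)) (.a (.b (.l 66) (.l 66)) (.b (.l 66) (.l 66)))))

def y1n_h52 : chk3 (onCell 0 2684354560 1610612736 12884901888 0 26843546 (L1 Fnr)) y1n_t52 7 19 4 = true := by decide +kernel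

def y1n_t53 : T :=
  (.b (.a (.a (.b (.a (.l 66) (.l 66)) (.a (.l 66) (.l 66))) (.b (.a (.l 66) (.l 66)) (.a (.b (.l
      66) (.l 66)) (.l 66)))) (.a (.b (.a (.l 66) (.l 66)) (.a (.l 66) (.l 66))) (.b (.a (.l 66)
      (.l 66)) (.a (.l 66) (.l 66))))) (.a (.a (.b (.a (.l 66) (.l 66)) (.a (.l 66) (.l 66))) (.b
      (.a (.l 66) (.l 66)) (.a (.l 66) (.l 66)))) (.a (.b (.a (.l 66) (.l 66)) (.a (.l 66) (.l
      66))) (.b (.a (.l 66) (.l 66)) (.a (.l 66) (.l 66))))))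

def y1n_h53 : chk3 (onCell 0 2684354560 1610612736 12884901888 0 26843546 (L1 Fnr)) y1n_t53 14 19 5 = true := by decide +kernel

def y1n_t54 : T :=
  (.b (.a (.a (.b (.a (.l 66) (.l 66)) (.a (.l 66) (.l 66))) (.b (.a (.l 66) (.l 66)) (.a (.l 66)
      (.l 66)))) (.a (.b (.b (.l 66) (.l 66)) (.a (.l 66) (.b (.l 66) (.l 66)))) (.b (.b (.l 66)
      (.l 66)) (.a (.l 66) (.l 66))))) (.a (.a (.b (.a (.l 66) (.l 66)) (.a (.l 66) (.b (.l 66)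
      (.l 66)))) (.b (.a (.l 66) (.b (.l 66) (.l 66))) (.a (.b (.l 66) (.l 66)) (.b (.l 66) (.l
      66))))) (.a (.b (.a (.b (.l 66) (.l 66)) (.b (.l 66) (.l 66))) (.a (.b (.l 66) (.l 66)) (.b
      (.l 66) (.l 66)))) (.b (.a (.b (.l 66) (.l 66)) (.b (.l 66) (.l 66))) (.a (.b (.l 66) (.l
      66)) (.l 66))))))

def y1n_h54 : chk3 (onCell 0 2684354560 1610612736 12884901888 0 26843546 (L1 Fnr)) y1n_t54 15 19 5 = true := by decide +kernel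

def y1n_t55 : T :=
  (.b (.l 79) (.c (.a (.a (.l 79) (.c (.l 79) (.b (.l 79) (.a (.l 79) (.l 79))))) (.c (.a (.l 79)
      (.b (.l 79) (.l 66))) (.c (.a (.b (.l 79) (.l 79)) (.b (.l 79) (.l 66))) (.a (.b (.l 79)
      (.l 66)) (.b (.l 79) (.l 66)))))) (.a (.c (.c (.a (.l 79) (.b (.l 79) (.a (.l 66) (.l
      66)))) (.a (.b (.l 79) (.b (.l 79) (.a (.l 79) (.l 2)))) (.b (.l 79) (.b (.l 79) (.l
      66))))) (.a (.c (.b (.l 79) (.a (.l 2) (.l 66))) (.b (.l 79) (.a (.l 2) (.l 2)))) (.b (.l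
      79) (.b (.l 79) (.a (.l 66) (.l 66)))))) (.a (.c (.b (.l 79) (.a (.l 66) (.l 66))) (.b (.l
      79) (.b (.l 79) (.a (.l 66) (.l 66))))) (.c (.b (.l 79) (.b (.l 79) (.l 66))) (.c (.b (.l
      79) (.b (.l 79) (.l 66))) (.b (.l 79) (.b (.a (.l 79) (.l 34)) (.a (.l 34) (.l 34))))))))))

def y1n_h55 : chk3 (onCell 0 2684354560 1610612736 12884901888 0 26843546 (L1 Fnr)) y1n_t55 6 16 3 = true := by decide +kernel

def y1n_t56 : T :=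
  (.b (.c (.a (.b (.a (.l 66) (.l 66)) (.a (.l 2) (.l 66))) (.b (.a (.l 66) (.l 66)) (.a (.l 66)
      (.l 66)))) (.a (.b (.a (.l 66) (.l 66)) (.a (.l 66) (.l 66))) (.b (.a (.l 66) (.l 66)) (.a
      (.l 66) (.l 66))))) (.c (.a (.a (.b (.l 2) (.l 66)) (.b (.l 66) (.l 66))) (.b (.a (.l 66)
      (.l 66)) (.a (.l 66) (.l 66)))) (.a (.a (.a (.l 66) (.l 2)) (.b (.l 2) (.l 2))) (.a (.b (.l
      66) (.l 2)) (.b (.l 66) (.l 66))))))

def y1n_h56 : chk3 (onCell 0 2684354560 1610612736 12884901888 0 26843546 (L1 Fnr)) y1n_t56 12 17 6 = true := by decide +kernel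

def y1n_t57 : T :=
  (.c (.a (.c (.b (.b (.l 66) (.l 66)) (.a (.l 66) (.l 66))) (.b (.b (.l 66) (.l 66)) (.b (.l 66)
      (.l 66)))) (.c (.b (.l 66) (.l 66)) (.b (.b (.l 66) (.l 66)) (.b (.l 66) (.l 66))))) (.c
      (.b (.a (.b (.l 66) (.l 66)) (.b (.l 66) (.l 66))) (.a (.b (.l 66) (.l 66)) (.b (.l 66) (.l
      66)))) (.b (.a (.b (.l 66) (.l 66)) (.b (.l 66) (.l 66))) (.a (.b (.l 66) (.l 66)) (.b (.l
      66) (.l 66))))))

def y1n_h57 : chk3 (onCell 0 2684354560 1610612736 12884901888 0 26843546 (L1 Fnr)) y1n_t57 13 17 6 = true := by decide +kernel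

def y1n_t58 : T :=
  (.b (.a (.a (.c (.b (.l 66) (.l 2)) (.b (.l 2) (.l 66))) (.b (.c (.l 66) (.l 2)) (.c (.l 2) (.l
      2)))) (.b (.c (.b (.a (.l 66) (.l 66)) (.l 66)) (.b (.a (.l 66) (.l 66)) (.a (.l 2) (.l
      66)))) (.a (.b (.l 66) (.l 66)) (.b (.l 66) (.l 66))))) (.a (.a (.c (.l 66) (.a (.l 66) (.l
      66))) (.c (.l 2) (.a (.l 66) (.l 66)))) (.a (.b (.c (.l 2) (.l 2)) (.c (.l 2) (.l 66))) (.b
      (.b (.l 66) (.l 66)) (.a (.l 66) (.l 66))))))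

def y1n_h58 : chk3 (onCell 0 2684354560 1610612736 12884901888 0 26843546 (L1 Fnr)) y1n_t58 12 17 7 = true := by decide +kernel

def y1n_t59 : T :=
  (.c (.a (.c (.b (.b (.l 66) (.l 66)) (.b (.l 66) (.l 66))) (.b (.b (.a (.l 66) (.l 66)) (.a (.l
      66) (.l 66))) (.b (.l 66) (.l 66)))) (.c (.b (.b (.l 66) (.l 66)) (.b (.l 66) (.l 66))) (.a
      (.b (.b (.l 66) (.l 66)) (.b (.l 66) (.l 66))) (.c (.b (.l 66) (.l 66)) (.b (.b (.l 66) (.l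
      66)) (.l 66)))))) (.a (.c (.b (.b (.b (.l 66) (.l 66)) (.b (.l 66) (.l 66))) (.b (.l 66)
      (.l 66))) (.a (.b (.b (.l 66) (.l 66)) (.b (.l 66) (.l 66))) (.b (.b (.l 66) (.l 66)) (.l
      66)))) (.c (.a (.c (.b (.b (.l 66) (.l 66)) (.l 66)) (.b (.b (.l 66) (.l 66)) (.l 66))) (.c
      (.b (.b (.l 66) (.l 66)) (.l 66)) (.b (.b (.l 34) (.l 66)) (.l 66)))) (.a (.b (.b (.l 66)
      (.l 66)) (.l 66)) (.b (.b (.l 34) (.l 66)) (.l 66))))))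

def y1n_h59 : chk3 (onCell 0 2684354560 1610612736 12884901888 0 26843546 (L1 Fnr)) y1n_t59 13 17 7 = true := by decide +kernel

def y1n_t60 : T :=
  (.l 79)

def y1n_h60 : chk3 (onCell 0 2684354560 1610612736 12884901888 0 26843546 (L1 Fnr)) y1n_t60 7 32 3 = true := by decide +kernel

def y1n_t61 : T :=
  (.c (.c (.c (.a (.l 79) (.b (.l 79) (.l 66))) (.a (.b (.l 79) (.l 66)) (.b (.l 79) (.l 66))))
      (.a (.b (.l 79) (.l 66)) (.b (.l 79) (.b (.l 79) (.l 66))))) (.c (.a (.c (.b (.l 79) (.l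
      66)) (.b (.l 79) (.b (.l 79) (.l 66)))) (.c (.b (.l 79) (.b (.l 79) (.l 66))) (.a (.b (.l
      79) (.l 66)) (.b (.l 79) (.l 66))))) (.a (.c (.b (.l 79) (.b (.a (.l 79) (.l 34)) (.a (.l
      34) (.l 34)))) (.b (.l 79) (.b (.a (.l 34) (.l 34)) (.a (.l 34) (.l 34))))) (.b (.l 79) (.b
      (.a (.c (.l 34) (.l 34)) (.l 34)) (.a (.l 34) (.l 34)))))))

def y1n_h61 : chk3 (onCell 0 2684354560 1610612736 12884901888 0 26843546 (L1 Fnr)) y1n_t61 14 33 3 = true := by decide +kernel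

def y1n_t62 : T :=
  (.c (.c (.c (.a (.b (.l 79) (.l 66)) (.b (.l 79) (.l 66))) (.a (.b (.l 79) (.l 66)) (.b (.l 79)
      (.l 66)))) (.a (.c (.b (.l 79) (.l 66)) (.b (.l 79) (.b (.l 79) (.l 66)))) (.c (.b (.l 79)
      (.l 66)) (.b (.l 79) (.b (.l 66) (.l 66)))))) (.c (.a (.c (.a (.b (.l 79) (.l 66)) (.b (.l
      79) (.l 66))) (.b (.l 79) (.b (.l 34) (.l 34)))) (.b (.l 79) (.b (.a (.l 34) (.l 34)) (.a
      (.l 34) (.l 34))))) (.b (.l 79) (.a (.b (.a (.l 34) (.l 34)) (.a (.l 34) (.l 34))) (.b (.a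
      (.l 34) (.l 34)) (.a (.l 34) (.l 34)))))))

def y1n_h62 : chk3 (onCell 0 2684354560 1610612736 12884901888 0 26843546 (L1 Fnr)) y1n_t62 15 33 3 = true := by decide +kernel

def y1n_t63 : T :=
  (.a (.a (.c (.c (.b (.l 66) (.l 66)) (.b (.b (.l 66) (.l 66)) (.l 66))) (.c (.b (.b (.l 66) (.l
      66)) (.b (.l 66) (.l 66))) (.b (.b (.l 66) (.l 66)) (.b (.l 66) (.l 66))))) (.b (.c (.b (.l
      66) (.l 66)) (.b (.b (.l 66) (.l 66)) (.l 66))) (.b (.a (.b (.l 66) (.l 66)) (.b (.l 66)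
      (.l 66))) (.a (.b (.l 66) (.l 66)) (.l 66))))) (.c (.c (.a (.b (.l 66) (.l 66)) (.b (.l 66)
      (.l 66))) (.b (.b (.a (.l 66) (.l 66)) (.l 66)) (.a (.l 66) (.l 66)))) (.b (.c (.b (.a (.l
      66) (.l 66)) (.a (.l 66) (.l 66))) (.b (.a (.l 66) (.l 66)) (.a (.l 66) (.l 66)))) (.a (.b
      (.l 66) (.l 66)) (.b (.l 66) (.l 66))))))

def y1n_h63 : chk3 (onCell 0 2684354560 1610612736 12884901888 0 26843546 (L1 Fnr)) y1n_t63 7 17 6 = true := by decide +kernel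

def y1n_t64 : T :=
  (.c (.a (.c (.a (.b (.b (.l 66) (.l 66)) (.l 66)) (.c (.b (.l 66) (.l 66)) (.b (.l 66) (.l
      66)))) (.a (.c (.b (.l 66) (.l 66)) (.b (.b (.l 66) (.l 66)) (.l 66))) (.c (.b (.l 66) (.l
      66)) (.b (.l 66) (.l 66))))) (.c (.a (.c (.b (.l 66) (.l 66)) (.b (.l 66) (.l 66))) (.c (.b
      (.l 66) (.l 66)) (.b (.l 66) (.l 66)))) (.b (.b (.l 66) (.l 66)) (.b (.l 66) (.l 66)))))
      (.b (.a (.b (.b (.a (.l 66) (.l 34)) (.a (.l 66) (.l 34))) (.b (.l 66) (.l 66))) (.b (.b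
      (.a (.l 34) (.l 34)) (.a (.l 34) (.l 34))) (.b (.l 34) (.l 34)))) (.a (.b (.b (.l 66) (.l
      66)) (.a (.l 66) (.l 66))) (.b (.b (.l 66) (.l 66)) (.a (.l 66) (.l 66))))))

def y1n_h64 : chk3 (onCell 0 2684354560 1610612736 12884901888 0 26843546 (L1 Fnr)) y1n_t64 14 17 7 = true := by decide +kernel

end Pool.Agent.Strip051.LC.E1.V2
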