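import Pool.Agent.Strip051.LC.E1.V2.Lf

/-! # Rests near the full period: certificates C9 below `2 h0` -/

set_option maxRecDepth 100000

namespace Pool.Agent.Strip051.LC.E1.V2

open Pool.Agent.Strip051.PB
open Pool.Agent.Strip051.LC.E0.Ch (onCell Tree)

def y1n_t65 : T :=
  (.b (.c (.a (.b (.b (.a (.l 66) (.l 34)) (.l 66)) (.l 66)) (.b (.b (.l 66) (.l 34)) (.b (.l 34)
      (.l 66)))) (.a (.b (.b (.a (.l 34) (.l 34)) (.a (.l 34) (.l 34))) (.b (.l 34) (.l 34))) (.b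
      (.b (.a (.l 34) (.l 34)) (.a (.l 34) (.l 34))) (.b (.a (.l 34) (.l 34)) (.l 34))))) (.c (.a
      (.b (.l 66) (.l 66)) (.b (.l 66) (.l 66))) (.a (.b (.b (.l 34) (.l 34)) (.b (.l 34) (.l
      34))) (.b (.b (.l 34) (.l 34)) (.b (.l 34) (.l 34))))))

def y1n_h65 : chk3 (onCell 0 2684354560 1610612736 12884901888 0 26843546 (L1 Fnr)) y1n_t65 15 17 7 = true := by decide +kernel

def y1n_t66 : T :=
  (.b (.a (.a (.a (.a (.c (.l 66) (.l 66)) (.c (.l 2) (.l 66))) (.a (.c (.l 2) (.l 66)) (.b (.l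
      66) (.l 66)))) (.a (.b (.a (.l 66) (.l 66)) (.a (.l 66) (.l 66))) (.b (.a (.l 66) (.l 66))
      (.a (.l 66) (.l 66))))) (.c (.a (.a (.b (.l 66) (.l 66)) (.b (.l 66) (.l 66))) (.a (.l 66)
      (.l 66))) (.a (.a (.l 66) (.l 66)) (.a (.l 66) (.l 66))))) (.a (.a (.a (.c (.l 66) (.a (.l
      66) (.l 66))) (.c (.l 66) (.l 66))) (.a (.a (.c (.l 66) (.l 66)) (.c (.l 66) (.l 66))) (.a
      (.c (.l 66) (.l 66)) (.b (.l 66) (.l 66))))) (.b (.a (.a (.a (.l 66) (.l 66)) (.l 66)) (.a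
      (.l 66) (.l 66))) (.a (.a (.l 66) (.l 66)) (.a (.l 66) (.l 66))))))

def y1n_h66 : chk3 (onCell 0 2684354560 1610612736 12884901888 0 26843546 (L1 Fnr)) y1n_t66 6 18 6 = true := by decide +kernel

def y1n_t67 : T :=
  (.a (.b (.a (.a (.c (.l 66) (.a (.l 66) (.l 66))) (.c (.l 66) (.l 66))) (.a (.c (.l 66) (.l
      66)) (.c (.l 66) (.l 66)))) (.a (.a (.c (.l 66) (.l 66)) (.c (.l 66) (.l 66))) (.a (.a (.c
      (.l 66) (.l 34)) (.c (.l 66) (.l 66))) (.a (.c (.l 66) (.l 66)) (.c (.l 66) (.l 66))))))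
      (.b (.a (.a (.a (.l 66) (.l 66)) (.a (.c (.l 66) (.l 66)) (.b (.l 66) (.l 66)))) (.a (.b
      (.l 66) (.l 66)) (.b (.l 66) (.l 66)))) (.a (.a (.a (.c (.l 66) (.l 66)) (.c (.l 66) (.l
      66))) (.a (.b (.l 66) (.l 66)) (.b (.l 66) (.l 66)))) (.a (.a (.b (.l 66) (.l 66)) (.b (.l
      66) (.l 66))) (.a (.b (.l 66) (.l 66)) (.l 66))))))

def y1n_h67 : chk3 (onCell 0 2684354560 1610612736 12884901888 0 26843546 (L1 Fnr)) y1n_t67 6 19 6 = true := by decide +kernel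

def y1n_t68 : T :=
  (.b (.b (.a (.a (.c (.a (.l 66) (.l 66)) (.a (.l 66) (.l 66))) (.c (.a (.l 66) (.l 66)) (.a (.l
      66) (.l 66)))) (.a (.c (.l 66) (.l 66)) (.c (.l 66) (.l 66)))) (.a (.a (.c (.a (.l 66) (.l
      66)) (.a (.l 66) (.l 66))) (.c (.l 66) (.l 66))) (.a (.c (.l 66) (.l 66)) (.c (.l 66) (.l
      66))))) (.b (.a (.a (.c (.l 66) (.a (.l 34) (.l 66))) (.a (.c (.l 34) (.l 34)) (.c (.l 66)
      (.l 66)))) (.a (.a (.c (.l 66) (.l 66)) (.c (.l 66) (.l 66))) (.a (.b (.l 66) (.l 66)) (.b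
      (.l 66) (.l 66))))) (.a (.a (.a (.c (.l 34) (.l 34)) (.c (.l 34) (.l 66))) (.a (.c (.l 34)
      (.l 66)) (.c (.l 66) (.l 66)))) (.a (.a (.c (.l 66) (.l 66)) (.b (.l 66) (.l 66))) (.a (.b
      (.l 66) (.l 47)) (.b (.l 66) (.l 47)))))))

def y1n_h68 : chk3 (onCell 0 2684354560 1610612736 12884901888 0 26843546 (L1 Fnr)) y1n_t68 12 9 7 = true := by decide +kernel

def y1n_t69 : T :=
  (.b (.c (.b (.a (.a (.l 66) (.l 66)) (.a (.l 66) (.l 66))) (.a (.a (.l 66) (.l 66)) (.a (.l 66)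
      (.l 66)))) (.a (.b (.a (.l 66) (.l 66)) (.a (.l 66) (.l 66))) (.b (.a (.l 66) (.l 66)) (.a
      (.l 66) (.l 66))))) (.a (.a (.b (.a (.b (.l 66) (.l 66)) (.b (.l 66) (.l 66))) (.a (.b (.l
      66) (.l 47)) (.b (.l 66) (.l 47)))) (.b (.a (.b (.l 66) (.l 66)) (.b (.l 66) (.l 66))) (.a
      (.b (.l 66) (.l 47)) (.b (.l 66) (.l 47))))) (.b (.a (.b (.l 66) (.l 66)) (.b (.l 66) (.l
      66))) (.a (.a (.b (.l 47) (.l 47)) (.l 47)) (.l 47)))))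

def y1n_h69 : chk3 (onCell 0 2684354560 1610612736 12884901888 0 26843546 (L1 Fnr)) y1n_t69 13 9 7 = true := by decide +kernel

def y1n_t70 : T :=
  (.c (.b (.c (.a (.b (.l 66) (.l 66)) (.b (.l 66) (.l 66))) (.a (.b (.l 66) (.l 66)) (.b (.l 66)
      (.l 66)))) (.c (.a (.a (.l 66) (.l 66)) (.a (.l 66) (.l 66))) (.a (.a (.l 66) (.l 66)) (.a
      (.l 66) (.l 66))))) (.c (.a (.b (.b (.l 66) (.l 66)) (.a (.l 66) (.l 66))) (.b (.b (.l 66)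
      (.l 66)) (.a (.l 66) (.l 66)))) (.a (.b (.a (.b (.l 66) (.l 66)) (.b (.l 66) (.l 66))) (.a
      (.l 66) (.l 34))) (.b (.b (.l 66) (.l 34)) (.a (.l 34) (.l 34))))))

def y1n_h70 : chk3 (onCell 0 2684354560 1610612736 12884901888 0 26843546 (L1 Fnr)) y1n_t70 14 18 3 = true := by decide +kernel

def y1n_t71 : T :=
  (.c (.c (.b (.a (.b (.l 66) (.l 66)) (.b (.l 66) (.l 66))) (.a (.b (.l 66) (.l 66)) (.b (.l 66)
      (.l 66)))) (.a (.b (.b (.l 66) (.l 66)) (.b (.l 66) (.l 66))) (.b (.b (.l 66) (.l 66)) (.b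
      (.l 66) (.l 66))))) (.c (.a (.b (.b (.l 66) (.l 66)) (.l 66)) (.b (.b (.l 66) (.l 66)) (.l
      66))) (.a (.b (.b (.l 34) (.l 34)) (.b (.l 34) (.l 34))) (.b (.b (.l 34) (.l 34)) (.l
      34)))))

def y1n_h71 : chk3 (onCell 0 2684354560 1610612736 12884901888 0 26843546 (L1 Fnr)) y1n_t71 15 18 3 = true := by decide +kernel

def y1n_t72 : T :=
  (.c (.a (.c (.b (.a (.l 66) (.l 66)) (.a (.l 66) (.l 66))) (.a (.b (.l 66) (.l 66)) (.b (.l 66)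
      (.l 66)))) (.c (.a (.b (.l 66) (.l 66)) (.b (.l 66) (.l 66))) (.a (.b (.l 66) (.l 47)) (.b
      (.l 66) (.l 47))))) (.b (.a (.a (.a (.b (.l 66) (.l 66)) (.b (.l 66) (.l 47))) (.a (.b (.l
      66) (.l 47)) (.b (.l 34) (.l 47)))) (.a (.a (.b (.l 34) (.l 47)) (.b (.l 47) (.l 47))) (.a
      (.b (.l 47) (.l 47)) (.l 47)))) (.a (.a (.l 47) (.l 47)) (.l 47))))

def y1n_h72 : chk3 (onCell 0 2684354560 1610612736 12884901888 0 26843546 (L1 Fnr)) y1n_t72 7 19 3 = true := by decide +kernel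

def y1n_t73 : T :=
  (.c (.b (.b (.c (.l 68) (.l 69)) (.c (.l 68) (.l 68))) (.c (.b (.a (.l 36) (.c (.a (.l 68) (.l
      36)) (.a (.l 68) (.l 36)))) (.a (.l 36) (.a (.l 36) (.l 68)))) (.b (.a (.l 36) (.c (.a (.l
      68) (.l 36)) (.a (.l 68) (.l 36)))) (.a (.l 36) (.a (.l 36) (.l 68)))))) (.b (.b (.c (.l
      69) (.a (.l 36) (.l 68))) (.c (.l 69) (.a (.l 36) (.l 68)))) (.a (.l 36) (.c (.b (.c (.a
      (.l 68) (.l 36)) (.a (.l 68) (.l 36))) (.a (.l 36) (.l 68))) (.b (.a (.l 68) (.l 36)) (.a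
      (.l 36) (.l 36)))))))

def y1n_h73 : chk3 (onCell 0 2684354560 1610612736 12884901888 0 26843546 (L1 Fnr)) y1n_t73 8 10 2 = true := by decide +kernel

def y1n_t74 : T :=
  (.b (.a (.a (.c (.b (.l 68) (.l 68)) (.b (.l 68) (.l 68))) (.l 68)) (.c (.b (.a (.a (.l 68) (.l
      68)) (.l 36)) (.a (.a (.l 68) (.l 68)) (.l 36))) (.b (.a (.c (.a (.l 64) (.l 64)) (.a (.l
      64) (.l 64))) (.l 68)) (.a (.c (.a (.l 64) (.l 64)) (.a (.l 64) (.l 32))) (.l 68))))) (.c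
      (.a (.b (.a (.l 68) (.l 36)) (.l 68)) (.a (.b (.c (.l 68) (.l 68)) (.c (.l 68) (.l 68)))
      (.l 68))) (.a (.b (.c (.a (.l 68) (.l 36)) (.a (.l 68) (.l 64))) (.l 68)) (.a (.b (.c (.a
      (.l 64) (.l 64)) (.l 64)) (.c (.a (.l 64) (.l 64)) (.l 64))) (.b (.l 68) (.l 68))))))

def y1n_h74 : chk3 (onCell 0 2684354560 1610612736 12884901888 0 26843546 (L1 Fnr)) y1n_t74 9 10 4 = true := by decide +kernel

def y1n_t75 : T :=
  (.a (.b (.a (.c (.b (.l 68) (.l 68)) (.b (.l 68) (.l 68))) (.l 68)) (.c (.b (.c (.b (.l 68) (.l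
      68)) (.b (.l 68) (.l 68))) (.c (.l 68) (.l 68))) (.b (.c (.b (.l 68) (.l 68)) (.b (.l 68)
      (.l 68))) (.c (.l 68) (.l 68))))) (.b (.c (.b (.a (.c (.l 64) (.l 64)) (.c (.l 68) (.l
      68))) (.a (.c (.l 64) (.l 64)) (.c (.l 68) (.l 32)))) (.b (.a (.c (.l 64) (.l 64)) (.c (.l
      32) (.l 32))) (.a (.c (.l 64) (.l 64)) (.c (.l 32) (.l 32))))) (.c (.b (.a (.c (.l 64) (.l
      64)) (.c (.l 68) (.l 32))) (.a (.c (.l 64) (.l 64)) (.c (.l 32) (.l 32)))) (.b (.a (.c (.l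
      64) (.l 64)) (.c (.l 32) (.l 32))) (.a (.c (.l 64) (.l 64)) (.c (.l 32) (.l 32)))))))

def y1n_h75 : chk3 (onCell 0 2684354560 1610612736 12884901888 0 26843546 (L1 Fnr)) y1n_t75 9 10 5 = true := by decide +kernel

def y1n_t76 : T :=
  (.c (.a (.a (.l 36) (.a (.a (.l 36) (.l 36)) (.l 36))) (.a (.a (.l 36) (.a (.l 36) (.b (.c (.l
      64) (.l 32)) (.c (.l 64) (.l 32))))) (.a (.a (.c (.b (.l 66) (.l 66)) (.l 64)) (.c (.l 66)
      (.l 66))) (.a (.c (.l 66) (.l 66)) (.b (.l 66) (.l 66)))))) (.a (.a (.a (.l 36) (.l 36))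
      (.a (.a (.c (.l 64) (.l 32)) (.c (.l 32) (.l 32))) (.a (.l 36) (.l 36)))) (.a (.a (.l 36)
      (.l 36)) (.a (.a (.b (.l 32) (.l 32)) (.l 66)) (.a (.l 66) (.l 66))))))

def y1n_h76 : chk3 (onCell 0 2684354560 1610612736 12884901888 0 26843546 (L1 Fnr)) y1n_t76 5 20 4 = true := by decide +kernel

def y1n_t77 : T :=
  (.a (.b (.c (.a (.a (.l 36) (.l 36)) (.a (.a (.l 32) (.l 32)) (.a (.l 32) (.l 32)))) (.a (.a
      (.c (.l 32) (.l 32)) (.l 36)) (.c (.a (.l 32) (.l 32)) (.a (.l 32) (.l 32))))) (.a (.c (.a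
      (.l 68) (.l 36)) (.a (.c (.l 32) (.l 32)) (.c (.l 32) (.l 32)))) (.c (.a (.l 36) (.c (.l
      32) (.l 32))) (.c (.a (.l 32) (.l 32)) (.b (.a (.l 32) (.l 32)) (.a (.l 32) (.l 32)))))))
      (.b (.c (.a (.a (.c (.l 32) (.l 32)) (.l 36)) (.a (.a (.l 32) (.l 32)) (.l 66))) (.c (.a
      (.a (.l 32) (.l 32)) (.a (.l 32) (.l 32))) (.a (.a (.l 32) (.l 32)) (.a (.l 32) (.l 32)))))
      (.c (.a (.a (.c (.l 32) (.l 32)) (.a (.l 32) (.l 32))) (.a (.a (.l 32) (.l 32)) (.l 66)))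
      (.a (.a (.a (.l 32) (.l 32)) (.a (.l 32) (.l 32))) (.a (.a (.l 32) (.l 32)) (.a (.l 34) (.l
      34)))))))

def y1n_h77 : chk3 (onCell 0 2684354560 1610612736 12884901888 0 26843546 (L1 Fnr)) y1n_t77 5 20 5 = true := by decide +kernel

def y1n_t78 : T :=
  (.a (.c (.a (.l 36) (.a (.c (.l 36) (.l 36)) (.l 36))) (.a (.a (.l 68) (.l 36)) (.a (.c (.a (.l
      32) (.l 32)) (.a (.l 32) (.l 32))) (.c (.l 36) (.a (.l 32) (.l 32)))))) (.b (.c (.a (.a (.l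
      36) (.a (.l 36) (.c (.l 64) (.l 32)))) (.a (.a (.c (.l 66) (.l 64)) (.c (.l 66) (.l 64)))
      (.a (.l 66) (.l 66)))) (.a (.a (.l 36) (.l 36)) (.a (.a (.l 32) (.l 64)) (.l 66)))) (.c (.a
      (.a (.l 36) (.a (.l 36) (.c (.l 64) (.l 32)))) (.a (.a (.c (.l 66) (.l 64)) (.c (.l 66) (.l
      64))) (.a (.l 66) (.l 66)))) (.a (.a (.l 36) (.l 36)) (.a (.a (.l 32) (.l 64)) (.l 66))))))

def y1n_h78 : chk3 (onCell 0 2684354560 1610612736 12884901888 0 26843546 (L1 Fnr)) y1n_t78 5 21 4 = true := by decide +kernel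

def y1n_t79 : T :=
  (.a (.b (.a (.c (.a (.l 68) (.l 36)) (.c (.a (.l 32) (.l 32)) (.a (.l 32) (.l 32)))) (.c (.a
      (.l 36) (.l 36)) (.a (.c (.l 32) (.l 32)) (.b (.l 32) (.l 32))))) (.a (.c (.a (.c (.l 32)
      (.l 32)) (.l 36)) (.c (.a (.l 32) (.l 32)) (.a (.l 32) (.l 32)))) (.c (.c (.a (.l 32) (.l
      32)) (.a (.l 32) (.l 32))) (.a (.b (.l 32) (.l 32)) (.c (.l 32) (.l 32)))))) (.b (.c (.a
      (.a (.l 32) (.a (.l 32) (.l 32))) (.a (.a (.l 32) (.l 32)) (.a (.l 32) (.l 66)))) (.a (.a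
      (.a (.l 32) (.l 32)) (.c (.l 32) (.l 32))) (.a (.a (.l 34) (.l 34)) (.a (.l 34) (.l 34)))))
      (.c (.c (.a (.a (.l 32) (.l 32)) (.a (.l 32) (.l 32))) (.a (.a (.l 32) (.l 32)) (.a (.l 32)
      (.l 32)))) (.a (.a (.c (.l 32) (.l 32)) (.c (.l 32) (.l 32))) (.a (.a (.c (.l 32) (.l 47))
      (.l 34)) (.a (.l 34) (.l 34)))))))

def y1n_h79 : chk3 (onCell 0 2684354560 1610612736 12884901888 0 26843546 (L1 Fnr)) y1n_t79 5 21 5 = true := by decide +kernel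

def y1n_t80 : T :=
  (.a (.c (.c (.b (.a (.l 36) (.a (.l 36) (.l 68))) (.a (.l 36) (.a (.l 36) (.l 68)))) (.a (.l
      36) (.b (.a (.l 36) (.l 68)) (.a (.l 36) (.l 68))))) (.a (.l 36) (.c (.b (.a (.l 36) (.l
      68)) (.a (.l 36) (.l 68))) (.b (.a (.l 36) (.l 68)) (.a (.l 36) (.l 68)))))) (.c (.a (.c
      (.b (.l 68) (.l 36)) (.b (.l 68) (.l 36))) (.c (.a (.c (.l 68) (.b (.l 68) (.l 68))) (.l
      68)) (.a (.b (.c (.a (.l 64) (.l 32)) (.l 64)) (.c (.a (.l 64) (.l 32)) (.l 64))) (.c (.l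
      68) (.b (.l 36) (.l 36)))))) (.a (.c (.b (.l 68) (.l 36)) (.b (.l 68) (.l 36))) (.c (.b (.a
      (.c (.l 64) (.l 64)) (.c (.l 32) (.l 32))) (.a (.c (.l 64) (.l 64)) (.c (.l 32) (.l 32))))
      (.a (.b (.c (.l 64) (.l 64)) (.l 36)) (.b (.l 32) (.l 32)))))))

def y1n_h80 : chk3 (onCell 0 2684354560 1610612736 12884901888 0 26843546 (L1 Fnr)) y1n_t80 4 22 2 = true := by decide +kernel

def y1n_t81 : T :=
  (.c (.a (.c (.b (.a (.l 36) (.a (.l 36) (.l 36))) (.a (.l 36) (.a (.l 36) (.l 36)))) (.a (.l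
      36) (.b (.a (.l 36) (.l 36)) (.a (.l 36) (.l 36))))) (.c (.a (.l 68) (.a (.c (.l 68) (.b
      (.l 68) (.a (.l 64) (.l 64)))) (.l 68))) (.a (.l 68) (.a (.c (.b (.a (.l 64) (.l 32)) (.a
      (.l 32) (.l 32))) (.b (.l 64) (.l 64))) (.c (.b (.l 36) (.l 36)) (.b (.l 32) (.l 32)))))))
      (.a (.a (.l 36) (.c (.b (.a (.l 36) (.l 36)) (.a (.l 36) (.l 36))) (.a (.a (.l 36) (.l 36))
      (.l 68)))) (.c (.b (.a (.l 36) (.a (.c (.l 64) (.l 64)) (.c (.l 32) (.l 32)))) (.a (.l 36)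
      (.c (.a (.l 64) (.l 32)) (.a (.l 64) (.l 32))))) (.b (.a (.l 36) (.a (.l 64) (.l 32))) (.a
      (.l 36) (.a (.l 64) (.l 47)))))))

def y1n_h81 : chk3 (onCell 0 2684354560 1610612736 12884901888 0 26843546 (L1 Fnr)) y1n_t81 4 23 2 = true := by decide +kernel

def y1n_t82 : T :=
  (.a (.c (.c (.a (.l 36) (.a (.l 36) (.l 36))) (.a (.l 36) (.a (.a (.l 64) (.l 32)) (.l 36))))
      (.a (.a (.c (.l 36) (.l 68)) (.l 36)) (.a (.c (.a (.l 32) (.l 32)) (.l 36)) (.c (.a (.l 32)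
      (.l 32)) (.l 36))))) (.b (.c (.a (.a (.l 36) (.a (.l 36) (.c (.l 66) (.l 32)))) (.a (.a (.c
      (.l 66) (.l 32)) (.c (.l 66) (.l 64))) (.a (.l 66) (.l 66)))) (.a (.c (.l 36) (.a (.l 32)
      (.l 32))) (.a (.a (.l 32) (.l 32)) (.l 66)))) (.c (.a (.a (.l 36) (.a (.l 36) (.c (.l 66)
      (.l 32)))) (.a (.a (.c (.l 66) (.l 32)) (.c (.l 66) (.l 64))) (.a (.c (.l 66) (.l 64)) (.l
      66)))) (.a (.a (.c (.l 32) (.l 32)) (.a (.l 32) (.l 32))) (.a (.a (.l 32) (.l 32)) (.a (.l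
      66) (.l 66)))))))

def y1n_h82 : chk3 (onCell 0 2684354560 1610612736 12884901888 0 26843546 (L1 Fnr)) y1n_t82 5 22 4 = true := by decide +kernel

def y1n_t83 : T :=
  (.a (.b (.a (.c (.c (.a (.l 32) (.l 32)) (.a (.l 32) (.l 32))) (.a (.c (.l 32) (.l 32)) (.c (.l
      32) (.l 32)))) (.c (.a (.c (.l 32) (.l 32)) (.a (.l 32) (.l 32))) (.c (.a (.l 32) (.l 32))
      (.a (.l 32) (.l 32))))) (.a (.c (.c (.a (.l 32) (.l 32)) (.a (.l 32) (.l 32))) (.a (.c (.l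
      32) (.l 32)) (.l 32))) (.c (.a (.c (.l 32) (.l 32)) (.a (.l 32) (.l 32))) (.c (.a (.l 32)
      (.l 47)) (.l 47))))) (.b (.c (.a (.a (.a (.l 32) (.l 32)) (.a (.l 32) (.l 32))) (.a (.a (.l
      34) (.l 34)) (.a (.l 34) (.l 34)))) (.a (.a (.c (.l 32) (.l 47)) (.c (.l 32) (.l 47))) (.l
      47))) (.c (.a (.a (.a (.l 32) (.c (.l 32) (.l 32))) (.c (.l 32) (.l 47))) (.a (.a (.a (.l
      34) (.l 34)) (.l 34)) (.a (.l 34) (.l 34)))) (.l 47))))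

def y1n_h83 : chk3 (onCell 0 2684354560 1610612736 12884901888 0 26843546 (L1 Fnr)) y1n_t83 5 22 5 = true := by decide +kernel

def y1n_t84 : T :=
  (.a (.c (.c (.a (.l 36) (.a (.l 36) (.l 36))) (.a (.l 36) (.a (.a (.l 64) (.l 32)) (.l 36))))
      (.a (.c (.a (.l 36) (.l 36)) (.a (.b (.l 32) (.l 32)) (.l 36))) (.b (.c (.a (.l 32) (.l
      32)) (.a (.l 32) (.l 32))) (.c (.a (.l 32) (.l 32)) (.a (.l 32) (.l 32)))))) (.b (.c (.a
      (.a (.l 36) (.a (.l 36) (.c (.l 66) (.l 32)))) (.a (.a (.c (.l 66) (.l 32)) (.c (.l 66) (.l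
      64))) (.a (.c (.l 66) (.l 64)) (.l 66)))) (.a (.a (.c (.l 32) (.l 32)) (.a (.l 32) (.l
      32))) (.a (.a (.l 34) (.l 34)) (.a (.l 66) (.l 66))))) (.c (.a (.a (.l 36) (.a (.l 36) (.a
      (.l 36) (.c (.l 66) (.l 32))))) (.a (.a (.c (.l 66) (.l 32)) (.c (.l 66) (.l 64))) (.a (.c
      (.l 66) (.l 64)) (.l 66)))) (.a (.c (.a (.l 32) (.l 32)) (.a (.l 32) (.l 32))) (.a (.a (.a
      (.l 34) (.l 34)) (.l 34)) (.a (.l 66) (.l 66)))))))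

def y1n_h84 : chk3 (onCell 0 2684354560 1610612736 12884901888 0 26843546 (L1 Fnr)) y1n_t84 5 23 4 = true := by decide +kernel

def y1n_t85 : T :=
  (.a (.b (.a (.c (.c (.a (.l 32) (.l 32)) (.a (.l 32) (.l 32))) (.a (.c (.l 32) (.l 47)) (.l
      47))) (.c (.a (.c (.l 32) (.l 32)) (.c (.l 32) (.l 47))) (.l 47))) (.a (.c (.a (.c (.l 32)
      (.l 32)) (.c (.l 32) (.l 47))) (.l 47)) (.c (.a (.b (.c (.l 47) (.l 47)) (.l 47)) (.l 47))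
      (.l 47)))) (.b (.c (.a (.a (.c (.l 32) (.l 47)) (.c (.l 47) (.l 47))) (.l 47)) (.l 47)) (.c
      (.l 47) (.l 47))))

def y1n_h85 : chk3 (onCell 0 2684354560 1610612736 12884901888 0 26843546 (L1 Fnr)) y1n_t85 5 23 5 = true := by decide +kernel

def y1n_t86 : T :=
  (.c (.a (.b (.c (.a (.l 36) (.l 68)) (.a (.l 36) (.l 68))) (.c (.a (.l 36) (.l 68)) (.a (.l 36)
      (.l 68)))) (.a (.a (.c (.b (.l 68) (.l 68)) (.b (.l 68) (.l 68))) (.c (.l 68) (.l 68))) (.c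
      (.b (.a (.c (.l 64) (.l 64)) (.c (.l 32) (.l 32))) (.a (.c (.l 64) (.l 64)) (.l 32))) (.b
      (.a (.l 64) (.l 32)) (.a (.l 64) (.l 32)))))) (.a (.b (.c (.a (.l 36) (.l 68)) (.a (.l 36)
      (.l 68))) (.c (.a (.l 36) (.l 68)) (.a (.l 36) (.l 68)))) (.a (.a (.b (.l 68) (.c (.l 68)
      (.l 68))) (.b (.c (.l 68) (.b (.l 64) (.l 64))) (.c (.l 64) (.b (.l 32) (.l 32))))) (.b (.c
      (.a (.b (.l 64) (.l 64)) (.c (.l 32) (.l 32))) (.a (.b (.l 64) (.l 64)) (.l 32))) (.c (.a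
      (.l 64) (.l 32)) (.a (.l 64) (.l 32)))))))

def y1n_h86 : chk3 (onCell 0 2684354560 1610612736 12884901888 0 26843546 (L1 Fnr)) y1n_t86 4 20 3 = true := by decide +kernel

end Pool.Agent.Strip051.LC.E1.V2
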