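import Pool.Agent.Strip051.LC.E1.V2.Lf

/-! # Rests near the full period: certificates C1 below `2 h0` -/

set_option maxRecDepth 100000

namespace Pool.Agent.Strip051.LC.E1.V2

open Pool.Agent.Strip051.PB
open Pool.Agent.Strip051.LC.E0.Ch (onCell Tree)

def y1f_t0 : T :=
  (.b (.l 79) (.c (.a (.l 69) (.c (.b (.a (.l 68) (.b (.l 79) (.a (.l 68) (.l 36)))) (.a (.l 68)
      (.b (.a (.l 68) (.l 36)) (.a (.l 68) (.l 36))))) (.b (.a (.l 68) (.b (.l 79) (.a (.l 68)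
      (.l 36)))) (.a (.l 68) (.b (.a (.l 68) (.l 36)) (.a (.l 68) (.l 36))))))) (.a (.a (.l 36)
      (.l 68)) (.b (.a (.l 68) (.c (.b (.a (.l 79) (.l 36)) (.a (.c (.l 68) (.a (.l 36) (.l 68)))
      (.l 36))) (.b (.a (.c (.a (.l 79) (.l 79)) (.a (.l 36) (.l 68))) (.l 36)) (.a (.c (.a (.l
      64) (.l 68)) (.a (.l 64) (.l 36))) (.l 36))))) (.a (.l 68) (.c (.b (.a (.l 68) (.l 36)) (.a
      (.l 68) (.l 36))) (.b (.a (.c (.l 68) (.a (.l 64) (.l 36))) (.l 36)) (.a (.c (.l 68) (.l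
      68)) (.l 36)))))))))

def y1f_h0 : chk3 (onCell 0 2684354560 1610612736 12884901888 0 26843546 (L1 Ff)) y1f_t0 4 8 2 = true := by decide +kernel

def y1f_t1 : T :=
  (.c (.l 79) (.l 79))

def y1f_h1 : chk3 (onCell 0 2684354560 1610612736 12884901888 0 26843546 (L1 Ff)) y1f_t1 5 16 2 = true := by decide +kernel

def y1f_t2 : T :=
  (.a (.a (.c (.c (.b (.l 36) (.l 36)) (.b (.l 36) (.l 36))) (.b (.c (.c (.l 36) (.l 36)) (.b (.l
      36) (.l 36))) (.l 36))) (.c (.c (.b (.l 36) (.l 36)) (.b (.c (.l 36) (.l 36)) (.l 36))) (.b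
      (.c (.c (.a (.l 36) (.l 36)) (.b (.l 36) (.l 36))) (.c (.b (.l 36) (.l 36)) (.b (.l 36) (.l
      36)))) (.l 36)))) (.c (.a (.a (.b (.c (.l 36) (.l 36)) (.l 36)) (.b (.l 36) (.l 36))) (.c
      (.l 36) (.b (.l 36) (.l 36)))) (.a (.b (.c (.b (.a (.l 36) (.l 36)) (.l 36)) (.b (.a (.c
      (.l 36) (.b (.l 79) (.l 32))) (.c (.l 36) (.l 36))) (.a (.l 36) (.l 36)))) (.c (.l 36) (.a
      (.l 36) (.l 36)))) (.a (.b (.c (.l 36) (.b (.l 36) (.l 36))) (.l 36)) (.c (.b (.l 36) (.l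
      36)) (.b (.l 36) (.l 36)))))))

def y1f_h2 : chk3 (onCell 0 2684354560 1610612736 12884901888 0 26843546 (L1 Ff)) y1f_t2 10 17 2 = true := by decide +kernel

def y1f_t3 : T :=
  (.c (.a (.c (.l 36) (.l 36)) (.c (.l 36) (.l 36))) (.a (.c (.b (.l 36) (.l 36)) (.b (.l 36) (.l
      36))) (.c (.l 36) (.b (.l 36) (.l 36)))))

def y1f_h3 : chk3 (onCell 0 2684354560 1610612736 12884901888 0 26843546 (L1 Ff)) y1f_t3 22 17 2 = true := by decide +kernel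

def y1f_t4 : T :=
  (.b (.c (.a (.c (.b (.l 79) (.a (.c (.b (.l 66) (.l 66)) (.l 66)) (.l 66))) (.b (.l 79) (.a (.l
      66) (.l 34)))) (.b (.l 79) (.c (.a (.l 66) (.l 66)) (.a (.l 34) (.l 34))))) (.a (.b (.c (.l
      79) (.a (.l 32) (.l 32))) (.c (.a (.l 32) (.l 32)) (.a (.l 32) (.l 32)))) (.b (.c (.l 79)
      (.l 34)) (.c (.l 34) (.l 34))))) (.c (.a (.c (.b (.a (.c (.l 66) (.l 66)) (.l 66)) (.a (.c
      (.l 66) (.l 66)) (.l 66))) (.b (.a (.l 34) (.l 34)) (.a (.l 34) (.l 34)))) (.c (.b (.a (.l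
      66) (.l 66)) (.l 66)) (.b (.l 34) (.l 34)))) (.a (.c (.b (.a (.l 32) (.l 32)) (.a (.l 32)
      (.l 32))) (.b (.a (.l 32) (.l 32)) (.l 32))) (.b (.c (.l 34) (.l 32)) (.c (.l 32) (.l
      32))))))

def y1f_h4 : chk3 (onCell 0 2684354560 1610612736 12884901888 0 26843546 (L1 Ff)) y1f_t4 23 17 4 = true := by decide +kernel

def y1f_t5 : T :=
  (.b (.c (.a (.b (.c (.a (.l 32) (.l 32)) (.a (.l 32) (.l 32))) (.c (.a (.l 32) (.l 32)) (.a (.l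
      32) (.l 32)))) (.b (.c (.l 34) (.l 34)) (.c (.l 34) (.l 34)))) (.a (.b (.c (.b (.l 79) (.l
      32)) (.b (.l 79) (.l 32))) (.c (.a (.l 32) (.l 32)) (.a (.l 32) (.l 32)))) (.b (.c (.l 34)
      (.l 34)) (.c (.l 34) (.l 34))))) (.c (.a (.b (.c (.l 34) (.l 32)) (.c (.l 32) (.l 32))) (.b
      (.a (.l 32) (.l 32)) (.l 34))) (.a (.b (.c (.l 32) (.l 32)) (.a (.l 32) (.l 32))) (.b (.l
      34) (.l 34)))))

def y1f_h5 : chk3 (onCell 0 2684354560 1610612736 12884901888 0 26843546 (L1 Ff)) y1f_t5 23 17 5 = true := by decide +kernel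

def y1f_t6 : T :=
  (.a (.a (.l 36) (.l 36)) (.c (.b (.c (.a (.l 68) (.a (.l 68) (.l 36))) (.a (.l 68) (.a (.l 68)
      (.l 36)))) (.c (.a (.l 68) (.a (.l 68) (.l 36))) (.a (.l 68) (.a (.c (.l 68) (.l 68)) (.l
      36))))) (.c (.b (.a (.l 68) (.a (.c (.l 68) (.a (.l 64) (.l 68))) (.l 36))) (.a (.l 68) (.a
      (.c (.l 68) (.a (.l 64) (.l 36))) (.l 68)))) (.b (.a (.l 68) (.a (.c (.a (.l 64) (.l 68))
      (.a (.l 64) (.l 36))) (.c (.l 68) (.l 68)))) (.a (.l 68) (.a (.c (.a (.l 64) (.l 36)) (.a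
      (.l 64) (.l 36))) (.l 68)))))))

def y1f_h6 : chk3 (onCell 0 2684354560 1610612736 12884901888 0 26843546 (L1 Ff)) y1f_t6 4 18 2 = true := by decide +kernel

def y1f_t7 : T :=
  (.a (.c (.a (.l 36) (.l 68)) (.a (.l 36) (.l 68))) (.c (.b (.c (.a (.l 68) (.a (.l 68) (.l
      36))) (.a (.l 68) (.a (.l 36) (.l 36)))) (.a (.l 68) (.a (.c (.l 36) (.l 36)) (.l 36))))
      (.a (.b (.c (.a (.l 36) (.l 36)) (.a (.l 36) (.l 36))) (.c (.l 68) (.l 68))) (.a (.b (.c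
      (.c (.l 36) (.l 36)) (.c (.a (.l 64) (.l 36)) (.a (.l 64) (.l 32)))) (.c (.c (.l 36) (.l
      36)) (.c (.a (.l 64) (.l 32)) (.a (.l 64) (.l 32))))) (.c (.l 36) (.b (.l 36) (.l 36)))))))

def y1f_h7 : chk3 (onCell 0 2684354560 1610612736 12884901888 0 26843546 (L1 Ff)) y1f_t7 4 19 2 = true := by decide +kernel

def y1f_t8 : T :=
  (.a (.a (.a (.l 36) (.l 36)) (.a (.c (.l 36) (.l 36)) (.l 36))) (.a (.a (.l 36) (.l 36)) (.c
      (.a (.b (.c (.b (.a (.c (.l 66) (.l 34)) (.l 66)) (.a (.c (.l 66) (.l 32)) (.l 66))) (.b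
      (.a (.l 34) (.l 32)) (.a (.l 32) (.l 32)))) (.c (.a (.b (.c (.l 66) (.l 32)) (.c (.l 66)
      (.l 32))) (.l 66)) (.a (.l 34) (.l 34)))) (.b (.c (.a (.l 66) (.l 66)) (.a (.l 34) (.l
      34))) (.c (.a (.l 66) (.l 66)) (.l 34)))) (.b (.a (.c (.b (.l 34) (.l 32)) (.b (.l 32) (.l
      32))) (.b (.a (.l 34) (.l 34)) (.l 34))) (.a (.c (.a (.l 32) (.l 32)) (.l 34)) (.a (.l 34)
      (.l 34)))))))

def y1f_h8 : chk3 (onCell 0 2684354560 1610612736 12884901888 0 26843546 (L1 Ff)) y1f_t8 5 18 4 = true := by decide +kernel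

def y1f_t9 : T :=
  (.a (.a (.a (.c (.l 36) (.l 36)) (.l 36)) (.a (.c (.a (.l 36) (.l 36)) (.a (.b (.l 36) (.l 36))
      (.l 36))) (.c (.l 36) (.l 36)))) (.a (.a (.c (.l 36) (.l 36)) (.l 36)) (.b (.a (.c (.b (.c
      (.l 32) (.l 32)) (.l 34)) (.b (.a (.l 32) (.l 32)) (.l 32))) (.c (.b (.l 34) (.l 34)) (.b
      (.l 32) (.l 32)))) (.a (.c (.c (.l 32) (.l 32)) (.b (.l 32) (.l 32))) (.c (.a (.l 32) (.l
      32)) (.l 34))))))

def y1f_h9 : chk3 (onCell 0 2684354560 1610612736 12884901888 0 26843546 (L1 Ff)) y1f_t9 5 18 5 = true := by decide +kernel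

def y1f_t10 : T :=
  (.a (.a (.a (.l 36) (.c (.l 36) (.l 36))) (.a (.l 36) (.l 36))) (.a (.a (.l 36) (.l 36)) (.c
      (.a (.b (.c (.a (.b (.c (.l 66) (.l 32)) (.l 66)) (.l 66)) (.a (.l 34) (.l 34))) (.c (.a
      (.c (.l 66) (.l 32)) (.l 66)) (.a (.l 32) (.l 32)))) (.b (.c (.a (.l 66) (.l 66)) (.l 34))
      (.a (.c (.l 66) (.l 32)) (.l 66)))) (.a (.b (.c (.l 34) (.l 32)) (.c (.l 32) (.l 32))) (.b
      (.a (.l 34) (.l 34)) (.a (.l 34) (.l 34)))))))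

def y1f_h10 : chk3 (onCell 0 2684354560 1610612736 12884901888 0 26843546 (L1 Ff)) y1f_t10 5 19 4 = true := by decide +kernel

def y1f_t11 : T :=
  (.a (.c (.a (.l 36) (.a (.l 36) (.l 36))) (.b (.a (.l 36) (.a (.l 36) (.l 36))) (.a (.a (.l 36)
      (.l 36)) (.a (.l 36) (.l 36))))) (.b (.c (.a (.l 36) (.a (.a (.l 32) (.l 32)) (.l 34))) (.a
      (.a (.l 36) (.l 36)) (.a (.a (.l 32) (.l 32)) (.l 34)))) (.c (.a (.l 36) (.a (.a (.l 32)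
      (.l 32)) (.l 34))) (.a (.a (.c (.l 32) (.l 32)) (.l 36)) (.a (.a (.l 32) (.l 32)) (.l
      34))))))

def y1f_h11 : chk3 (onCell 0 2684354560 1610612736 12884901888 0 26843546 (L1 Ff)) y1f_t11 5 19 5 = true := by decide +kernel

def y1f_t12 : T :=
  (.c (.l 79) (.l 79))

def y1f_h12 : chk3 (onCell 0 2684354560 1610612736 12884901888 0 26843546 (L1 Ff)) y1f_t12 4 16 3 = true := by decide +kernel

def y1f_t13 : T :=
  (.c (.a (.l 36) (.l 36)) (.a (.l 36) (.c (.l 36) (.b (.l 36) (.l 36)))))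

def y1f_h13 : chk3 (onCell 0 2684354560 1610612736 12884901888 0 26843546 (L1 Ff)) y1f_t13 8 17 3 = true := by decide +kernel

def y1f_t14 : T :=
  (.a (.b (.c (.l 68) (.c (.l 68) (.l 68))) (.l 68)) (.c (.b (.b (.a (.c (.a (.l 64) (.l 68)) (.a
      (.l 64) (.l 68))) (.l 36)) (.a (.c (.a (.l 64) (.l 36)) (.a (.l 64) (.l 36))) (.l 36))) (.b
      (.a (.c (.a (.l 64) (.l 36)) (.a (.l 64) (.l 36))) (.l 36)) (.a (.c (.a (.l 64) (.l 36))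
      (.a (.l 64) (.l 36))) (.l 68)))) (.b (.b (.a (.c (.a (.l 64) (.b (.l 79) (.l 36))) (.a (.l
      64) (.b (.l 79) (.l 36)))) (.l 36)) (.a (.c (.a (.l 64) (.l 36)) (.a (.l 64) (.l 36))) (.l
      36))) (.b (.a (.c (.a (.l 64) (.l 36)) (.a (.l 64) (.l 36))) (.c (.l 68) (.l 68))) (.a (.c
      (.a (.l 64) (.l 36)) (.a (.l 32) (.l 36))) (.c (.l 68) (.l 68)))))))

def y1f_h14 : chk3 (onCell 0 2684354560 1610612736 12884901888 0 26843546 (L1 Ff)) y1f_t14 9 17 6 = true := by decide +kernel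

def y1f_t15 : T :=
  (.b (.c (.a (.l 36) (.l 68)) (.a (.l 36) (.l 68))) (.c (.l 68) (.l 68)))

def y1f_h15 : chk3 (onCell 0 2684354560 1610612736 12884901888 0 26843546 (L1 Ff)) y1f_t15 18 17 7 = true := by decide +kernel

def y1f_t16 : T :=
  (.b (.b (.a (.c (.a (.l 64) (.b (.l 79) (.c (.l 36) (.a (.l 32) (.a (.l 36) (.l 32)))))) (.b
      (.l 79) (.a (.l 32) (.c (.a (.l 32) (.a (.l 36) (.l 32))) (.a (.l 32) (.a (.l 32) (.b (.l
      32) (.l 32)))))))) (.c (.l 36) (.a (.l 36) (.l 36)))) (.a (.c (.a (.l 64) (.c (.l 36) (.b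
      (.l 36) (.l 36)))) (.a (.l 64) (.c (.b (.a (.l 32) (.a (.l 32) (.l 32))) (.l 36)) (.b (.a
      (.l 32) (.a (.l 32) (.l 32))) (.a (.l 32) (.l 32)))))) (.c (.a (.l 68) (.l 36)) (.a (.l 68)
      (.l 36))))) (.b (.a (.c (.a (.l 64) (.l 36)) (.a (.l 32) (.c (.b (.l 36) (.l 32)) (.b (.a
      (.l 32) (.l 32)) (.l 32))))) (.c (.a (.l 36) (.l 36)) (.a (.l 36) (.l 36)))) (.a (.c (.a
      (.l 32) (.l 36)) (.a (.l 32) (.l 32))) (.c (.a (.l 36) (.l 36)) (.a (.l 36) (.l 36))))))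

def y1f_h16 : chk3 (onCell 0 2684354560 1610612736 12884901888 0 26843546 (L1 Ff)) y1f_t16 19 17 14 = true := by decide +kernel

def y1f_t17 : T :=
  (.b (.b (.c (.b (.l 79) (.a (.l 32) (.c (.a (.l 32) (.a (.l 32) (.b (.l 32) (.l 32)))) (.a (.l
      32) (.a (.l 32) (.b (.l 36) (.l 32))))))) (.b (.l 79) (.a (.l 32) (.c (.a (.l 32) (.a (.l
      32) (.b (.a (.l 32) (.l 32)) (.l 36)))) (.a (.l 32) (.a (.l 32) (.b (.a (.l 32) (.l 32))
      (.l 36)))))))) (.c (.a (.l 64) (.b (.c (.a (.l 32) (.a (.l 32) (.l 32))) (.a (.l 32) (.a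
      (.l 32) (.l 32)))) (.c (.a (.l 32) (.l 32)) (.a (.l 32) (.l 32))))) (.a (.l 64) (.b (.c (.a
      (.l 32) (.l 36)) (.a (.l 32) (.l 36))) (.c (.a (.l 32) (.l 32)) (.a (.l 32) (.l 32)))))))
      (.c (.b (.a (.l 32) (.c (.b (.l 32) (.l 32)) (.b (.l 32) (.l 32)))) (.a (.l 32) (.l 32)))
      (.b (.a (.l 32) (.c (.b (.l 32) (.l 32)) (.b (.l 32) (.l 32)))) (.a (.l 32) (.l 32)))))

def y1f_h17 : chk3 (onCell 0 2684354560 1610612736 12884901888 0 26843546 (L1 Ff)) y1f_t17 38 17 15 = true := by decide +kernel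

def y1f_t18 : T :=
  (.b (.b (.c (.a (.l 36) (.l 36)) (.b (.l 79) (.a (.c (.l 36) (.a (.b (.l 36) (.l 36)) (.l 36)))
      (.l 36)))) (.c (.a (.b (.l 36) (.l 36)) (.l 36)) (.a (.b (.c (.a (.b (.l 32) (.l 32)) (.l
      32)) (.a (.b (.c (.l 32) (.l 32)) (.a (.l 32) (.l 32))) (.l 32))) (.c (.l 36) (.a (.a (.l
      32) (.l 32)) (.l 32)))) (.l 36)))) (.c (.b (.a (.l 36) (.l 36)) (.a (.a (.l 36) (.b (.l 32)
      (.l 32))) (.l 36))) (.b (.a (.c (.l 36) (.b (.a (.l 36) (.l 32)) (.a (.l 32) (.l 32)))) (.l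
      36)) (.a (.a (.l 32) (.b (.l 32) (.l 32))) (.b (.l 36) (.l 36))))))

def y1f_h18 : chk3 (onCell 0 2684354560 1610612736 12884901888 0 26843546 (L1 Ff)) y1f_t18 39 17 15 = true := by decide +kernel

def y1f_t19 : T :=
  (.c (.a (.l 79) (.b (.l 79) (.l 79))) (.a (.b (.l 79) (.l 79)) (.b (.l 79) (.b (.l 79) (.a (.l
      79) (.c (.l 79) (.a (.l 79) (.c (.l 79) (.b (.l 79) (.a (.l 32) (.l 32)))))))))))

def y1f_h19 : chk3 (onCell 0 2684354560 1610612736 12884901888 0 26843546 (L1 Ff)) y1f_t19 5 16 3 = true := by decide +kernel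

def y1f_t20 : T :=
  (.a (.b (.c (.b (.l 36) (.l 36)) (.b (.l 36) (.l 36))) (.c (.l 36) (.c (.l 36) (.l 36)))) (.b
      (.c (.c (.b (.l 36) (.l 36)) (.b (.l 36) (.l 36))) (.c (.b (.l 36) (.l 36)) (.b (.l 36) (.l
      36)))) (.l 36)))

def y1f_h20 : chk3 (onCell 0 2684354560 1610612736 12884901888 0 26843546 (L1 Ff)) y1f_t20 20 17 6 = true := by decide +kernel

def y1f_t21 : T :=
  (.a (.b (.c (.b (.c (.a (.b (.l 79) (.l 32)) (.b (.l 79) (.l 32))) (.a (.b (.l 79) (.l 32)) (.b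
      (.l 79) (.l 32)))) (.a (.c (.l 32) (.l 32)) (.l 36))) (.b (.c (.a (.b (.l 79) (.l 32)) (.b
      (.l 79) (.l 32))) (.a (.b (.l 79) (.l 32)) (.b (.l 79) (.l 32)))) (.a (.c (.l 32) (.l 36))
      (.c (.l 36) (.l 36))))) (.c (.a (.c (.l 36) (.l 36)) (.c (.l 36) (.l 36))) (.a (.c (.l 36)
      (.l 36)) (.l 36)))) (.a (.b (.c (.b (.c (.l 36) (.l 36)) (.l 36)) (.b (.c (.b (.l 79) (.l
      36)) (.b (.l 79) (.l 36))) (.c (.l 36) (.l 36)))) (.c (.l 36) (.c (.l 36) (.l 36)))) (.c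
      (.b (.b (.l 36) (.l 36)) (.l 36)) (.b (.b (.l 36) (.l 36)) (.l 36)))))

def y1f_h21 : chk3 (onCell 0 2684354560 1610612736 12884901888 0 26843546 (L1 Ff)) y1f_t21 21 17 6 = true := by decide +kernel

def y1f_t22 : T :=
  (.b (.b (.a (.a (.l 36) (.l 36)) (.c (.a (.c (.b (.l 79) (.l 32)) (.b (.l 32) (.l 32))) (.c (.l
      34) (.a (.l 32) (.l 32)))) (.a (.c (.b (.a (.l 32) (.l 32)) (.l 32)) (.b (.a (.l 32) (.l
      32)) (.l 32))) (.c (.a (.l 32) (.l 32)) (.b (.l 32) (.l 32)))))) (.a (.a (.l 36) (.l 36))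
      (.c (.a (.c (.a (.l 32) (.l 32)) (.a (.l 32) (.l 32))) (.a (.l 32) (.l 32))) (.a (.c (.a
      (.l 32) (.l 32)) (.a (.l 32) (.l 32))) (.c (.l 32) (.l 34)))))) (.c (.a (.a (.l 36) (.l
      36)) (.a (.b (.c (.l 32) (.l 32)) (.a (.l 32) (.l 32))) (.b (.l 34) (.l 34)))) (.a (.a (.a
      (.l 36) (.c (.l 36) (.b (.l 32) (.l 32)))) (.a (.l 36) (.l 36))) (.a (.b (.c (.l 32) (.l
      32)) (.a (.l 32) (.l 32))) (.b (.a (.l 32) (.l 32)) (.l 34))))))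

def y1f_h22 : chk3 (onCell 0 2684354560 1610612736 12884901888 0 26843546 (L1 Ff)) y1f_t22 11 17 6 = true := by decide +kernel

def y1f_t23 : T :=
  (.c (.a (.b (.b (.l 36) (.l 36)) (.c (.a (.l 36) (.l 36)) (.a (.l 36) (.l 36)))) (.b (.c (.b
      (.l 36) (.l 36)) (.b (.l 36) (.l 36))) (.l 36))) (.b (.a (.b (.c (.l 36) (.a (.l 36) (.l
      36))) (.l 36)) (.c (.b (.l 36) (.l 36)) (.b (.l 36) (.l 36)))) (.a (.c (.a (.l 36) (.l 36))
      (.b (.l 36) (.l 36))) (.c (.l 36) (.b (.l 36) (.a (.l 32) (.l 32)))))))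

def y1f_h23 : chk3 (onCell 0 2684354560 1610612736 12884901888 0 26843546 (L1 Ff)) y1f_t23 20 17 7 = true := by decide +kernel

def y1f_t24 : T :=
  (.c (.a (.c (.a (.b (.l 79) (.l 32)) (.b (.l 36) (.l 32))) (.a (.b (.l 32) (.l 32)) (.b (.a (.l
      32) (.l 36)) (.l 36)))) (.a (.c (.b (.b (.l 79) (.l 36)) (.l 36)) (.b (.b (.l 79) (.l 36))
      (.l 36))) (.c (.b (.l 36) (.l 36)) (.b (.a (.b (.l 79) (.l 32)) (.l 36)) (.l 36))))) (.b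
      (.a (.c (.a (.l 36) (.a (.l 32) (.l 36))) (.a (.l 36) (.a (.l 36) (.l 36)))) (.a (.c (.b
      (.l 79) (.l 36)) (.b (.l 79) (.c (.l 36) (.l 36)))) (.c (.b (.l 79) (.c (.l 36) (.l 36)))
      (.b (.c (.l 79) (.a (.l 79) (.l 36))) (.c (.a (.l 36) (.l 32)) (.a (.l 36) (.l 36)))))))
      (.a (.c (.a (.l 32) (.l 36)) (.a (.l 36) (.l 36))) (.a (.c (.l 36) (.l 36)) (.c (.b (.l 36)
      (.l 36)) (.b (.c (.l 36) (.b (.l 36) (.l 32))) (.c (.l 32) (.b (.l 32) (.l 32)))))))))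

def y1f_h24 : chk3 (onCell 0 2684354560 1610612736 12884901888 0 26843546 (L1 Ff)) y1f_t24 21 68 7 = true := by decide +kernel

def y1f_t25 : T :=
  (.a (.a (.c (.l 36) (.l 36)) (.c (.l 36) (.c (.l 36) (.b (.l 32) (.l 32))))) (.c (.a (.l 36)
      (.c (.l 36) (.l 36))) (.a (.b (.c (.l 32) (.b (.l 32) (.l 32))) (.c (.l 32) (.l 32))) (.b
      (.c (.l 36) (.b (.c (.l 32) (.l 32)) (.l 32))) (.c (.l 32) (.l 32))))))

def y1f_h25 : chk3 (onCell 0 2684354560 1610612736 12884901888 0 26843546 (L1 Ff)) y1f_t25 21 69 7 = true := by decide +kernel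

def y1f_t26 : T :=
  (.a (.a (.c (.l 36) (.b (.c (.l 32) (.l 32)) (.c (.l 32) (.l 32)))) (.c (.b (.l 36) (.l 32))
      (.b (.c (.l 32) (.l 32)) (.c (.l 32) (.l 32))))) (.a (.c (.b (.l 36) (.c (.l 32) (.l 32)))
      (.b (.c (.l 32) (.b (.l 32) (.l 32))) (.c (.l 32) (.l 32)))) (.c (.c (.b (.l 32) (.l 32))
      (.b (.l 32) (.l 32))) (.b (.c (.b (.l 32) (.l 32)) (.b (.l 32) (.l 32))) (.c (.l 32) (.l
      32))))))

def y1f_h26 : chk3 (onCell 0 2684354560 1610612736 12884901888 0 26843546 (L1 Ff)) y1f_t26 21 35 7 = true := by decide +kernel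

def y1f_t27 : T :=
  (.c (.a (.a (.l 36) (.a (.c (.l 36) (.b (.l 32) (.l 32))) (.c (.l 32) (.b (.l 32) (.l 32)))))
      (.a (.c (.b (.a (.l 32) (.l 32)) (.l 32)) (.b (.a (.l 32) (.l 32)) (.a (.l 32) (.l 32))))
      (.c (.b (.l 32) (.l 32)) (.b (.a (.l 32) (.l 32)) (.l 32))))) (.b (.a (.a (.a (.c (.l 36)
      (.a (.c (.l 36) (.b (.l 32) (.l 32))) (.c (.l 32) (.l 32)))) (.c (.l 36) (.a (.c (.l 32)
      (.l 32)) (.l 32)))) (.a (.c (.l 32) (.a (.l 32) (.l 32))) (.c (.l 32) (.l 32)))) (.a (.c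
      (.a (.l 32) (.l 32)) (.a (.l 32) (.l 32))) (.c (.l 34) (.a (.l 32) (.l 32))))) (.a (.a (.a
      (.c (.l 36) (.a (.c (.l 32) (.l 32)) (.l 32))) (.c (.l 32) (.a (.l 32) (.l 32)))) (.a (.c
      (.l 32) (.l 32)) (.c (.l 32) (.l 32)))) (.a (.c (.a (.l 32) (.l 32)) (.a (.l 32) (.l 32)))
      (.c (.l 32) (.l 34))))))

def y1f_h27 : chk3 (onCell 0 2684354560 1610612736 12884901888 0 26843546 (L1 Ff)) y1f_t27 11 68 7 = true := by decide +kernel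

def y1f_t28 : T :=
  (.a (.a (.c (.a (.c (.l 36) (.b (.l 32) (.l 32))) (.c (.l 32) (.a (.l 32) (.l 32)))) (.a (.c
      (.b (.a (.l 32) (.l 32)) (.l 32)) (.b (.c (.l 32) (.a (.l 32) (.l 32))) (.l 32))) (.c (.b
      (.l 32) (.l 32)) (.b (.l 32) (.l 32))))) (.c (.a (.c (.l 32) (.l 32)) (.c (.l 32) (.l 32)))
      (.a (.c (.a (.l 32) (.l 32)) (.a (.l 32) (.l 32))) (.c (.l 32) (.a (.l 32) (.l 32)))))) (.a
      (.c (.c (.a (.l 32) (.l 32)) (.a (.l 32) (.l 32))) (.c (.a (.l 32) (.l 32)) (.a (.l 32) (.l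
      32)))) (.c (.c (.a (.l 32) (.l 32)) (.a (.l 32) (.l 32))) (.c (.a (.l 32) (.l 32)) (.a (.l
      32) (.l 32))))))

def y1f_h28 : chk3 (onCell 0 2684354560 1610612736 12884901888 0 26843546 (L1 Ff)) y1f_t28 11 69 7 = true := by decide +kernel

end Pool.Agent.Strip051.LC.E1.V2
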