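import Pool.Agent.Strip051.LC.E1.V2.Lf

/-! # Rests near the full period: certificates C10 below `2 h0` -/

set_option maxRecDepth 100000

namespace Pool.Agent.Strip051.LC.E1.V2

open Pool.Agent.Strip051.PB
open Pool.Agent.Strip051.LC.E0.Ch (onCell Tree)

def y1n_t87 : T :=
  (.a (.a (.l 36) (.c (.b (.a (.l 68) (.l 36)) (.a (.l 36) (.l 36))) (.b (.a (.l 68) (.l 36)) (.a
      (.l 36) (.l 36))))) (.a (.c (.b (.c (.b (.l 68) (.l 68)) (.b (.a (.l 64) (.l 32)) (.l 68)))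
      (.c (.b (.l 68) (.l 36)) (.b (.l 68) (.l 36)))) (.b (.c (.b (.a (.l 64) (.l 32)) (.l 68))
      (.b (.a (.l 64) (.l 32)) (.l 68))) (.c (.b (.l 68) (.l 36)) (.a (.l 64) (.l 32))))) (.c (.b
      (.a (.l 64) (.l 32)) (.a (.l 64) (.l 32))) (.b (.a (.l 64) (.l 32)) (.a (.l 64) (.l 32))))))

def y1n_h87 : chk3 (onCell 0 2684354560 1610612736 12884901888 0 26843546 (L1 Fnr)) y1n_t87 4 21 6 = true := by decide +kernel

def y1n_t88 : T :=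
  (.a (.a (.l 36) (.c (.b (.a (.l 68) (.l 36)) (.a (.l 36) (.l 36))) (.b (.a (.l 68) (.l 36)) (.a
      (.l 36) (.l 36))))) (.b (.c (.a (.b (.c (.a (.l 64) (.l 32)) (.a (.l 64) (.l 32))) (.c (.a
      (.l 64) (.l 32)) (.a (.l 64) (.l 32)))) (.a (.l 64) (.l 32))) (.a (.b (.c (.a (.l 64) (.l
      32)) (.a (.l 64) (.l 32))) (.c (.a (.l 64) (.l 32)) (.a (.l 32) (.l 32)))) (.a (.l 64) (.l
      32)))) (.c (.a (.b (.c (.a (.l 32) (.l 32)) (.a (.l 32) (.l 32))) (.a (.l 64) (.l 32))) (.a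
      (.l 64) (.l 32))) (.a (.b (.c (.a (.l 32) (.l 32)) (.a (.l 32) (.l 32))) (.a (.l 32) (.l
      32))) (.a (.l 64) (.l 32))))))

def y1n_h88 : chk3 (onCell 0 2684354560 1610612736 12884901888 0 26843546 (L1 Fnr)) y1n_t88 4 21 7 = true := by decide +kernel

def y1n_t89 : T :=
  (.b (.c (.a (.c (.a (.l 32) (.l 32)) (.a (.l 32) (.l 32))) (.a (.c (.l 32) (.l 32)) (.c (.l 32)
      (.l 32)))) (.a (.c (.a (.l 32) (.l 32)) (.a (.l 32) (.l 32))) (.b (.a (.l 32) (.l 32)) (.a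
      (.l 32) (.l 32))))) (.c (.a (.c (.a (.l 32) (.l 32)) (.a (.l 32) (.l 32))) (.a (.b (.l 32)
      (.l 32)) (.c (.l 32) (.l 32)))) (.a (.a (.c (.l 32) (.l 32)) (.l 32)) (.c (.a (.l 32) (.l
      32)) (.a (.l 32) (.l 32))))))

def y1n_h89 : chk3 (onCell 0 2684354560 1610612736 12884901888 0 26843546 (L1 Fnr)) y1n_t89 10 20 6 = true := by decide +kernel

def y1n_t90 : T :=
  (.b (.c (.a (.a (.c (.l 32) (.l 32)) (.c (.l 32) (.l 32))) (.a (.a (.a (.l 32) (.l 32)) (.l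
      34)) (.a (.l 34) (.l 34)))) (.a (.a (.c (.l 32) (.b (.l 32) (.l 32))) (.c (.a (.l 32) (.l
      32)) (.b (.l 32) (.l 32)))) (.a (.a (.c (.l 32) (.l 32)) (.l 34)) (.a (.l 34) (.l 34)))))
      (.c (.a (.a (.c (.l 32) (.l 32)) (.c (.l 32) (.b (.l 32) (.l 32)))) (.a (.a (.l 34) (.l
      34)) (.a (.l 34) (.l 34)))) (.a (.a (.c (.b (.l 32) (.l 32)) (.b (.l 32) (.l 32))) (.c (.b
      (.l 32) (.l 32)) (.l 32))) (.a (.a (.l 34) (.l 34)) (.a (.l 34) (.l 34))))))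

def y1n_h90 : chk3 (onCell 0 2684354560 1610612736 12884901888 0 26843546 (L1 Fnr)) y1n_t90 11 20 6 = true := by decide +kernel

def y1n_t91 : T :=
  (.a (.b (.c (.a (.a (.l 32) (.l 32)) (.b (.a (.l 32) (.l 32)) (.a (.l 32) (.l 32)))) (.a (.a
      (.l 32) (.l 32)) (.a (.b (.l 32) (.l 32)) (.c (.b (.l 32) (.l 32)) (.b (.l 32) (.l 32))))))
      (.c (.a (.a (.l 32) (.l 32)) (.a (.c (.l 32) (.l 32)) (.c (.l 32) (.b (.l 32) (.l 47)))))
      (.a (.a (.l 32) (.c (.l 32) (.l 32))) (.a (.c (.b (.l 32) (.l 47)) (.b (.l 32) (.l 47)))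
      (.c (.b (.l 47) (.l 47)) (.l 47)))))) (.b (.c (.a (.a (.c (.b (.l 32) (.l 32)) (.b (.l 32)
      (.l 32))) (.c (.b (.l 32) (.l 32)) (.l 32))) (.a (.a (.l 34) (.l 34)) (.a (.l 34) (.l
      34)))) (.a (.c (.a (.b (.l 32) (.l 32)) (.b (.l 32) (.l 47))) (.b (.a (.l 32) (.l 32)) (.l
      47))) (.a (.a (.c (.l 32) (.l 47)) (.l 47)) (.l 47)))) (.c (.a (.c (.a (.l 32) (.l 47)) (.b
      (.l 47) (.l 47))) (.l 47)) (.a (.l 47) (.l 47)))))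

def y1n_h91 : chk3 (onCell 0 2684354560 1610612736 12884901888 0 26843546 (L1 Fnr)) y1n_t91 5 20 7 = true := by decide +kernel

def y1n_t92 : T :=
  (.a (.b (.c (.a (.c (.a (.l 32) (.l 32)) (.a (.l 32) (.l 32))) (.c (.a (.l 32) (.l 32)) (.a (.l
      32) (.l 32)))) (.a (.a (.l 32) (.l 32)) (.c (.a (.l 32) (.l 32)) (.a (.l 32) (.l 32)))))
      (.c (.a (.a (.l 32) (.l 32)) (.c (.a (.l 32) (.l 32)) (.a (.l 32) (.l 47)))) (.a (.a (.l
      32) (.c (.l 32) (.l 47))) (.a (.c (.l 47) (.l 47)) (.l 47))))) (.b (.c (.a (.a (.c (.l 32)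
      (.l 32)) (.c (.l 32) (.l 32))) (.a (.a (.l 34) (.l 34)) (.a (.l 34) (.l 34)))) (.a (.c (.a
      (.l 32) (.l 47)) (.l 47)) (.l 47))) (.c (.a (.a (.c (.l 32) (.l 47)) (.l 47)) (.l 47)) (.l
      47))))

def y1n_h92 : chk3 (onCell 0 2684354560 1610612736 12884901888 0 26843546 (L1 Fnr)) y1n_t92 5 21 6 = true := by decide +kernel

def y1n_t93 : T :=
  (.a (.b (.c (.a (.a (.l 32) (.c (.l 32) (.l 32))) (.a (.c (.l 32) (.l 47)) (.l 47))) (.a (.b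
      (.a (.l 32) (.l 47)) (.a (.l 47) (.l 47))) (.l 47))) (.c (.a (.b (.a (.l 32) (.l 47)) (.l
      47)) (.l 47)) (.l 47))) (.b (.c (.l 47) (.l 47)) (.l 47)))

def y1n_h93 : chk3 (onCell 0 2684354560 1610612736 12884901888 0 26843546 (L1 Fnr)) y1n_t93 5 21 7 = true := by decide +kernel

def y1n_t94 : T :=
  (.c (.a (.a (.l 36) (.c (.b (.a (.l 36) (.l 68)) (.a (.l 36) (.l 68))) (.b (.a (.l 36) (.l 68))
      (.a (.l 36) (.l 68))))) (.b (.a (.c (.l 68) (.a (.l 36) (.l 32))) (.c (.a (.l 64) (.l 32))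
      (.a (.l 64) (.l 32)))) (.c (.a (.l 36) (.a (.l 64) (.l 32))) (.a (.a (.l 36) (.l 32)) (.a
      (.l 64) (.l 47)))))) (.a (.a (.l 36) (.c (.b (.a (.l 36) (.l 68)) (.a (.l 36) (.l 68))) (.a
      (.l 36) (.b (.l 68) (.l 68))))) (.b (.c (.a (.a (.l 36) (.l 32)) (.a (.l 32) (.l 47))) (.a
      (.a (.c (.l 32) (.l 32)) (.l 32)) (.l 47))) (.c (.a (.a (.l 68) (.l 32)) (.l 47)) (.a (.a
      (.c (.l 32) (.l 32)) (.l 47)) (.l 47))))))

def y1n_h94 : chk3 (onCell 0 2684354560 1610612736 12884901888 0 26843546 (L1 Fnr)) y1n_t94 4 22 3 = true := by decide +kernel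

def y1n_t95 : T :=
  (.c (.a (.a (.l 36) (.c (.a (.a (.l 36) (.l 36)) (.l 68)) (.a (.b (.l 36) (.l 36)) (.b (.l 36)
      (.l 36))))) (.b (.c (.a (.l 36) (.a (.l 64) (.l 47))) (.a (.a (.l 36) (.l 32)) (.l 47)))
      (.c (.a (.a (.l 36) (.l 32)) (.l 47)) (.a (.a (.l 68) (.l 47)) (.l 47))))) (.a (.a (.l 36)
      (.b (.a (.l 36) (.c (.l 36) (.a (.l 32) (.l 32)))) (.a (.l 36) (.c (.l 36) (.l 47))))) (.b
      (.c (.a (.a (.l 68) (.l 47)) (.l 47)) (.a (.l 47) (.l 47))) (.c (.a (.l 47) (.l 47)) (.l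
      47)))))

def y1n_h95 : chk3 (onCell 0 2684354560 1610612736 12884901888 0 26843546 (L1 Fnr)) y1n_t95 4 23 3 = true := by decide +kernel

def y1n_t96 : T :=
  (.b (.c (.a (.b (.c (.a (.a (.l 32) (.l 32)) (.c (.a (.l 47) (.l 47)) (.l 47))) (.a (.a (.l 32)
      (.l 47)) (.l 47))) (.c (.a (.a (.l 32) (.l 47)) (.l 47)) (.l 47))) (.b (.c (.l 47) (.l 47))
      (.l 47))) (.a (.b (.c (.l 47) (.l 47)) (.l 47)) (.l 47))) (.c (.a (.b (.c (.l 47) (.l 47))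
      (.l 47)) (.l 47)) (.a (.l 47) (.l 47))))

def y1n_h96 : chk3 (onCell 0 2684354560 1610612736 12884901888 0 26843546 (L1 Fnr)) y1n_t96 5 11 3 = true := by decide +kernel

def y1n_t97 : T :=
  (.c (.a (.a (.a (.a (.b (.l 66) (.l 66)) (.b (.l 66) (.l 66))) (.b (.l 66) (.l 66))) (.a (.b
      (.l 66) (.l 66)) (.l 66))) (.a (.a (.l 66) (.l 66)) (.l 66))) (.a (.a (.a (.a (.l 66) (.l
      66)) (.b (.l 66) (.l 66))) (.a (.b (.l 66) (.l 66)) (.b (.l 66) (.l 66)))) (.a (.a (.b (.l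
      66) (.l 66)) (.b (.l 66) (.l 66))) (.a (.b (.l 66) (.l 66)) (.l 66)))))

def y1n_h97 : chk3 (onCell 0 2684354560 1610612736 12884901888 0 26843546 (L1 Fnr)) y1n_t97 6 20 4 = true := by decide +kernel

def y1n_t98 : T :=
  (.a (.b (.a (.a (.a (.c (.l 66) (.l 66)) (.c (.l 66) (.l 66))) (.a (.c (.l 66) (.l 66)) (.c (.l
      66) (.l 66)))) (.a (.a (.c (.l 66) (.l 66)) (.c (.l 66) (.l 66))) (.a (.c (.l 66) (.l 66))
      (.b (.l 66) (.l 66))))) (.a (.a (.a (.c (.l 66) (.l 66)) (.c (.l 66) (.l 66))) (.a (.c (.l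
      66) (.l 66)) (.c (.l 66) (.l 66)))) (.a (.a (.c (.l 66) (.l 66)) (.c (.l 66) (.l 66))) (.a
      (.c (.l 66) (.l 66)) (.c (.l 66) (.l 66)))))) (.c (.a (.a (.b (.l 66) (.l 66)) (.b (.l 66)
      (.l 66))) (.a (.b (.l 66) (.l 66)) (.b (.l 66) (.l 66)))) (.a (.a (.b (.l 66) (.l 66)) (.b
      (.l 66) (.l 66))) (.a (.b (.l 66) (.l 66)) (.b (.l 66) (.l 66))))))

def y1n_h98 : chk3 (onCell 0 2684354560 1610612736 12884901888 0 26843546 (L1 Fnr)) y1n_t98 6 20 5 = true := by decide +kernel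

def y1n_t99 : T :=
  (.c (.c (.a (.a (.a (.l 66) (.l 66)) (.l 66)) (.a (.l 66) (.l 66))) (.a (.a (.a (.l 66) (.l
      66)) (.l 66)) (.a (.l 66) (.l 66)))) (.a (.a (.a (.a (.l 66) (.l 66)) (.a (.l 66) (.l 66)))
      (.a (.a (.l 66) (.l 66)) (.b (.l 66) (.l 66)))) (.a (.a (.b (.l 66) (.l 66)) (.b (.l 66)
      (.l 66))) (.a (.b (.l 66) (.l 66)) (.b (.l 66) (.l 66))))))

def y1n_h99 : chk3 (onCell 0 2684354560 1610612736 12884901888 0 26843546 (L1 Fnr)) y1n_t99 6 21 4 = true := by decide +kernel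

def y1n_t100 : T :=
  (.a (.c (.a (.a (.a (.b (.l 66) (.l 66)) (.l 66)) (.a (.l 66) (.l 66))) (.a (.a (.l 66) (.l
      66)) (.a (.l 66) (.l 66)))) (.a (.a (.a (.b (.l 34) (.l 34)) (.l 66)) (.a (.l 66) (.l 66)))
      (.a (.a (.l 66) (.l 66)) (.a (.l 66) (.l 66))))) (.a (.a (.b (.a (.c (.l 66) (.l 66)) (.c
      (.l 66) (.l 66))) (.a (.c (.l 66) (.l 47)) (.c (.l 66) (.l 47)))) (.b (.a (.b (.l 66) (.l
      66)) (.b (.l 66) (.l 66))) (.a (.c (.l 66) (.l 47)) (.c (.l 66) (.l 47))))) (.a (.b (.a (.b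
      (.l 66) (.l 66)) (.b (.l 66) (.l 66))) (.a (.b (.l 66) (.l 66)) (.b (.l 66) (.l 66)))) (.b
      (.a (.b (.l 66) (.l 66)) (.b (.l 66) (.l 66))) (.a (.b (.l 66) (.l 66)) (.b (.l 66) (.l
      47)))))))

def y1n_h100 : chk3 (onCell 0 2684354560 1610612736 12884901888 0 26843546 (L1 Fnr)) y1n_t100 6 21 5 = true := by decide +kernel

def y1n_t101 : T :=
  (.c (.a (.a (.l 66) (.l 66)) (.a (.l 66) (.l 66))) (.a (.a (.b (.l 66) (.l 66)) (.b (.l 66) (.l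
      66))) (.a (.b (.l 66) (.l 66)) (.b (.l 66) (.l 66)))))

def y1n_h101 : chk3 (onCell 0 2684354560 1610612736 12884901888 0 26843546 (L1 Fnr)) y1n_t101 7 20 4 = true := by decide +kernel

def y1n_t102 : T :=
  (.a (.a (.b (.a (.b (.a (.l 66) (.l 66)) (.a (.l 66) (.l 66))) (.b (.a (.l 66) (.l 66)) (.a (.l
      66) (.l 66)))) (.a (.a (.b (.l 66) (.l 66)) (.b (.l 66) (.l 66))) (.b (.a (.l 66) (.l 66))
      (.a (.l 66) (.l 66))))) (.b (.a (.b (.a (.l 66) (.l 66)) (.a (.l 66) (.b (.l 66) (.l 66))))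
      (.b (.a (.l 66) (.b (.l 66) (.l 66))) (.a (.b (.l 66) (.l 66)) (.b (.l 66) (.l 66))))) (.a
      (.b (.a (.l 66) (.l 66)) (.a (.l 66) (.l 66))) (.b (.a (.l 66) (.l 66)) (.a (.l 66) (.l
      66)))))) (.a (.b (.a (.b (.a (.b (.l 66) (.l 66)) (.b (.l 66) (.l 66))) (.a (.l 66) (.l
      66))) (.b (.a (.b (.l 66) (.l 66)) (.l 66)) (.a (.l 66) (.l 66)))) (.a (.b (.a (.l 66) (.l
      66)) (.a (.l 66) (.l 66))) (.b (.a (.l 66) (.l 66)) (.a (.l 66) (.l 66))))) (.c (.b (.l 66)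
      (.l 66)) (.b (.l 66) (.l 47)))))

def y1n_h102 : chk3 (onCell 0 2684354560 1610612736 12884901888 0 26843546 (L1 Fnr)) y1n_t102 7 20 5 = true := by decide +kernel

def y1n_t103 : T :=
  (.c (.c (.a (.a (.l 66) (.l 66)) (.a (.l 66) (.l 66))) (.a (.a (.a (.b (.l 66) (.l 66)) (.b (.l
      66) (.l 66))) (.b (.l 66) (.l 66))) (.a (.b (.l 66) (.l 66)) (.b (.l 66) (.l 66))))) (.c
      (.a (.a (.a (.l 66) (.l 66)) (.b (.l 66) (.l 66))) (.a (.b (.l 66) (.l 47)) (.b (.l 66) (.l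
      47)))) (.a (.a (.l 47) (.l 47)) (.l 47))))

def y1n_h103 : chk3 (onCell 0 2684354560 1610612736 12884901888 0 26843546 (L1 Fnr)) y1n_t103 7 21 2 = true := by decide +kernel

def y1n_t104 : T :=
  (.c (.c (.c (.a (.a (.a (.l 66) (.l 66)) (.l 66)) (.a (.l 66) (.l 66))) (.a (.a (.a (.l 66) (.l
      66)) (.l 66)) (.a (.l 66) (.l 66)))) (.a (.a (.a (.a (.l 66) (.l 66)) (.a (.l 66) (.l 66)))
      (.a (.a (.l 66) (.l 66)) (.a (.l 66) (.l 66)))) (.a (.a (.b (.l 66) (.l 66)) (.b (.l 66)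
      (.l 66))) (.a (.b (.l 66) (.l 66)) (.b (.l 66) (.l 66)))))) (.a (.a (.a (.a (.c (.b (.l 66)
      (.l 34)) (.l 47)) (.c (.l 66) (.l 47))) (.a (.b (.c (.l 66) (.l 47)) (.c (.l 47) (.l 47)))
      (.b (.c (.l 66) (.l 47)) (.l 47)))) (.a (.a (.b (.c (.l 66) (.l 47)) (.l 47)) (.b (.c (.l
      66) (.l 47)) (.l 47))) (.a (.b (.c (.l 66) (.l 47)) (.l 47)) (.b (.c (.l 66) (.l 47)) (.l
      47))))) (.c (.a (.a (.l 66) (.l 66)) (.a (.l 47) (.l 47))) (.l 47))))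

def y1n_h104 : chk3 (onCell 0 2684354560 1610612736 12884901888 0 26843546 (L1 Fnr)) y1n_t104 6 22 2 = true := by decide +kernel

def y1n_t105 : T :=
  (.c (.c (.c (.a (.a (.a (.l 66) (.l 66)) (.l 66)) (.a (.l 66) (.l 66))) (.a (.a (.a (.l 66) (.l
      66)) (.l 66)) (.a (.l 66) (.l 66)))) (.a (.a (.a (.a (.a (.l 66) (.l 66)) (.l 66)) (.a (.l
      66) (.l 66))) (.a (.a (.l 66) (.l 66)) (.a (.l 66) (.l 66)))) (.a (.a (.a (.l 66) (.l 66))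
      (.a (.l 66) (.l 66))) (.a (.b (.l 66) (.l 47)) (.b (.l 66) (.l 47)))))) (.c (.a (.l 47) (.l
      47)) (.l 47)))

def y1n_h105 : chk3 (onCell 0 2684354560 1610612736 12884901888 0 26843546 (L1 Fnr)) y1n_t105 6 23 2 = true := by decide +kernel

def y1n_t106 : T :=
  (.b (.c (.a (.c (.a (.l 66) (.l 66)) (.a (.a (.b (.l 66) (.l 66)) (.b (.l 66) (.l 66))) (.a (.b
      (.l 66) (.l 66)) (.b (.l 66) (.l 66))))) (.c (.a (.l 66) (.l 66)) (.a (.b (.l 66) (.l 66))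
      (.b (.l 66) (.l 66))))) (.c (.c (.l 47) (.l 47)) (.l 47))) (.c (.a (.c (.a (.a (.l 66) (.l
      66)) (.a (.l 66) (.l 66))) (.a (.a (.l 66) (.l 66)) (.a (.l 66) (.l 66)))) (.c (.a (.a (.l
      66) (.l 66)) (.b (.l 66) (.l 66))) (.a (.a (.l 66) (.l 66)) (.a (.l 66) (.l 47))))) (.c (.l
      47) (.l 47))))

def y1n_h106 : chk3 (onCell 0 2684354560 1610612736 12884901888 0 26843546 (L1 Fnr)) y1n_t106 7 11 2 = true := by decide +kernel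

def y1n_t107 : T :=
  (.c (.b (.a (.a (.a (.c (.l 34) (.l 34)) (.c (.l 34) (.l 34))) (.a (.c (.l 34) (.l 34)) (.c (.l
      34) (.l 66)))) (.a (.a (.c (.l 34) (.l 66)) (.c (.l 66) (.l 66))) (.a (.c (.l 66) (.l 66))
      (.b (.l 66) (.l 66))))) (.a (.a (.a (.c (.l 34) (.l 47)) (.c (.l 34) (.l 47))) (.a (.c (.l
      34) (.l 47)) (.c (.l 66) (.l 47)))) (.a (.a (.c (.l 66) (.l 47)) (.c (.l 66) (.l 47))) (.a
      (.b (.l 66) (.l 47)) (.b (.l 66) (.l 47)))))) (.c (.a (.a (.a (.b (.l 34) (.l 47)) (.b (.l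
      66) (.l 47))) (.a (.b (.l 47) (.l 47)) (.l 47))) (.a (.l 47) (.l 47))) (.a (.l 47) (.l
      47))))

def y1n_h107 : chk3 (onCell 0 2684354560 1610612736 12884901888 0 26843546 (L1 Fnr)) y1n_t107 12 20 3 = true := by decide +kernel

def y1n_t108 : T :=
  (.b (.c (.a (.a (.a (.b (.l 66) (.l 66)) (.b (.l 66) (.l 66))) (.a (.b (.l 66) (.l 66)) (.b (.l
      66) (.l 66)))) (.a (.a (.l 66) (.l 66)) (.a (.l 66) (.l 66)))) (.l 47)) (.c (.a (.a (.a (.b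
      (.l 47) (.l 47)) (.l 66)) (.l 47)) (.l 47)) (.l 47)))

def y1n_h108 : chk3 (onCell 0 2684354560 1610612736 12884901888 0 26843546 (L1 Fnr)) y1n_t108 13 20 3 = true := by decide +kernel

def y1n_t109 : T :=
  (.c (.a (.c (.a (.a (.a (.b (.l 47) (.l 47)) (.l 47)) (.l 47)) (.l 47)) (.l 47)) (.c (.l 47)
      (.l 47))) (.a (.l 47) (.l 47)))

def y1n_h109 : chk3 (onCell 0 2684354560 1610612736 12884901888 0 26843546 (L1 Fnr)) y1n_t109 6 21 3 = true := by decide +kernel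

def y1n_t110 : T :=
  (.b (.c (.b (.c (.c (.a (.l 66) (.l 47)) (.l 47)) (.l 47)) (.a (.l 47) (.l 47))) (.a (.l 47)
      (.l 47))) (.c (.a (.l 47) (.l 47)) (.l 47)))

def y1n_h110 : chk3 (onCell 0 2684354560 1610612736 12884901888 0 26843546 (L1 Fnr)) y1n_t110 7 10 3 = true := by decide +kernel

def y1n_t111 : T :=
  (.a (.b (.c (.a (.l 47) (.l 47)) (.l 47)) (.c (.l 47) (.l 47))) (.b (.c (.l 47) (.l 15)) (.c
      (.l 47) (.l 15))))

def y1n_h111 : chk3 (onCell 0 2684354560 1610612736 12884901888 0 26843546 (L1 Fnr)) y1n_t111 3 11 3 = true := by decide +kernel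

def y1n_t112 : T :=
  (.c (.a (.c (.b (.a (.l 68) (.a (.l 36) (.l 36))) (.a (.l 68) (.a (.l 68) (.l 36)))) (.a (.l
      68) (.b (.a (.l 36) (.l 36)) (.a (.l 68) (.l 36))))) (.c (.a (.l 36) (.a (.c (.l 68) (.b
      (.a (.l 64) (.l 64)) (.a (.l 64) (.l 64)))) (.c (.l 36) (.l 36)))) (.a (.l 36) (.a (.c (.b
      (.a (.l 32) (.l 32)) (.a (.l 32) (.l 32))) (.b (.l 64) (.l 64))) (.c (.b (.l 36) (.a (.l
      32) (.l 32))) (.b (.l 32) (.l 32))))))) (.a (.a (.l 68) (.c (.b (.a (.l 36) (.l 36)) (.a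
      (.l 68) (.l 36))) (.a (.b (.l 36) (.l 68)) (.l 36)))) (.b (.c (.a (.l 36) (.a (.c (.l 64)
      (.l 32)) (.c (.l 32) (.l 47)))) (.a (.l 36) (.l 47))) (.c (.a (.l 36) (.a (.l 36) (.l 47)))
      (.a (.l 36) (.l 47))))))

def y1n_h112 : chk3 (onCell 0 2684354560 1610612736 12884901888 0 26843546 (L1 Fnr)) y1n_t112 4 24 2 = true := by decide +kernel

def y1n_t113 : T :=
  (.c (.a (.c (.b (.a (.l 36) (.a (.l 68) (.l 36))) (.a (.l 36) (.a (.l 68) (.l 36)))) (.a (.l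
      68) (.a (.b (.l 68) (.l 68)) (.l 36)))) (.c (.a (.l 36) (.a (.c (.b (.l 36) (.l 36)) (.b
      (.a (.l 64) (.l 64)) (.a (.l 64) (.l 32)))) (.c (.l 36) (.b (.l 36) (.l 36))))) (.a (.l 36)
      (.c (.a (.b (.a (.l 32) (.l 32)) (.c (.l 64) (.l 47))) (.b (.c (.l 32) (.l 32)) (.l 47)))
      (.b (.a (.l 64) (.l 47)) (.l 47)))))) (.a (.a (.l 68) (.a (.c (.b (.l 68) (.l 68)) (.b (.l
      68) (.l 68))) (.l 36))) (.b (.c (.a (.l 36) (.l 47)) (.a (.l 47) (.l 47))) (.c (.a (.l 47)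
      (.l 47)) (.l 47)))))

def y1n_h113 : chk3 (onCell 0 2684354560 1610612736 12884901888 0 26843546 (L1 Fnr)) y1n_t113 4 25 2 = true := by decide +kernel

def y1n_t114 : T :=
  (.a (.c (.c (.a (.l 36) (.a (.l 36) (.l 36))) (.a (.a (.l 36) (.l 36)) (.a (.a (.l 32) (.l 32))
      (.c (.l 32) (.l 32))))) (.a (.c (.a (.l 36) (.l 36)) (.b (.a (.l 32) (.l 32)) (.a (.l 32)
      (.l 47)))) (.b (.c (.a (.l 32) (.l 32)) (.a (.l 32) (.l 47))) (.c (.a (.l 32) (.l 32)) (.l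
      47))))) (.b (.c (.c (.a (.a (.l 36) (.a (.l 36) (.a (.l 66) (.l 66)))) (.a (.a (.l 66) (.l
      66)) (.l 66))) (.a (.l 36) (.a (.l 66) (.l 64)))) (.c (.a (.a (.l 32) (.l 32)) (.a (.l 32)
      (.l 66))) (.l 47))) (.c (.c (.a (.a (.l 36) (.a (.l 36) (.a (.l 66) (.l 66)))) (.a (.a (.l
      66) (.l 66)) (.l 66))) (.a (.a (.l 36) (.l 36)) (.a (.l 66) (.l 66)))) (.c (.a (.a (.l 32)
      (.l 47)) (.l 47)) (.l 47)))))

def y1n_h114 : chk3 (onCell 0 2684354560 1610612736 12884901888 0 26843546 (L1 Fnr)) y1n_t114 5 24 4 = true := by decide +kernel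

def y1n_t115 : T :=
  (.a (.b (.a (.c (.a (.c (.l 47) (.l 47)) (.l 47)) (.l 47)) (.l 47)) (.c (.l 47) (.l 47))) (.b
      (.l 47) (.l 47)))

def y1n_h115 : chk3 (onCell 0 2684354560 1610612736 12884901888 0 26843546 (L1 Fnr)) y1n_t115 5 24 5 = true := by decide +kernel

end Pool.Agent.Strip051.LC.E1.V2
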